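import Mathlib

/-!
# FTA/Cnt: counting integers in an interval in a residue class

PROOF of `cnt`.  If `S` is empty the right side is positive.  Otherwise let `a` be the minimum of
`S`.  The map `x ↦ (x - a) / m` (an exact division) is injective on `S` and has values in
`{0, ..., ⌊L / m⌋}`, since `0 ≤ x - a ≤ L`.  So `card S ≤ ⌊L / m⌋₊ + 1 ≤ L / m + 1`.
-/

set_option autoImplicit false

namespace Pool.Agent.FTA

theorem cnt (S : Finset ℤ) (m : ℕ) (hm : 1 ≤ m) (L : ℝ) (hL : 0 ≤ L)
    (hd : ∀ x ∈ S, ∀ y ∈ S, (m : ℤ) ∣ x - y)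
    (hl : ∀ x ∈ S, ∀ y ∈ S, ((x - y : ℤ) : ℝ) ≤ L) : (S.card : ℝ) ≤ L / m + 1 := by
  rcases S.eq_empty_or_nonempty with rfl | hne
  · simp only [Finset.card_empty, Nat.cast_zero]
    positivity
  · have hm0 : (0 : ℝ) < m := by exact_mod_cast hm
    have hmZ : (0 : ℤ) < m := by exact_mod_cast hm
    set a : ℤ := S.min' hne with ha
    have haS : a ∈ S := S.min'_mem hne
    have h1 : S.card ≤ (Finset.range (⌊L / m⌋₊ + 1)).card := by
      refine Finset.card_le_card_of_injOn (fun x => ((x - a) / m).toNat) ?_ ?_
      · intro x hx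
        have hx' : x ∈ S := hx
        have h2 : 0 ≤ x - a := sub_nonneg.2 (S.min'_le x hx')
        have h3 := hl x hx' a haS
        obtain ⟨q, hq⟩ := hd x hx' a haS
        have hq0 : 0 ≤ q := by
          by_contra hneg
          push Not at hneg
          nlinarith
        have e1 : (x - a) / m = q := by
          rw [hq]
          exact Int.mul_ediv_cancel_left q hmZ.ne'
        simp only [Finset.coe_range, Set.mem_Iio, e1]
        rw [Nat.lt_add_one_iff, Nat.le_floor_iff (by positivity)]
        have h4 : ((q.toNat : ℕ) : ℝ) = (q : ℝ) := by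
          have : ((q.toNat : ℕ) : ℤ) = q := Int.toNat_of_nonneg hq0
          exact_mod_cast this
        rw [h4, le_div_iff₀ hm0]
        have h5 : ((x - a : ℤ) : ℝ) = (m : ℝ) * q := by
          rw [hq]
          push_cast
          ring
        rw [h5] at h3
        linarith
      · intro x hx y hy hxy
        have hx' : x ∈ S := hx
        have hy' : y ∈ S := hy
        have h2 : 0 ≤ x - a := sub_nonneg.2 (S.min'_le x hx')
        have h3 : 0 ≤ y - a := sub_nonneg.2 (S.min'_le y hy')
        obtain ⟨q, hq⟩ := hd x hx' a haS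
        obtain ⟨r, hr⟩ := hd y hy' a haS
        have e1 : (x - a) / m = q := by
          rw [hq]
          exact Int.mul_ediv_cancel_left q hmZ.ne'
        have e2 : (y - a) / m = r := by
          rw [hr]
          exact Int.mul_ediv_cancel_left r hmZ.ne'
        have hq0 : 0 ≤ q := by
          by_contra hneg
          push Not at hneg
          nlinarith
        have hr0 : 0 ≤ r := by
          by_contra hneg
          push Not at hneg
          nlinarith
        simp only [e1, e2] at hxy
        have h4 : q = r := by
          rw [← Int.toNat_of_nonneg hq0, ← Int.toNat_of_nonneg hr0, hxy]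
        have h5 : x - a = y - a := by rw [hq, hr, h4]
        linarith
    rw [Finset.card_range] at h1
    have h2 : ((⌊L / m⌋₊ : ℕ) : ℝ) ≤ L / m := Nat.floor_le (by positivity)
    have h3 : (S.card : ℝ) ≤ ((⌊L / m⌋₊ + 1 : ℕ) : ℝ) := by exact_mod_cast h1
    push_cast at h3
    linarith

end Pool.Agent.FTA
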