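import Mathlib

/-! # FTA/Fib: counting by fibres -/

set_option autoImplicit false

namespace Pool.Agent.FTA

theorem fib {α β : Type*} [DecidableEq β] (S : Finset α) (f : α → β) (t : Finset β)
    (h : ∀ a ∈ S, f a ∈ t) (b : β → ℝ)
    (hb : ∀ y ∈ t, ((S.filter (fun a => f a = y)).card : ℝ) ≤ b y) :
    (S.card : ℝ) ≤ ∑ y ∈ t, b y := by
  rw [Finset.card_eq_sum_card_fiberwise h]
  push_cast
  exact Finset.sum_le_sum hb

/-- constant fibre bound -/
theorem fib_const {α β : Type*} [DecidableEq β] (S : Finset α) (f : α → β) (t : Finset β)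
    (h : ∀ a ∈ S, f a ∈ t) (b : ℝ)
    (hb : ∀ y ∈ t, ((S.filter (fun a => f a = y)).card : ℝ) ≤ b) :
    (S.card : ℝ) ≤ t.card * b := by
  have := fib S f t h (fun _ => b) hb
  simpa using this

end Pool.Agent.FTA
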