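import Pool.Agent.FTA.DefsC

/-!
# FTA/Coord: twice an integer of `K` is `t + y √D i`

PROOF of `coord`.  `t` is the trace: `t = Algebra.trace ℤ (𝓞 K) a`, and by `trace_eq` and
`Algebra.coe_trace_int` (see the proof of `discr_eq_om` in module `Lat`) `t = a + conj a = 2 Re a`.
For the imaginary part take a basis `b` (`exists_basis`): by `im_eq K b a 1`,
`Im a = (integer) * om K b`, and by `sqrt_aD`, `√(aD K) = 2 |om K b|`; so
`2 Im a = ± (integer) * √(aD K)`.  Conclude with `Complex.ext`.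
-/

set_option autoImplicit false

namespace Pool.Agent.FTA

open NumberField

theorem coord (K : IntermediateField ℚ ℂ) [NumberField K] (h2 : Module.finrank ℚ K = 2)
    (him : ∃ x : K, (x : ℂ).im ≠ 0) (a : 𝓞 K) :
    ∃ t y : ℤ, 2 * ((a : K) : ℂ) = (t : ℂ) + (y : ℂ) * ((√(aD K : ℝ) : ℝ) : ℂ) * Complex.I := by
  have htr : ((Algebra.trace ℤ (𝓞 K) a : ℤ) : ℂ) =
      ((a : K) : ℂ) + (starRingEnd ℂ) ((a : K) : ℂ) := by
    rw [← trace_eq K h2 him, ← Algebra.coe_trace_int]
    simp
  obtain ⟨b⟩ := exists_basis K h2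
  have him1 := im_eq K b a 1
  have hone : ((((1 : 𝓞 K) : 𝓞 K) : K) : ℂ) = 1 := by simp
  rw [hone, map_one, mul_one] at him1
  set m : ℤ := b.repr a 0 * b.repr 1 1 - b.repr a 1 * b.repr 1 0 with hm
  have hs := sqrt_aD K h2 him b
  obtain ⟨y, hy⟩ : ∃ y : ℤ, 2 * ((a : K) : ℂ).im = (y : ℝ) * √(aD K : ℝ) := by
    rw [hs, him1]
    rcases le_total 0 (om K b) with h | h
    · exact ⟨m, by rw [abs_of_nonneg h]; ring⟩
    · exact ⟨-m, by rw [abs_of_nonpos h]; push_cast; ring⟩
  refine ⟨Algebra.trace ℤ (𝓞 K) a, y, ?_⟩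
  have hre : ((Algebra.trace ℤ (𝓞 K) a : ℤ) : ℝ) = 2 * ((a : K) : ℂ).re := by
    have h1 := congrArg Complex.re htr
    rw [Complex.intCast_re, Complex.add_re, Complex.conj_re] at h1
    linarith
  apply Complex.ext
  · simp only [Complex.mul_re, Complex.add_re, Complex.intCast_re, Complex.intCast_im,
      Complex.ofReal_re, Complex.ofReal_im, Complex.I_re, Complex.I_im, Complex.mul_im,
      Complex.re_ofNat, Complex.im_ofNat]
    rw [hre]
    ring
  · simp only [Complex.mul_re, Complex.add_im, Complex.intCast_re, Complex.intCast_im,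
      Complex.ofReal_re, Complex.ofReal_im, Complex.I_re, Complex.I_im, Complex.mul_im,
      Complex.re_ofNat, Complex.im_ofNat]
    rw [← hy]
    ring

end Pool.Agent.FTA
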