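import Mathlib

/-!
# FTA/ArP: two arithmetic facts

PROOF of `arSq`.  `t ^ 2 = 4 N ^ p`, `p = 2 k + 1`: `t ^ 2 = (2 N ^ k) ^ 2 N`, so
`2 N ^ k ∣ t` (`Int.pow_dvd_pow_iff` or `Nat.pow_dvd_pow_iff` for `natAbs`), `|t| = 2 N ^ k s`,
`s ^ 2 = N` (`N ≥ 1`), and `2 N ^ k s = 2 s ^ (2 k + 1) = 2 s ^ p`.  `s ≥ 2` since
`s ^ 2 = N ≥ 2`.

PROOF of `arDiv`.  Put `g = gcd (t, y) ≥ 1`, `t = g t₁`, `y = g y₁`, `gcd (t₁, y₁) = 1`.
`g ^ 2 (t₁ ^ 2 + D y₁ ^ 2) = 4 N ^ p`.  `l ∣ y₁`, so `l ∤ t₁`, so `l ∤ t₁ ^ 2 + D y₁ ^ 2`.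
Compare the exponents of `l` (`l` odd): `2 v(g) = p v(N)`.  `p` is odd, so `v(N)` is even, and
`v(N) ≥ 1`, so `v(N) ≥ 2` and `v(g) ≥ p`: `l ^ p ∣ g`, which divides `t` and `y`.
-/

set_option autoImplicit false

namespace Pool.Agent.FTA

theorem arSq (p N : ℕ) (t : ℤ) (hp : Odd p) (hN : 2 ≤ N) (h : t ^ 2 = 4 * (N : ℤ) ^ p) :
    ∃ s : ℕ, 2 ≤ s ∧ (t = 2 * (s : ℤ) ^ p ∨ t = -(2 * (s : ℤ) ^ p)) := by
  obtain ⟨k, hk⟩ := hp
  have hN0 : (N : ℤ) ≠ 0 := by omega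
  have hc0 : (2 * (N : ℤ) ^ k) ≠ 0 := mul_ne_zero (by norm_num) (pow_ne_zero _ hN0)
  have h1 : t ^ 2 = (2 * (N : ℤ) ^ k) ^ 2 * N := by
    rw [h, hk]
    ring
  have h2 : (2 * (N : ℤ) ^ k) ∣ t := by
    rw [← Int.pow_dvd_pow_iff (n := 2) (by norm_num), h1]
    exact dvd_mul_right _ _
  obtain ⟨u, hu⟩ := h2
  have h3 : u ^ 2 = N := by
    have h4 : (2 * (N : ℤ) ^ k) ^ 2 * u ^ 2 = (2 * (N : ℤ) ^ k) ^ 2 * N := by
      rw [← h1, hu]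
      ring
    exact mul_left_cancel₀ (pow_ne_zero 2 hc0) h4
  have h5 : ((u.natAbs : ℕ) : ℤ) ^ 2 = N := by
    rw [Int.natCast_natAbs, sq_abs, h3]
  refine ⟨u.natAbs, ?_, ?_⟩
  · by_contra hlt
    have h6 : u.natAbs = 0 ∨ u.natAbs = 1 := by omega
    rcases h6 with h6 | h6 <;> rw [h6] at h5 <;> push_cast at h5 <;> omega
  · have h7 : ((u.natAbs : ℕ) : ℤ) ^ p = (N : ℤ) ^ k * (u.natAbs : ℕ) := by
      rw [hk, pow_succ, pow_mul, h5]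
    rw [h7, hu]
    rcases Int.natAbs_eq u with h8 | h8
    · left
      rw [← h8]
      ring
    · right
      have h9 : ((u.natAbs : ℕ) : ℤ) = -u := by omega
      rw [h9]
      ring

theorem arDiv (p D N : ℕ) (t y : ℤ) (hp : Odd p) (hN : 1 ≤ N) (hy : y ≠ 0)
    (h : t ^ 2 + (D : ℤ) * y ^ 2 = 4 * (N : ℤ) ^ p) (l : ℕ) (hl : l.Prime) (hl2 : l ≠ 2)
    (h1 : (l : ℤ) ∣ y / (Int.gcd t y : ℤ)) (h2 : l ∣ N) :
    ((l ^ p : ℕ) : ℤ) ∣ t ∧ ((l ^ p : ℕ) : ℤ) ∣ y := by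
  haveI := Fact.mk hl
  obtain ⟨g, hg⟩ : ∃ g, g = Int.gcd t y := ⟨_, rfl⟩
  have hg0 : 0 < g := by
    rw [hg]
    exact Int.gcd_pos_of_ne_zero_right _ hy
  rw [← hg] at h1
  have hgt : (g : ℤ) ∣ t := by rw [hg]; exact Int.gcd_dvd_left ..
  have hgy : (g : ℤ) ∣ y := by rw [hg]; exact Int.gcd_dvd_right ..
  have hco : Int.gcd (t / g) (y / g) = 1 := by
    rw [hg]
    exact Int.gcd_div_gcd_div_gcd (by rw [← hg]; exact hg0)
  obtain ⟨t1, ht1⟩ := hgt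
  obtain ⟨y1, hy1⟩ := hgy
  have hgz : (g : ℤ) ≠ 0 := by omega
  have ht2 : t / g = t1 := by rw [ht1]; exact Int.mul_ediv_cancel_left _ hgz
  have hy2 : y / g = y1 := by rw [hy1]; exact Int.mul_ediv_cancel_left _ hgz
  rw [ht2, hy2] at hco
  rw [hy2] at h1
  have hlz : Prime (l : ℤ) := Nat.prime_iff_prime_int.1 hl
  have hlt : ¬ (l : ℤ) ∣ t1 := by
    intro h3
    have h4 : (l : ℤ) ∣ (Int.gcd t1 y1 : ℤ) := Int.dvd_coe_gcd h3 h1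
    rw [hco] at h4
    exact hlz.not_unit (isUnit_of_dvd_one (by exact_mod_cast h4))
  have hm : (g : ℤ) ^ 2 * (t1 ^ 2 + D * y1 ^ 2) = 4 * (N : ℤ) ^ p := by
    rw [← h, ht1, hy1]
    ring
  have hlm : ¬ (l : ℤ) ∣ t1 ^ 2 + D * y1 ^ 2 := by
    intro h3
    apply hlt
    have h4 : (l : ℤ) ∣ D * y1 ^ 2 := Dvd.dvd.mul_left (Dvd.dvd.pow h1 (by norm_num)) _
    have h5 : (l : ℤ) ∣ t1 ^ 2 := (Int.dvd_add_left h4).1 h3
    exact hlz.dvd_of_dvd_pow h5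
  obtain ⟨M, hM⟩ : ∃ M : ℕ, M = (t1 ^ 2 + (D : ℤ) * y1 ^ 2).natAbs := ⟨_, rfl⟩
  have hMz : (M : ℤ) = t1 ^ 2 + D * y1 ^ 2 := by
    rw [hM, Int.natCast_natAbs, abs_of_nonneg]
    positivity
  rw [← hMz] at hm hlm
  have hmn : g ^ 2 * M = 4 * N ^ p := by exact_mod_cast hm
  have hlM : ¬ l ∣ M := by
    intro h3
    exact hlm (by exact_mod_cast h3)
  have hM0 : M ≠ 0 := by
    rintro rfl
    exact hlM (dvd_zero _)
  have hv := congrArg (padicValNat l) hmn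
  rw [padicValNat.mul (pow_ne_zero _ hg0.ne') hM0, padicValNat.mul (by norm_num)
    (pow_ne_zero _ (by omega)), padicValNat.pow, padicValNat.pow,
    padicValNat.eq_zero_of_not_dvd hlM] at hv
  have h4 : padicValNat l 4 = 0 := by
    apply padicValNat.eq_zero_of_not_dvd
    intro h5
    have h6 : l ∣ 2 ^ 2 := by norm_num; exact h5
    exact hl2 ((Nat.prime_dvd_prime_iff_eq hl Nat.prime_two).1 (hl.dvd_of_dvd_pow h6))
  rw [h4] at hv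
  have hb : 1 ≤ padicValNat l N := one_le_padicValNat_of_dvd (by omega) h2
  have hbe : Even (padicValNat l N) := by
    have h5 : Even (p * padicValNat l N) := ⟨padicValNat l g, by omega⟩
    rcases Nat.even_mul.1 h5 with h6 | h6
    · exact absurd h6 (Nat.not_even_iff_odd.2 hp)
    · exact h6
  obtain ⟨c, hc⟩ := hbe
  have hpg : p ≤ padicValNat l g := by
    have h5 : 1 ≤ c := by omega
    have h6 : padicValNat l g = p * c := by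
      rw [hc] at hv
      nlinarith
    rw [h6]
    exact Nat.le_mul_of_pos_right _ h5
  have hdg : l ^ p ∣ g := (pow_dvd_pow l hpg).trans pow_padicValNat_dvd
  have hdz : ((l ^ p : ℕ) : ℤ) ∣ (g : ℤ) := by exact_mod_cast hdg
  exact ⟨ht1 ▸ hdz.mul_right _, hy1 ▸ hdz.mul_right _⟩

end Pool.Agent.FTA
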