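import Mathlib

/-!
# FTA/PowLe: powers of ideals

PROOF of `powLe`.  In a Dedekind domain `I ≤ J ↔ J ∣ I` (`Ideal.dvd_iff_le`), and in a unique
factorization monoid `a ^ p ∣ b ^ p → a ∣ b` (`p ≠ 0`): e.g. `pow_dvd_pow_iff` for a
`NormalizedGCDMonoid` / `GCDMonoid` structure (`UniqueFactorizationMonoid.toGCDMonoid`), or by the
multiplicities / `normalizedFactors` (`normalizedFactors_pow`,
`dvd_iff_normalizedFactors_le_normalizedFactors`); the case `J = ⊥` is `I ^ p = ⊥`, `I = ⊥`.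
`powEq` is two times `powLe`.
-/

set_option autoImplicit false

namespace Pool.Agent.FTA

theorem powLe (R : Type*) [CommRing R] [IsDedekindDomain R] (I J : Ideal R) (p : ℕ) (hp : p ≠ 0)
    (h : I ^ p ≤ J ^ p) : I ≤ J := by
  rw [← Ideal.dvd_iff_le] at h ⊢
  exact (UniqueFactorizationMonoid.pow_dvd_pow_iff_dvd hp).1 h

theorem powEq (R : Type*) [CommRing R] [IsDedekindDomain R] (I J : Ideal R) (p : ℕ) (hp : p ≠ 0)
    (h : I ^ p = J ^ p) : I = J :=
  le_antisymm (powLe R I J p hp h.le) (powLe R J I p hp h.ge)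

end Pool.Agent.FTA
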