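import Pool.Agent.FTA.IntDiv
import Pool.Agent.FTA.PowLe
import Pool.Agent.FTA.ArP

/-!
# FTA/KeyP: the properties of the solution attached to an ideal

PROOF of `keyP`.
(1) `absNorm (span {a}) = (absNorm I) ^ p` (`map_pow`), and `absNorm (span {a}) = ‖a‖ ^ 2`
(`absNorm_span` in `Lat`), and `4 ‖a‖ ^ 2 = t ^ 2 + D y ^ 2` from `h`.  This gives the equation
(cast to `ℝ`, then `exact_mod_cast`).
(2) If `y = 0`: `arSq` gives `s ≥ 2` with `t = ± 2 s ^ p`, so `2 a = ± 2 s ^ p` in `ℂ`,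
`a = ± s ^ p` in `𝓞 K`, `I ^ p = span {a} = (span {s}) ^ p`, `I = span {s}` by `powEq`
(or `I ≤ span {s}` by `powLe`), contradiction with `hn s`.
(3) If `l` is an odd prime dividing `y / gcd` and `N = absNorm I`: `arDiv` gives `l ^ p ∣ t, y`,
`intDiv` with `n = l ^ p` gives `a = l ^ p * b`, so `I ^ p = span {a} ≤ span {l ^ p} =
(span {l}) ^ p`, so `I ≤ span {l}` by `powLe`, contradiction with `hn l`.
-/

set_option autoImplicit false

namespace Pool.Agent.FTA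

open NumberField

private theorem keyP_norm (K : IntermediateField ℚ ℂ) [NumberField K]
    (h2 : Module.finrank ℚ K = 2) (him : ∃ x : K, (x : ℂ).im ≠ 0) (a : 𝓞 K) (t y : ℤ)
    (h : 2 * ((a : K) : ℂ) = (t : ℂ) + (y : ℂ) * ((√(aD K : ℝ) : ℝ) : ℂ) * Complex.I) :
    (4 * (Ideal.absNorm (Ideal.span {a}) : ℤ)) = t ^ 2 + (aD K : ℤ) * y ^ 2 := by
  have h1 : 4 * ‖((a : K) : ℂ)‖ ^ 2 = (t : ℝ) ^ 2 + (aD K : ℝ) * (y : ℝ) ^ 2 := by
    have h3 : Complex.normSq (2 * ((a : K) : ℂ)) = 4 * ‖((a : K) : ℂ)‖ ^ 2 := by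
      rw [Complex.normSq_mul, Complex.normSq_eq_norm_sq ((a : K) : ℂ)]
      norm_num
    rw [← h3, h, Complex.normSq_apply]
    have hre : ((t : ℂ) + (y : ℂ) * ((√(aD K : ℝ) : ℝ) : ℂ) * Complex.I).re = t := by simp
    have him' : ((t : ℂ) + (y : ℂ) * ((√(aD K : ℝ) : ℝ) : ℂ) * Complex.I).im =
        y * √(aD K : ℝ) := by simp
    rw [hre, him']
    have h4 : √(aD K : ℝ) * √(aD K : ℝ) = aD K := Real.mul_self_sqrt (Nat.cast_nonneg _)
    calc (t : ℝ) * t + (y : ℝ) * √(aD K : ℝ) * (y * √(aD K : ℝ)) =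
        (t : ℝ) ^ 2 + (√(aD K : ℝ) * √(aD K : ℝ)) * (y : ℝ) ^ 2 := by ring
      _ = _ := by rw [h4]
  rw [← absNorm_span K h2 him a] at h1
  exact_mod_cast h1

private theorem keyP_inj (K : IntermediateField ℚ ℂ) [NumberField K] (a b : 𝓞 K)
    (h : ((a : K) : ℂ) = ((b : K) : ℂ)) : a = b :=
  RingOfIntegers.ext (Subtype.ext h)

theorem keyP (p : ℕ) (hp : Odd p) (K : IntermediateField ℚ ℂ) [NumberField K]
    (h2 : Module.finrank ℚ K = 2) (him : ∃ x : K, (x : ℂ).im ≠ 0) (I : Ideal (𝓞 K))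
    (hI : 2 ≤ Ideal.absNorm I) (hn : ∀ n : ℕ, 2 ≤ n → ¬ (I ≤ Ideal.span {(n : 𝓞 K)}))
    (a : 𝓞 K) (ha : I ^ p = Ideal.span {a}) (t y : ℤ)
    (h : 2 * ((a : K) : ℂ) = (t : ℂ) + (y : ℂ) * ((√(aD K : ℝ) : ℝ) : ℂ) * Complex.I) :
    t ^ 2 + (aD K : ℤ) * y ^ 2 = 4 * (Ideal.absNorm I : ℤ) ^ p ∧ y ≠ 0 ∧
      ∀ l : ℕ, l.Prime → l ≠ 2 → (l : ℤ) ∣ y / (Int.gcd t y : ℤ) → ¬ l ∣ Ideal.absNorm I := by
  have hp0 : p ≠ 0 := by
    rintro rfl
    exact absurd hp (by decide)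
  have heq : t ^ 2 + (aD K : ℤ) * y ^ 2 = 4 * (Ideal.absNorm I : ℤ) ^ p := by
    rw [← keyP_norm K h2 him a t y h, ← ha, map_pow]
    push_cast
    ring
  have hy : y ≠ 0 := by
    rintro rfl
    have h3 : t ^ 2 = 4 * (Ideal.absNorm I : ℤ) ^ p := by rw [← heq]; ring
    obtain ⟨s, hs, hst⟩ := arSq p (Ideal.absNorm I) t hp hI h3
    have h4 : 2 * ((a : K) : ℂ) = (t : ℂ) := by rw [h]; simp
    have h5 : Ideal.span {a} = Ideal.span {((s : 𝓞 K)) ^ p} := by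
      rcases hst with h6 | h6
      · have h7 : a = (s : 𝓞 K) ^ p := by
          apply keyP_inj
          rw [h6] at h4
          push_cast at h4
          have h8 := mul_left_cancel₀ (two_ne_zero) h4
          rw [h8]
          push_cast
          simp
        rw [h7]
      · have h7 : a = -(s : 𝓞 K) ^ p := by
          apply keyP_inj
          rw [h6] at h4
          push_cast at h4
          have h9 : 2 * ((a : K) : ℂ) = 2 * (-((s : ℂ) ^ p)) := by rw [h4]; ring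
          have h8 := mul_left_cancel₀ (two_ne_zero) h9
          rw [h8]
          push_cast
          simp
        rw [h7, Ideal.span_singleton_neg]
    have h6 : I ^ p = (Ideal.span {(s : 𝓞 K)}) ^ p := by
      rw [ha, h5, Ideal.span_singleton_pow]
    have h7 := powEq (𝓞 K) I (Ideal.span {(s : 𝓞 K)}) p hp0 h6
    exact hn s hs h7.le
  refine ⟨heq, hy, ?_⟩
  intro l hl hl2 hdiv hlN
  obtain ⟨h3, h4⟩ := arDiv p (aD K) (Ideal.absNorm I) t y hp (by omega) hy heq l hl hl2 hdiv hlN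
  obtain ⟨b, hb⟩ := intDiv K h2 him a t y h (l ^ p) ((hl.odd_of_ne_two hl2).pow) h3 h4
  have h5 : I ^ p ≤ (Ideal.span {(l : 𝓞 K)}) ^ p := by
    rw [ha, Ideal.span_singleton_pow, Ideal.span_singleton_le_span_singleton]
    refine ⟨b, ?_⟩
    rw [hb]
    push_cast
    rfl
  exact hn l hl.two_le (powLe (𝓞 K) I _ p hp0 h5)

end Pool.Agent.FTA
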