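import Pool.Agent.FTA.CMin
import Pool.Agent.FTA.Coord
import Pool.Agent.FTA.KeyP

/-!
# FTA/Cls: classes of order dividing `p` and integral solutions

PROOF of `cls`.  For a class `c` with `c ^ p = 1`, `c ≠ 1` we show: there are an ideal
`I : (Ideal (𝓞 K))⁰` and `a : 𝓞 K` and `t, y : ℤ` with `mk0 I = c`, `I ^ p = span {a}`,
`2 a = t + y √D i` and `SolP p (aD K) (absNorm I) t y`.  Take `I` from `cmin`.
`mk0 (I ^ p) = c ^ p = 1`, so `I ^ p` is principal (`ClassGroup.mk0_eq_one_iff`), `= span {a}`.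
`coord` gives `t, y`.  `absNorm I ≥ 2`: it is not `0` (`I ≠ ⊥`) and not `1` (`I = ⊤` would give
`c = 1`).  `keyP` gives the equation, `y ≠ 0` and the condition on primes.  If `y < 0` replace
`(a, t, y)` by `(-a, -t, -y)` (`Ideal.span_singleton_neg`); so `y ≥ 1` (do this before
applying `keyP`, or apply `keyP` twice).
Choose these data for every such `c` (`Classical.choice`) and put `f c = (absNorm I, t, y)`
(arbitrary for the other `c`).  Injectivity: if `f c = f c'` then `2 a = 2 a'`, so `a = a'`,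
`I ^ p = I' ^ p`, `I = I'` (`powEq`), `c = mk0 I = mk0 I' = c'`.
-/

set_option autoImplicit false

namespace Pool.Agent.FTA

open NumberField

private theorem exists_data (p : ℕ) (hp : Odd p) (K : IntermediateField ℚ ℂ) [NumberField K]
    (h2 : Module.finrank ℚ K = 2) (him : ∃ x : K, (x : ℂ).im ≠ 0) (c : ClassGroup (𝓞 K))
    (hc : c ^ p = 1) (hc1 : c ≠ 1) :
    ∃ x : (nonZeroDivisors (Ideal (𝓞 K))) × 𝓞 K × ℤ × ℤ, ClassGroup.mk0 x.1 = c ∧
      (x.1 : Ideal (𝓞 K)) ^ p = Ideal.span {x.2.1} ∧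
      2 * ((x.2.1 : K) : ℂ) = (x.2.2.1 : ℂ) + (x.2.2.2 : ℂ) * ((√(aD K : ℝ) : ℝ) : ℂ) * Complex.I ∧
      SolP p (aD K) (Ideal.absNorm (x.1 : Ideal (𝓞 K))) x.2.2.1 x.2.2.2 := by
  obtain ⟨I, hI, hN, hn⟩ := cmin K h2 c
  have h1 : ClassGroup.mk0 (I ^ p) = 1 := by rw [map_pow, hI, hc]
  rw [ClassGroup.mk0_eq_one_iff] at h1
  obtain ⟨a, ha⟩ := h1.principal
  have ha' : (I : Ideal (𝓞 K)) ^ p = Ideal.span {a} := by
    rw [← Ideal.submodule_span_eq, ← ha]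
    rfl
  have hne0 : Ideal.absNorm (I : Ideal (𝓞 K)) ≠ 0 := by
    rw [Ne, Ideal.absNorm_eq_zero_iff]
    exact nonZeroDivisors.coe_ne_zero I
  have hne1 : Ideal.absNorm (I : Ideal (𝓞 K)) ≠ 1 := by
    rw [Ne, Ideal.absNorm_eq_one_iff]
    intro h
    apply hc1
    rw [← hI, ClassGroup.mk0_eq_one_iff, h]
    exact top_isPrincipal
  have hN2 : 2 ≤ Ideal.absNorm (I : Ideal (𝓞 K)) := by omega
  have main : ∀ (a : 𝓞 K) (t y : ℤ), (I : Ideal (𝓞 K)) ^ p = Ideal.span {a} →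
      2 * ((a : K) : ℂ) = (t : ℂ) + (y : ℂ) * ((√(aD K : ℝ) : ℝ) : ℂ) * Complex.I → 0 < y →
      SolP p (aD K) (Ideal.absNorm (I : Ideal (𝓞 K))) t y := by
    intro a t y ha h hy
    obtain ⟨k1, -, k3⟩ := keyP p hp K h2 him I hN2 hn a ha t y h
    exact ⟨hN2, hN, hy, k1, k3⟩
  obtain ⟨t, y, hty⟩ := coord K h2 him a
  obtain ⟨-, hy0, -⟩ := keyP p hp K h2 him I hN2 hn a ha' t y hty
  rcases lt_or_gt_of_ne hy0 with hy | hy
  · have ha2 : (I : Ideal (𝓞 K)) ^ p = Ideal.span {-a} := by rw [Ideal.span_singleton_neg, ha']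
    have hty2 : 2 * (((-a : 𝓞 K) : K) : ℂ) =
        ((-t : ℤ) : ℂ) + ((-y : ℤ) : ℂ) * ((√(aD K : ℝ) : ℝ) : ℂ) * Complex.I := by
      have e1 : (((-a : 𝓞 K) : K) : ℂ) = - ((a : K) : ℂ) := by simp
      rw [e1, mul_neg, hty]
      push_cast
      ring
    exact ⟨(I, -a, -t, -y), hI, ha2, hty2, main _ _ _ ha2 hty2 (by
      show 0 < -y
      omega)⟩
  · exact ⟨(I, a, t, y), hI, ha', hty, main _ _ _ ha' hty hy⟩

theorem cls (p : ℕ) (hp : Odd p) (K : IntermediateField ℚ ℂ) [NumberField K]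
    (h2 : Module.finrank ℚ K = 2) (him : ∃ x : K, (x : ℂ).im ≠ 0) :
    ∃ f : ClassGroup (𝓞 K) → ℕ × ℤ × ℤ,
      (∀ c : ClassGroup (𝓞 K), c ^ p = 1 → c ≠ 1 →
        SolP p (aD K) (f c).1 (f c).2.1 (f c).2.2) ∧
      Set.InjOn f {c | c ^ p = 1 ∧ c ≠ 1} := by
  classical
  have h0 := exists_data p hp K h2 him
  choose! G hG using h0
  refine ⟨fun c => (Ideal.absNorm ((G c).1 : Ideal (𝓞 K)), (G c).2.2.1, (G c).2.2.2), ?_, ?_⟩
  · intro c hc hc1
    exact (hG c hc hc1).2.2.2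
  · rintro c ⟨hc, hc1⟩ c' ⟨hc', hc1'⟩ h
    simp only [Prod.mk.injEq] at h
    obtain ⟨-, ht, hy⟩ := h
    obtain ⟨k1, k2, k3, -⟩ := hG c hc hc1
    obtain ⟨l1, l2, l3, -⟩ := hG c' hc' hc1'
    rw [← ht, ← hy, ← k3] at l3
    have h4 : (((G c').2.1 : K) : ℂ) = (((G c).2.1 : K) : ℂ) := mul_left_cancel₀ two_ne_zero l3
    have h5 : (G c').2.1 = (G c).2.1 := by
      apply RingOfIntegers.ext
      exact Subtype.ext h4
    rw [h5, ← k2] at l2
    have hp0 : p ≠ 0 := by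
      rintro rfl
      exact absurd hp (by decide)
    have h6 := powEq (𝓞 K) _ _ p hp0 l2
    rw [← k1, ← l1]
    congr 1
    exact Subtype.ext h6.symm


end Pool.Agent.FTA
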