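import Pool.Agent.FTA.Uniq
import Pool.Agent.FTA.Cls

/-!
# FTA/Fam: the sum over the fields

PROOF of `famFin`.  `K ↦ aD K` is injective on `IQ X` (`uniq`) with values in `Iic X`
(`Set.Finite.of_injOn` or `Set.Finite.of_finite_image`); and
PROOF of `famCard`: the values are in `Icc 1 X` (`aD_pos`), so `ncard ≤ X`.

PROOF of `famSum`.  For every `K ∈ IQ X` the class group is finite (`Fintype`/`Finite` instance of
`ClassGroup (𝓞 K)` for a number field), take `f_K` from `cls`.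
`Nat.card {c // c ^ p = 1} ≤ 1 + card {c // c ^ p = 1 ∧ c ≠ 1}` and the set
`A_K = {(aD K, N, t, y) : (N, t, y) = f_K c, c ^ p = 1, c ≠ 1}` has exactly
`card {c // c ^ p = 1 ∧ c ≠ 1}` elements.  The `A_K` are disjoint for different `K ∈ IQ X` (first
coordinate, `uniq`).  Let `S` be their union over `IQ X` (a finite set, as a `Finset`): its
elements satisfy `SolP p` and `q.1 ≤ X`, so `card S ≤ B`.  So the sum over `K` is at most
`ncard (IQ X) + card S ≤ X + B`.
(`finsum_mem_eq_finite_toFinset_sum` turns the finsum into a sum over `(famFin X).toFinset`.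
Inside, the `NumberField` instance for `K ∈ IQ X` is obtained from the membership.)
-/

set_option autoImplicit false

namespace Pool.Agent.FTA

open NumberField

private theorem Fam_inj (X : ℕ) : Set.InjOn aD (IQ X) := by
  rintro K ⟨hK, h2, him, _⟩ K' ⟨hK', h2', him', _⟩ h
  exact uniq K K' h2 him h2' him' h

private theorem Fam_maps (X : ℕ) : ∀ K ∈ IQ X, aD K ∈ (Finset.Icc 1 X : Finset ℕ) := by
  rintro K ⟨hK, h2, him, hX⟩
  rw [Finset.mem_Icc]
  exact ⟨aD_pos K, hX⟩

theorem famFin (X : ℕ) : (IQ X).Finite := by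
  apply Set.Finite.of_injOn (t := ((Finset.Icc 1 X : Finset ℕ) : Set ℕ)) (f := aD)
  · intro K hK
    exact Fam_maps X K hK
  · exact Fam_inj X
  · exact Finset.finite_toSet _

theorem famCard (X : ℕ) : (IQ X).ncard ≤ X := by
  have h := Set.ncard_le_ncard_of_injOn (s := IQ X)
    (t := ((Finset.Icc 1 X : Finset ℕ) : Set ℕ)) aD (fun K hK => Fam_maps X K hK)
    (Fam_inj X) (Finset.finite_toSet _)
  rw [Set.ncard_coe_finset, Nat.card_Icc] at h
  omega

private theorem Fam_local (p : ℕ) (hp : Odd p) (X : ℕ) (K : IntermediateField ℚ ℂ)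
    (hK : K ∈ IQ X) : ∃ A : Finset (ℕ × ℕ × ℤ × ℤ),
      (∀ q ∈ A, q.1 = aD K ∧ SolP p q.1 q.2.1 q.2.2.1 q.2.2.2) ∧
      Nat.card {c : ClassGroup (𝓞 K) // c ^ p = 1} ≤ 1 + A.card := by
  classical
  obtain ⟨hN, h2, him, hX⟩ := hK
  obtain ⟨f, hf1, hf2⟩ := cls p hp K h2 him
  let T : Finset (ClassGroup (𝓞 K)) := Finset.univ.filter (fun c => c ^ p = 1 ∧ c ≠ 1)
  refine ⟨T.image (fun c => (aD K, f c)), ?_, ?_⟩
  · intro q hq
    obtain ⟨c, hc, rfl⟩ := Finset.mem_image.1 hq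
    have hc2 := (Finset.mem_filter.1 hc).2
    exact ⟨rfl, hf1 c hc2.1 hc2.2⟩
  · have h3 : (T.image (fun c => (aD K, f c))).card = T.card := by
      apply Finset.card_image_of_injOn
      intro c hc c' hc' h
      have h4 : f c = f c' := (Prod.ext_iff.1 h).2
      exact hf2 (Finset.mem_filter.1 hc).2 (Finset.mem_filter.1 hc').2 h4
    rw [h3]
    have h5 : Nat.card {c : ClassGroup (𝓞 K) // c ^ p = 1} =
        (Finset.univ.filter (fun c : ClassGroup (𝓞 K) => c ^ p = 1)).card := by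
      rw [Nat.card_eq_fintype_card, Fintype.card_subtype]
    rw [h5]
    have h6 : Finset.univ.filter (fun c : ClassGroup (𝓞 K) => c ^ p = 1) ⊆ insert 1 T := by
      intro c hc
      rw [Finset.mem_insert]
      by_cases h : c = 1
      · exact Or.inl h
      · exact Or.inr (Finset.mem_filter.2 ⟨Finset.mem_univ c, (Finset.mem_filter.1 hc).2, h⟩)
    have h7 := (Finset.card_le_card h6).trans (Finset.card_insert_le 1 T)
    omega

theorem famSum (p : ℕ) (hp : Odd p) (X : ℕ) (B : ℝ)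
    (hB : ∀ S : Finset (ℕ × ℕ × ℤ × ℤ),
      (∀ q ∈ S, SolP p q.1 q.2.1 q.2.2.1 q.2.2.2 ∧ q.1 ≤ X) → (S.card : ℝ) ≤ B) :
    ∑ᶠ K ∈ IQ X, (Nat.card {c : ClassGroup (𝓞 K) // c ^ p = 1} : ℝ) ≤ X + B := by
  classical
  rw [finsum_mem_eq_finite_toFinset_sum _ (famFin X)]
  have hloc : ∀ K : IntermediateField ℚ ℂ, ∃ A : Finset (ℕ × ℕ × ℤ × ℤ), K ∈ IQ X →
      (∀ q ∈ A, q.1 = aD K ∧ SolP p q.1 q.2.1 q.2.2.1 q.2.2.2) ∧
      Nat.card {c : ClassGroup (𝓞 K) // c ^ p = 1} ≤ 1 + A.card := by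
    intro K
    by_cases hK : K ∈ IQ X
    · obtain ⟨A, hA⟩ := Fam_local p hp X K hK
      exact ⟨A, fun _ => hA⟩
    · exact ⟨∅, fun h => absurd h hK⟩
  choose A hA using hloc
  have hmem : ∀ K, K ∈ (famFin X).toFinset ↔ K ∈ IQ X := fun K => Set.Finite.mem_toFinset _
  have h1 : ∑ K ∈ (famFin X).toFinset, (Nat.card {c : ClassGroup (𝓞 K) // c ^ p = 1} : ℝ) ≤
      ∑ K ∈ (famFin X).toFinset, (1 + ((A K).card : ℝ)) := by
    apply Finset.sum_le_sum
    intro K hK
    have h2 := (hA K ((hmem K).1 hK)).2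
    exact_mod_cast h2
  refine h1.trans ?_
  rw [Finset.sum_add_distrib, Finset.sum_const, nsmul_eq_mul, mul_one]
  have h3 : ((famFin X).toFinset.card : ℝ) ≤ X := by
    have h4 := famCard X
    rw [Set.ncard_eq_toFinset_card _ (famFin X)] at h4
    exact_mod_cast h4
  have h5 : (((famFin X).toFinset.biUnion A).card : ℝ) = ∑ K ∈ (famFin X).toFinset,
      ((A K).card : ℝ) := by
    rw [Finset.card_biUnion]
    · push_cast
      rfl
    · intro K hK K' hK' hne
      apply Finset.disjoint_left.2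
      intro q hq hq'
      apply hne
      have i1 := (hmem K).1 (Finset.mem_coe.1 hK)
      have i2 := (hmem K').1 (Finset.mem_coe.1 hK')
      have e1 := ((hA K i1).1 q hq).1
      have e2 := ((hA K' i2).1 q hq').1
      exact Fam_inj X i1 i2 (e1.symm.trans e2)
  have h6 := hB ((famFin X).toFinset.biUnion A) (by
    intro q hq
    obtain ⟨K, hK, hqK⟩ := Finset.mem_biUnion.1 hq
    have h7 := (hA K ((hmem K).1 hK)).1 q hqK
    refine ⟨h7.2, ?_⟩
    rw [h7.1]
    exact (Finset.mem_Icc.1 (Fam_maps X K ((hmem K).1 hK))).2)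
  rw [h5] at h6
  linarith

end Pool.Agent.FTA
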