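import Pool.Agent.FTA.DefsC

/-!
# FTA/Uniq: an imaginary quadratic field is determined by its discriminant

PROOF of `uniq`.  Let `b` be a basis (`exists_basis`) and `z = (b 0) conj (b 1) - conj (b 0) (b 1) =
2 i om` in `ℂ`.  `z ∈ K` since `conj x = Tr x - x ∈ K` for `x ∈ K` (`trace_eq`).  By `sqrt_aD`,
`z = ± i √D`, `D = aD K`.  So `s := i √D ∈ K`, and `s ∉ ℚ` (its imaginary part is not `0`,
`aD_pos`).  `ℚ⟮s⟯ ≤ K`, and `[K : ℚ] = 2`, `[ℚ⟮s⟯ : ℚ] = 2` (`s ^ 2 = -D`, `s ∉ ℚ`; or: the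
degree divides 2 and is not 1 since `ℚ⟮s⟯ ≠ ⊥`), so `K = ℚ⟮s⟯`
(`IntermediateField.eq_of_le_of_finrank_eq`).  The same for `K'` with the same `s`.
-/

set_option autoImplicit false

namespace Pool.Agent.FTA

open NumberField

private theorem uniq_conj (K : IntermediateField ℚ ℂ) [NumberField K]
    (h2 : Module.finrank ℚ K = 2) (him : ∃ x : K, (x : ℂ).im ≠ 0) (x : K) :
    (starRingEnd ℂ) (x : ℂ) ∈ K := by
  have h := trace_eq K h2 him x
  have h1 : (starRingEnd ℂ) (x : ℂ) = algebraMap ℚ ℂ (Algebra.trace ℚ K x) - (x : ℂ) := by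
    rw [eq_ratCast, h]
    ring
  rw [h1]
  exact K.sub_mem (K.algebraMap_mem _) x.2

private theorem uniq_mem (K : IntermediateField ℚ ℂ) [NumberField K]
    (h2 : Module.finrank ℚ K = 2) (him : ∃ x : K, (x : ℂ).im ≠ 0) :
    ((√(aD K : ℝ) : ℝ) : ℂ) * Complex.I ∈ K := by
  obtain ⟨b⟩ := exists_basis K h2
  set u : K := ((b 0 : 𝓞 K) : K) with hu
  set v : K := ((b 1 : 𝓞 K) : K) with hv
  have h1 : (u : ℂ) * (starRingEnd ℂ) (v : ℂ) - (starRingEnd ℂ) (u : ℂ) * (v : ℂ) ∈ K :=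
    K.sub_mem (K.mul_mem u.2 (uniq_conj K h2 him v)) (K.mul_mem (uniq_conj K h2 him u) v.2)
  have h3 : (u : ℂ) * (starRingEnd ℂ) (v : ℂ) - (starRingEnd ℂ) (u : ℂ) * (v : ℂ) =
      ((2 * om K b : ℝ) : ℂ) * Complex.I := by
    unfold om
    rw [← hu, ← hv]
    apply Complex.ext
    · simp
    · simp
      ring
  rw [h3] at h1
  rw [sqrt_aD K h2 him b]
  rcases abs_cases (om K b) with ⟨h4, -⟩ | ⟨h4, -⟩
  · rw [h4]
    exact h1
  · rw [h4]
    have h5 := K.neg_mem h1
    have h6 : ((2 * -om K b : ℝ) : ℂ) * Complex.I = -(((2 * om K b : ℝ) : ℂ) * Complex.I) := by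
      push_cast
      ring
    rw [h6]
    exact h5

private theorem uniq_adjoin (K : IntermediateField ℚ ℂ) [NumberField K]
    (h2 : Module.finrank ℚ K = 2) (him : ∃ x : K, (x : ℂ).im ≠ 0) :
    IntermediateField.adjoin ℚ {((√(aD K : ℝ) : ℝ) : ℂ) * Complex.I} = K := by
  set s : ℂ := ((√(aD K : ℝ) : ℝ) : ℂ) * Complex.I with hs
  have hle : IntermediateField.adjoin ℚ {s} ≤ K :=
    IntermediateField.adjoin_simple_le_iff.2 (uniq_mem K h2 him)
  apply IntermediateField.eq_of_le_of_finrank_le hle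
  rw [h2]
  have h3 : Module.finrank ℚ (IntermediateField.adjoin ℚ {s}) ≠ 1 := by
    intro h4
    rw [IntermediateField.finrank_eq_one_iff] at h4
    have h5 : s ∈ (⊥ : IntermediateField ℚ ℂ) := by
      rw [← h4]
      exact IntermediateField.mem_adjoin_simple_self ℚ s
    rw [IntermediateField.mem_bot] at h5
    obtain ⟨q, hq⟩ := h5
    have h6 := congrArg Complex.im hq
    rw [eq_ratCast, hs, Complex.ratCast_im, Complex.mul_I_im, Complex.ofReal_re] at h6
    have h7 : (0 : ℝ) < √(aD K : ℝ) := Real.sqrt_pos.2 (by exact_mod_cast aD_pos K)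
    linarith
  have h4 : 0 < Module.finrank ℚ (IntermediateField.adjoin ℚ {s}) := by
    have hfd : FiniteDimensional ℚ (IntermediateField.adjoin ℚ {s}) := by
      apply IntermediateField.adjoin.finiteDimensional
      have h5 : IsIntegral ℚ (⟨s, uniq_mem K h2 him⟩ : K) := Algebra.IsIntegral.isIntegral _
      exact h5.map K.val
    exact Module.finrank_pos
  omega

theorem uniq (K K' : IntermediateField ℚ ℂ) [NumberField K] [NumberField K']
    (h2 : Module.finrank ℚ K = 2) (him : ∃ x : K, (x : ℂ).im ≠ 0)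
    (h2' : Module.finrank ℚ K' = 2) (him' : ∃ x : K', (x : ℂ).im ≠ 0)
    (h : aD K = aD K') : K = K' := by
  rw [← uniq_adjoin K h2 him, ← uniq_adjoin K' h2' him', h]

end Pool.Agent.FTA
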