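import Mathlib

/-!
# FTA/Alg: the algebraic identities

PROOF of `alg`.  Write `r ^ 2 - N = w ^ 2 s`, `t - 2 N ^ 2 r = w ^ 2 x`, `u - r c = w f`
(`w = w1`), and `A = f ^ 2 - s c ^ 2`.  Take
`v = f (u + r c) + c ^ 2 w s = 2 f u - w A`, `k = x u c - N ^ 2 A`,
`e = x c ^ 3 + N (4 f ^ 2 u - A u - 2 w f A)` and
`c ^ 3`-cofactor `x u ^ 3 + N ^ 2 (f ^ 2 r (3 u - w f) + 2 f (2 u - w f) w s c + w ^ 2 s ^ 2 c ^ 3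
+ s c u ^ 2)`.  All are polynomial identities after eliminating `N = r ^ 2 - w ^ 2 s`,
`t = 2 N ^ 2 r + w ^ 2 x`, `u = r c + w f`.
-/

set_option autoImplicit false

namespace Pool.Agent.FTA

theorem alg (N t r u c w1 : ℤ) (h1 : w1 ^ 2 ∣ r ^ 2 - N) (h2 : w1 ^ 2 ∣ t - 2 * N ^ 2 * r)
    (h3 : w1 ∣ u - r * c) :
    ∃ v k e : ℤ, v * w1 = u ^ 2 - c ^ 2 * N ∧
      k * w1 ^ 2 = t * u * c - N ^ 2 * (u ^ 2 + N * c ^ 2) ∧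
      e * u = k * c ^ 2 + v ^ 2 * N ∧
      c ^ 3 ∣ e * u ^ 3 - v ^ 2 * N * (u ^ 2 - c ^ 2 * N) := by
  obtain ⟨s, hs⟩ := h1
  obtain ⟨x, hx⟩ := h2
  obtain ⟨f, hf⟩ := h3
  have hN : N = r ^ 2 - w1 ^ 2 * s := by linarith
  have ht : t = 2 * N ^ 2 * r + w1 ^ 2 * x := by linarith
  have hu : u = r * c + w1 * f := by linarith
  refine ⟨f * (u + r * c) + c ^ 2 * w1 * s, x * u * c - N ^ 2 * (f ^ 2 - s * c ^ 2),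
    x * c ^ 3 + N * (4 * f ^ 2 * u - (f ^ 2 - s * c ^ 2) * u - 2 * w1 * f * (f ^ 2 - s * c ^ 2)),
    ?_, ?_, ?_,
    ⟨x * u ^ 3 + N ^ 2 * (f ^ 2 * r * (3 * u - w1 * f) + 2 * f * (2 * u - w1 * f) * w1 * s * c +
      w1 ^ 2 * s ^ 2 * c ^ 3 + s * c * u ^ 2), ?_⟩⟩
  · rw [hu, hN]
    ring
  · rw [ht, hu, hN]
    ring
  · rw [hu, hN]
    ring
  · rw [hu, hN]
    ring

end Pool.Agent.FTA
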