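import Pool.Agent.FTA.DefsC

/-!
# FTA/CMin: an ideal of minimal norm in its class

PROOF of `cmin`.  Minkowski: `NumberField.exists_ideal_in_class_of_norm_le C` gives an integral
ideal `I₀` in the class `C` with `absNorm I₀ ≤ (4 / π) ^ r₂ * (n! / n ^ n) * √|d|`, `n = 2`
(`finrank`), `r₂ ≤ 1` by `NumberField.InfinitePlace.card_add_two_mul_card_eq_rank`; so the bound is
`≤ (4 / π) (1 / 2) √|d| ≤ √|d|` or `(1 / 2) √|d|`; hence `(absNorm I₀) ^ 2 ≤ |d| = aD K`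
(`aD_eq`).  Among all `I : (Ideal (𝓞 K))⁰` with `ClassGroup.mk0 I = C` take one of minimal
`absNorm` (`Nat.find` or `WellFounded.min`); its norm is `≤` that of `I₀`.
If `I ≤ span {n}`, `n ≥ 2`, then `span {n} ∣ I` (`Ideal.dvd_iff_le`), `I = span {n} * J`, `J ≠ 0`,
`ClassGroup.mk0 J = C` (`span {n}` is principal, `ClassGroup.mk0_eq_one_iff` and
`map_mul`), and `absNorm I = absNorm (span {n}) * absNorm J`, `absNorm (span {n}) = n ^ 2 ≥ 4`
(or simply `≥ 2`: it is `≠ 0` and `≠ 1` because `(n : 𝓞 K)` is neither `0` nor a unit;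
`Ideal.absNorm_span_singleton`, norm of a natural number is `n ^ 2`), `absNorm J ≥ 1`: so
`absNorm J < absNorm I`, contradiction.
-/

set_option autoImplicit false

namespace Pool.Agent.FTA

open NumberField nonZeroDivisors

private theorem CMin_bound (K : IntermediateField ℚ ℂ) [NumberField K]
    (h2 : Module.finrank ℚ K = 2) :
    (4 / Real.pi) ^ InfinitePlace.nrComplexPlaces K * (((Module.finrank ℚ K).factorial : ℝ) /
      (Module.finrank ℚ K : ℝ) ^ (Module.finrank ℚ K) * √|(discr K : ℝ)|) ≤ √|(discr K : ℝ)| := by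
  have hr : InfinitePlace.nrComplexPlaces K ≤ 1 := by
    have := InfinitePlace.card_add_two_mul_card_eq_rank K
    omega
  have hpi := Real.pi_gt_three
  have h43 : 1 ≤ 4 / Real.pi := by
    rw [le_div_iff₀ Real.pi_pos]
    linarith [Real.pi_lt_four]
  have h1 : (4 / Real.pi) ^ InfinitePlace.nrComplexPlaces K ≤ 4 / Real.pi := by
    calc (4 / Real.pi) ^ InfinitePlace.nrComplexPlaces K ≤ (4 / Real.pi) ^ 1 :=
          pow_le_pow_right₀ h43 hr
      _ = 4 / Real.pi := pow_one _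
  have h3 : 4 / Real.pi ≤ 2 := by
    rw [div_le_iff₀ Real.pi_pos]
    linarith
  rw [h2]
  have h4 : ((2 : ℕ).factorial : ℝ) / ((2 : ℕ) : ℝ) ^ 2 = 1 / 2 := by
    norm_num [Nat.factorial]
  rw [h4]
  have h5 : 0 ≤ √|(discr K : ℝ)| := Real.sqrt_nonneg _
  nlinarith

theorem cmin (K : IntermediateField ℚ ℂ) [NumberField K] (h2 : Module.finrank ℚ K = 2)
    (C : ClassGroup (𝓞 K)) :
    ∃ I : (Ideal (𝓞 K))⁰, ClassGroup.mk0 I = C ∧
      (Ideal.absNorm (I : Ideal (𝓞 K))) ^ 2 ≤ aD K ∧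
      ∀ n : ℕ, 2 ≤ n → ¬ ((I : Ideal (𝓞 K)) ≤ Ideal.span {(n : 𝓞 K)}) := by
  classical
  obtain ⟨I0, hI0, hn0⟩ := exists_ideal_in_class_of_norm_le C
  have hex : ∃ m : ℕ, ∃ I : (Ideal (𝓞 K))⁰, ClassGroup.mk0 I = C ∧
      Ideal.absNorm (I : Ideal (𝓞 K)) = m := ⟨_, I0, hI0, rfl⟩
  obtain ⟨I, hI, hIn⟩ := Nat.find_spec hex
  have hmin : ∀ J : (Ideal (𝓞 K))⁰, ClassGroup.mk0 J = C →
      Ideal.absNorm (I : Ideal (𝓞 K)) ≤ Ideal.absNorm (J : Ideal (𝓞 K)) := by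
    intro J hJ
    rw [hIn]
    exact Nat.find_min' hex ⟨J, hJ, rfl⟩
  refine ⟨I, hI, ?_, ?_⟩
  · have h3 : (Ideal.absNorm (I : Ideal (𝓞 K)) : ℝ) ≤ √|(discr K : ℝ)| := by
      have h4 : (Ideal.absNorm (I : Ideal (𝓞 K)) : ℝ) ≤ Ideal.absNorm (I0 : Ideal (𝓞 K)) := by
        exact_mod_cast hmin I0 hI0
      exact h4.trans (le_trans hn0 (by exact_mod_cast CMin_bound K h2))
    have h5 : ((Ideal.absNorm (I : Ideal (𝓞 K)) : ℝ)) ^ 2 ≤ |(discr K : ℝ)| := by
      have h6 := pow_le_pow_left₀ (Nat.cast_nonneg _) h3 2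
      rwa [Real.sq_sqrt (abs_nonneg _)] at h6
    rw [aD_eq]
    have h7 : (((discr K).natAbs : ℕ) : ℝ) = |(discr K : ℝ)| := by
      rw [Nat.cast_natAbs, Int.cast_abs]
    rw [← h7] at h5
    exact_mod_cast h5
  · intro n hn hle
    obtain ⟨J, hJ⟩ := Ideal.dvd_iff_le.2 hle
    have hn0' : (n : 𝓞 K) ≠ 0 := by
      have : n ≠ 0 := by omega
      exact_mod_cast this
    have hS0 : Ideal.span {(n : 𝓞 K)} ≠ 0 := by
      rw [Ne, Ideal.zero_eq_bot, Ideal.span_singleton_eq_bot]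
      exact hn0'
    have hI00 : (I : Ideal (𝓞 K)) ≠ 0 := nonZeroDivisors.coe_ne_zero I
    have hJ0 : J ≠ 0 := by
      rintro rfl
      rw [mul_zero] at hJ
      exact hI00 hJ
    let S' : (Ideal (𝓞 K))⁰ := ⟨Ideal.span {(n : 𝓞 K)}, mem_nonZeroDivisors_iff_ne_zero.2 hS0⟩
    let J' : (Ideal (𝓞 K))⁰ := ⟨J, mem_nonZeroDivisors_iff_ne_zero.2 hJ0⟩
    have hIS : I = S' * J' := Subtype.ext hJ
    have hS1 : ClassGroup.mk0 S' = 1 := by
      rw [ClassGroup.mk0_eq_one_iff]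
      exact ⟨(n : 𝓞 K), rfl⟩
    have hJC : ClassGroup.mk0 J' = C := by
      rw [← hI, hIS, map_mul, hS1, one_mul]
    have h3 := hmin J' hJC
    have h4 : Ideal.absNorm (I : Ideal (𝓞 K)) =
        Ideal.absNorm (Ideal.span {(n : 𝓞 K)}) * Ideal.absNorm J := by
      rw [hJ, map_mul]
    have h5 : Ideal.absNorm J ≠ 0 := by
      rw [Ne, Ideal.absNorm_eq_zero_iff]
      exact hJ0
    have h6 : Ideal.absNorm (Ideal.span {(n : 𝓞 K)}) = n ^ 2 := by
      rw [Ideal.absNorm_span_singleton]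
      have h7 : Algebra.norm ℤ (n : 𝓞 K) = (n : ℤ) ^ 2 := by
        have h8 := Algebra.norm_algebraMap_of_basis (RingOfIntegers.basis K) (n : ℤ)
        rw [← Module.finrank_eq_card_basis (RingOfIntegers.basis K), RingOfIntegers.rank, h2] at h8
        simpa using h8
      rw [h7]
      simp [Int.natAbs_pow]
    have h9 : Ideal.absNorm (J' : Ideal (𝓞 K)) = Ideal.absNorm J := rfl
    rw [h4, h6, h9] at h3
    have h10 : 4 ≤ n ^ 2 := by nlinarith
    have h11 : 0 < Ideal.absNorm J := Nat.pos_of_ne_zero h5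
    nlinarith

end Pool.Agent.FTA
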