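import Mathlib

/-!
# FTA: the average of the 5-torsion of class groups of imaginary quadratic fields

Goal: `∑ |Cl(K)[5]| ≪ X ^ (9/8 + ε)`, the sum over imaginary quadratic `K` with `|D_K| ≤ X`
(known: `X ^ (5/4 + ε)`, Soundararajan, Heath-Brown and Pierce).

Plan.  A class of order 5 gives (module `Cls`) an integral solution of `t ^ 2 + D y ^ 2 = 4 N ^ 5`
with `N ^ 2 ≤ D`.  Let `w` be the odd part of `y / gcd (t, y)`.  If `w ^ 4 < M ^ 5` (`N ~ M`) the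
solutions are counted trivially (module `Small`).  If `w ^ 4 ≥ M ^ 5` let `r ^ 2 = N mod w ^ 2`,
`t = 2 N ^ 2 r mod w ^ 2`; a short vector `(u, c)` of the lattice `u = r c mod w` gives a tuple
`(g, c, u, v, e)` (module `Tup`), and for fixed `(c, u, v)` every difference of two values of `N`
is attained only few times (module `Pair`).

Parameters: `m` is a real number with `m ^ 4 = M` (so `M ^ (9/4) = m ^ 9`) and `P` a positive real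
with `P ^ 2 * m ^ 2 = Y`.
-/

set_option autoImplicit false

namespace Pool.Agent.FTA

/-- integral solutions attached to the classes of order 5 of the imaginary quadratic field of
discriminant `-D` -/
def Sol (D N : ℕ) (t y : ℤ) : Prop :=
  2 ≤ N ∧ N ^ 2 ≤ D ∧ 1 ≤ y ∧ t ^ 2 + (D : ℤ) * y ^ 2 = 4 * (N : ℤ) ^ 5 ∧
    ∀ l : ℕ, l.Prime → l ≠ 2 → (l : ℤ) ∣ y / (Int.gcd t y : ℤ) → ¬ l ∣ N

/-- the primitive part of `y` -/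
def y1 (t y : ℤ) : ℕ := (y / (Int.gcd t y : ℤ)).natAbs

/-- the odd part of a natural number -/
def oddPart (n : ℕ) : ℕ := n / 2 ^ (n.factorization 2)

/-- the triples `(N, w, t)` of the large part, in the box `M ≤ N < 2 M`, `Y ≤ w < 2 Y` -/
def IsA (M Y N w : ℕ) (t : ℤ) : Prop :=
  M ≤ N ∧ N < 2 * M ∧ Y ≤ w ∧ w < 2 * Y ∧ Odd w ∧ Nat.Coprime w N ∧
    ((w : ℤ) ^ 2 ∣ 4 * (N : ℤ) ^ 5 - t ^ 2) ∧ t ^ 2 ≤ 4 * (N : ℤ) ^ 5 ∧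
    w ^ 2 ≤ 4 * N ^ 3 ∧ M ^ 5 ≤ w ^ 4

/-- the pairs `(N, e)` for fixed `(c, u, v)`; `K` bounds `|k|` where `e u = k c ^ 2 + v ^ 2 N` -/
def IsF (M c : ℕ) (u v : ℤ) (K : ℝ) (N : ℕ) (e : ℤ) : Prop :=
  M ≤ N ∧ N < 2 * M ∧ v ∣ u ^ 2 - (c : ℤ) ^ 2 * N ∧
    |((e * u - v ^ 2 * N : ℤ) : ℝ)| ≤ K * (c : ℝ) ^ 2 ∧
    (c : ℤ) ^ 3 ∣ e * u ^ 3 - v ^ 2 * N * (u ^ 2 - (c : ℤ) ^ 2 * N)

/-- the conditions on the tuple `(g, c, u, v, e)` attached to `(N, w, t)` -/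
def TupP (m P : ℝ) (N w : ℕ) (t : ℤ) (g c : ℕ) (u v e : ℤ) : Prop :=
  1 ≤ g ∧ 1 ≤ c ∧ u ≠ 0 ∧ v ≠ 0 ∧ IsCoprime u (c : ℤ) ∧ IsCoprime v (c : ℤ) ∧
    (g : ℝ) * c ≤ P ∧ (g : ℝ) * |(u : ℝ)| ≤ 2 * P * m ^ 2 ∧ (g : ℝ) * |(v : ℝ)| ≤ 2 * m ^ 2 ∧
    v ∣ u ^ 2 - (c : ℤ) ^ 2 * N ∧
    |((e * u - v ^ 2 * N : ℤ) : ℝ)| ≤ (24 * m ^ 8 / P ^ 2) * (c : ℝ) ^ 2 ∧
    (c : ℤ) ^ 3 ∣ e * u ^ 3 - v ^ 2 * N * (u ^ 2 - (c : ℤ) ^ 2 * N) ∧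
    (g : ℤ) * (u ^ 2 - (c : ℤ) ^ 2 * N) = v * w ∧
    (e * u - v ^ 2 * N) * (w : ℤ) ^ 2 =
      (g : ℤ) ^ 2 * (c : ℤ) ^ 2 * (t * u * c - (N : ℤ) ^ 2 * (u ^ 2 + N * (c : ℤ) ^ 2))

end Pool.Agent.FTA
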