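import Pool.Agent.FTA.Defs
import Pool.Agent.FTA.Lat

/-!
# FTA/DefsC: definitions for the part on class groups
-/

set_option autoImplicit false

namespace Pool.Agent.FTA

open NumberField

/-- integral solutions attached to the classes `c ≠ 1`, `c ^ p = 1`, of the imaginary quadratic
field of discriminant `-D` -/
def SolP (p D N : ℕ) (t y : ℤ) : Prop :=
  2 ≤ N ∧ N ^ 2 ≤ D ∧ 1 ≤ y ∧ t ^ 2 + (D : ℤ) * y ^ 2 = 4 * (N : ℤ) ^ p ∧
    ∀ l : ℕ, l.Prime → l ≠ 2 → (l : ℤ) ∣ y / (Int.gcd t y : ℤ) → ¬ l ∣ N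

theorem sol_iff (D N : ℕ) (t y : ℤ) : Sol D N t y ↔ SolP 5 D N t y := Iff.rfl

/-- the imaginary quadratic subfields of the complex numbers with `|D_K| ≤ X` -/
def IQ (X : ℕ) : Set (IntermediateField ℚ ℂ) :=
  {K | ∃ _ : NumberField K, Module.finrank ℚ K = 2 ∧ (∃ x : K, (x : ℂ).im ≠ 0) ∧ aD K ≤ X}

end Pool.Agent.FTA
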