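import Mathlib

/-! # TNX/Div: the divisor bound (copied from FareyParity/Count) -/

namespace Pool.Agent.FTA

/-- the divisor bound -/
theorem divisor_bound {ε : ℝ} (hε : 0 < ε) : ∃ c : ℝ, 0 < c ∧ ∀ m : ℕ, m ≠ 0 →
    (m.divisors.card : ℝ) ≤ c * (m : ℝ) ^ ε := by
  classical
  have hl2 : 0 < Real.log 2 := Real.log_pos (by norm_num)
  obtain ⟨E, hE⟩ : ∃ E : ℝ, E = 1 + 1 / (ε * Real.log 2) := ⟨_, rfl⟩
  have hE1 : 1 ≤ E := by
    have : 0 < 1 / (ε * Real.log 2) := by positivity
    linarith
  obtain ⟨P, hP⟩ : ∃ P : ℕ, P = ⌈(2 : ℝ) ^ (1 / ε)⌉₊ := ⟨_, rfl⟩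
  refine ⟨E ^ P, by positivity, ?_⟩
  intro m hm
  have hEv : ∀ v : ℕ, (v : ℝ) + 1 ≤ E * (2 : ℝ) ^ (ε * v) := by
    intro v
    have h1 : 1 + ε * Real.log 2 * v ≤ (2 : ℝ) ^ (ε * v) := by
      rw [Real.rpow_def_of_pos (by norm_num)]
      have := Real.add_one_le_exp (Real.log 2 * (ε * v))
      linarith
    calc (v : ℝ) + 1 ≤ E * (1 + ε * Real.log 2 * v) := by
          rw [hE]
          have h2 : (1 + 1 / (ε * Real.log 2)) * (1 + ε * Real.log 2 * v)
              = 1 + v + (ε * Real.log 2 * v + 1 / (ε * Real.log 2)) := by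
            field_simp; ring
          rw [h2]
          have : 0 ≤ ε * Real.log 2 * v + 1 / (ε * Real.log 2) := by positivity
          linarith
      _ ≤ E * (2 : ℝ) ^ (ε * v) := by gcongr
  have hprime : ∀ p ∈ m.primeFactors, ((m.factorization p : ℕ) : ℝ) + 1
      ≤ (if p < P then E else 1) * ((p : ℝ) ^ (m.factorization p)) ^ ε := by
    intro p hp
    have hpp := Nat.prime_of_mem_primeFactors hp
    have hp2 : (2 : ℝ) ≤ p := by exact_mod_cast hpp.two_le
    have e1 : ((p : ℝ) ^ (m.factorization p)) ^ ε = (p : ℝ) ^ (ε * (m.factorization p : ℕ)) := by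
      rw [← Real.rpow_natCast, ← Real.rpow_mul (by positivity)]; ring_nf
    rw [e1]
    split_ifs with hlt
    · calc ((m.factorization p : ℕ) : ℝ) + 1 ≤ E * (2 : ℝ) ^ (ε * (m.factorization p : ℕ)) :=
            hEv _
        _ ≤ E * (p : ℝ) ^ (ε * (m.factorization p : ℕ)) := by gcongr
    · push Not at hlt
      have h1 : (2 : ℝ) ^ (1 / ε) ≤ p := by
        calc (2 : ℝ) ^ (1 / ε) ≤ P := by rw [hP]; exact Nat.le_ceil _
          _ ≤ p := by exact_mod_cast hlt
      have h2 : (2 : ℝ) ≤ (p : ℝ) ^ ε := by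
        calc (2 : ℝ) = ((2 : ℝ) ^ (1 / ε)) ^ ε := by
              rw [← Real.rpow_mul (by norm_num), one_div, inv_mul_cancel₀ hε.ne', Real.rpow_one]
          _ ≤ (p : ℝ) ^ ε := by gcongr
      rw [Real.rpow_mul (by positivity), Real.rpow_natCast, one_mul]
      calc ((m.factorization p : ℕ) : ℝ) + 1 ≤ 2 ^ (m.factorization p) := by
            have : m.factorization p + 1 ≤ 2 ^ (m.factorization p) := Nat.lt_two_pow_self
            exact_mod_cast this
        _ ≤ ((p : ℝ) ^ ε) ^ (m.factorization p) := by gcongr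
  have hmprod : ((m : ℝ)) ^ ε = ∏ p ∈ m.primeFactors, ((p : ℝ) ^ (m.factorization p)) ^ ε := by
    rw [Real.finsetProd_rpow _ _ (fun p _ => by positivity)]
    congr 1
    have := Nat.prod_factorization_pow_eq_self hm
    nth_rewrite 1 [← this]
    rw [Finsupp.prod, Nat.support_factorization]
    push_cast; rfl
  rw [Nat.card_divisors hm]
  push_cast
  calc ∏ p ∈ m.primeFactors, (((m.factorization p : ℕ) : ℝ) + 1)
      ≤ ∏ p ∈ m.primeFactors, (if p < P then E else 1) * ((p : ℝ) ^ (m.factorization p)) ^ ε :=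
        Finset.prod_le_prod (fun p _ => by positivity) hprime
    _ = (∏ p ∈ m.primeFactors, (if p < P then E else 1)) * (m : ℝ) ^ ε := by
        rw [Finset.prod_mul_distrib, hmprod]
    _ ≤ E ^ P * (m : ℝ) ^ ε := by
        gcongr
        rw [Finset.prod_ite, Finset.prod_const, Finset.prod_const_one, mul_one]
        apply pow_le_pow_right₀ hE1
        calc (m.primeFactors.filter (fun p => p < P)).card ≤ (Finset.range P).card := by
              apply Finset.card_le_card
              intro p hp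
              rw [Finset.mem_filter] at hp
              exact Finset.mem_range.2 hp.2
          _ = P := Finset.card_range P

end Pool.Agent.FTA
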