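import Mathlib

/-!
# FTA/Gcd: a sum of greatest common divisors

PROOF of `gcd_sum`.  `gcd (c, 2 d) ≤ 2 gcd (c, d)` (it divides `2 gcd (c, d)`), and
`gcd (c, d) ≤ ∑_{e ∣ c, e ∣ d} e`, so `∑_{d ≤ D} gcd (c, d) ≤ ∑_{e ∣ c} e * #{d ≤ D : e ∣ d}
≤ ∑_{e ∣ c} e * (D / e) ≤ D * card (divisors c)`.
-/

set_option autoImplicit false

namespace Pool.Agent.FTA

theorem gcd_sum (c D : ℕ) (hc : 1 ≤ c) :
    ∑ d ∈ Finset.Icc 1 D, Nat.gcd c (2 * d) ≤ 2 * D * c.divisors.card := by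
  have h1 : ∀ d ∈ Finset.Icc 1 D, Nat.gcd c (2 * d) ≤
      2 * ∑ e ∈ c.divisors, (if e ∣ d then e else 0) := by
    intro d hd
    have hd1 : 1 ≤ d := (Finset.mem_Icc.1 hd).1
    have h2 : Nat.gcd c (2 * d) ∣ Nat.gcd c 2 * Nat.gcd c d := Nat.gcd_mul_right_dvd_mul_gcd c 2 d
    have h3 : Nat.gcd c 2 ≤ 2 := Nat.le_of_dvd (by norm_num) (Nat.gcd_dvd_right c 2)
    have h4 : 0 < Nat.gcd c 2 * Nat.gcd c d :=
      Nat.mul_pos (Nat.gcd_pos_of_pos_left _ hc) (Nat.gcd_pos_of_pos_left _ hc)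
    have h5 : Nat.gcd c d ≤ ∑ e ∈ c.divisors, (if e ∣ d then e else 0) := by
      have h6 : (if Nat.gcd c d ∣ d then Nat.gcd c d else 0) ≤
          ∑ e ∈ c.divisors, (if e ∣ d then e else 0) :=
        Finset.single_le_sum (f := fun e => if e ∣ d then e else 0)
          (fun e _ => Nat.zero_le _)
          (Nat.mem_divisors.2 ⟨Nat.gcd_dvd_left c d, by omega⟩)
      rwa [if_pos (Nat.gcd_dvd_right c d)] at h6
    calc Nat.gcd c (2 * d) ≤ Nat.gcd c 2 * Nat.gcd c d := Nat.le_of_dvd h4 h2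
      _ ≤ 2 * ∑ e ∈ c.divisors, (if e ∣ d then e else 0) := Nat.mul_le_mul h3 h5
  calc ∑ d ∈ Finset.Icc 1 D, Nat.gcd c (2 * d)
      ≤ ∑ d ∈ Finset.Icc 1 D, 2 * ∑ e ∈ c.divisors, (if e ∣ d then e else 0) :=
        Finset.sum_le_sum h1
    _ = 2 * ∑ e ∈ c.divisors, ∑ d ∈ Finset.Icc 1 D, (if e ∣ d then e else 0) := by
        rw [← Finset.mul_sum, Finset.sum_comm]
    _ ≤ 2 * ∑ e ∈ c.divisors, D := by
        refine Nat.mul_le_mul_left 2 (Finset.sum_le_sum fun e _ => ?_)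
        rw [← Finset.sum_filter, Finset.sum_const, smul_eq_mul]
        have h7 : ((Finset.Icc 1 D).filter fun d => e ∣ d).card = D / e := by
          have := Nat.Ioc_filter_dvd_card_eq_div D e
          rw [← this]
          rfl
        rw [h7]
        exact Nat.div_mul_le_self D e
    _ = 2 * D * c.divisors.card := by
        rw [Finset.sum_const, smul_eq_mul]
        ring

end Pool.Agent.FTA
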