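import Pool.Agent.FTA.Pair
import Pool.Agent.FTA.Gcd

/-!
# FTA/FBd: the number of pairs `(N, e)` for fixed `(c, u, v)`

PROOF of `fbd`.  Let `S` be the image of `F` under the first projection.
(1) Every fibre has at most 3 elements: for `(N, e), (N, e') ∈ F`: `c ^ 3 ∣ (e - e') u ^ 3`, so
`c ^ 3 ∣ e - e'`, and `|e - e'| |u| ≤ 2 K c ^ 2 ≤ 2 |u| c ^ 3` by `hKu`, so `|e - e'| ≤ 2 c ^ 3`
and `cnt` gives `≤ 2 + 1`.  Hence `card F ≤ 3 card S`.
(2) Choose `e N` for every `N ∈ S` (with `(N, e N) ∈ F`).  Let `D₀ = M / |v|` (floor).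
`(card S) ^ 2 = card S + #{(N, N') ∈ S × S : N ≠ N'}`.  For `N ≠ N'` in `S`: `v ∣ N' - N`
(`v ∣ c ^ 2 (N' - N)`, `v` coprime to `c`), so `N' = N + v d` with `d ≠ 0`, `|v| |d| < M`, so
`1 ≤ |d| ≤ D₀`.  For fixed `d` the number of such pairs is the number of `N ∈ S` with
`N + v d ∈ S`, bounded by `pair`.  So with `gcd (c, 2 d) = gcd (c, 2 |d|)`:
`(card S) ^ 2 ≤ card S + 2 ∑_{d = 1}^{D₀} (4 K / |u| + 1) (M gcd (c, 2 d) / (|v| c) + 1)
≤ card S + 2 (4 K / |u| + 1) (M * 2 D₀ τ(c) / (|v| c) + D₀)` by `gcd_sum`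
`≤ card S + B`, `B = 2 (4 K / |u| + 1) (M / |v|) (2 M τ(c) / (|v| c) + 1)`, as `D₀ ≤ M / |v|`.
(3) `x ^ 2 ≤ x + B` gives `x ≤ 1 + √B` (`B ≥ 0`).
-/

set_option autoImplicit false

namespace Pool.Agent.FTA

/-- every fibre over `N` has at most three elements -/
private theorem FBd_fib (M c : ℕ) (u v : ℤ) (hc : 1 ≤ c) (hu : u ≠ 0)
    (huc : IsCoprime u (c : ℤ)) (K : ℝ)
    (hKu : K ≤ |(u : ℝ)| * c) (F : Finset (ℕ × ℤ)) (hF : ∀ q ∈ F, IsF M c u v K q.1 q.2) (N : ℕ) :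
    (F.filter (fun q => q.1 = N)).card ≤ 3 := by
  classical
  have hcr : (0 : ℝ) < c := by exact_mod_cast hc
  have hur : 0 < |(u : ℝ)| := abs_pos.2 (by exact_mod_cast hu)
  have h1 := cnt ((F.filter (fun q => q.1 = N)).image Prod.snd) (c ^ 3) (Nat.one_le_pow _ _ hc)
    (2 * (c : ℝ) ^ 3) (by positivity) (by
      intro x hx y hy
      obtain ⟨⟨N₁, x⟩, hq, rfl⟩ := Finset.mem_image.1 hx
      obtain ⟨⟨N₂, y⟩, hr, rfl⟩ := Finset.mem_image.1 hy
      rw [Finset.mem_filter] at hq hr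
      obtain ⟨hq, hq'⟩ := hq
      obtain ⟨hr, hr'⟩ := hr
      simp only at hq' hr'
      subst hq'
      subst hr'
      have a1 := dvd_sub (hF _ hq).2.2.2.2 (hF _ hr).2.2.2.2
      have a2 : x * u ^ 3 - v ^ 2 * N₂ * (u ^ 2 - (c : ℤ) ^ 2 * N₂) -
          (y * u ^ 3 - v ^ 2 * N₂ * (u ^ 2 - (c : ℤ) ^ 2 * N₂)) = (x - y) * u ^ 3 := by ring
      simp only at a1
      rw [a2] at a1
      push_cast
      exact (huc.symm.pow).dvd_of_dvd_mul_right a1) (by
      intro x hx y hy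
      obtain ⟨⟨N₁, x⟩, hq, rfl⟩ := Finset.mem_image.1 hx
      obtain ⟨⟨N₂, y⟩, hr, rfl⟩ := Finset.mem_image.1 hy
      rw [Finset.mem_filter] at hq hr
      obtain ⟨hq, hq'⟩ := hq
      obtain ⟨hr, hr'⟩ := hr
      simp only at hq' hr'
      subst hq'
      subst hr'
      have a1 := (hF _ hq).2.2.2.1
      have a2 := (hF _ hr).2.2.2.1
      simp only at a1 a2
      have a3 : ((x - y : ℤ) : ℝ) * (u : ℝ) = ((x * u - v ^ 2 * N₂ : ℤ) : ℝ) -
          ((y * u - v ^ 2 * N₂ : ℤ) : ℝ) := by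
        push_cast
        ring
      have a4 : ((x - y : ℤ) : ℝ) * |(u : ℝ)| ≤ 2 * K * (c : ℝ) ^ 2 := by
        calc ((x - y : ℤ) : ℝ) * |(u : ℝ)| ≤ |((x - y : ℤ) : ℝ)| * |(u : ℝ)| :=
              mul_le_mul_of_nonneg_right (le_abs_self _) hur.le
          _ = |((x - y : ℤ) : ℝ) * (u : ℝ)| := (abs_mul _ _).symm
          _ ≤ 2 * K * (c : ℝ) ^ 2 := by
              rw [a3]
              refine (abs_sub _ _).trans ?_
              linarith
      have a5 : 2 * K * (c : ℝ) ^ 2 ≤ (2 * (c : ℝ) ^ 3) * |(u : ℝ)| := by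
        have a6 : K * (c : ℝ) ^ 2 ≤ |(u : ℝ)| * c * (c : ℝ) ^ 2 :=
          mul_le_mul_of_nonneg_right hKu (by positivity)
        nlinarith
      exact le_of_mul_le_mul_right (a4.trans a5) hur)
  rw [Finset.card_image_of_injOn] at h1
  · have h2 : (2 * (c : ℝ) ^ 3) / ((c ^ 3 : ℕ) : ℝ) + 1 = 3 := by
      push_cast
      rw [mul_div_assoc, div_self (by positivity)]
      norm_num
    rw [h2] at h1
    exact_mod_cast h1
  · rintro ⟨N₁, x⟩ hq ⟨N₂, y⟩ hr hxy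
    rw [Finset.mem_coe, Finset.mem_filter] at hq hr
    simp only at hxy
    have h3 := hq.2
    have h4 := hr.2
    simp only at h3 h4
    rw [h3, h4, hxy]

private theorem FBd_sq {x B : ℝ} (hB : 0 ≤ B) (h : x ^ 2 ≤ x + B) : x ≤ 1 + √B := by
  by_contra hx
  have h1 := Real.sqrt_nonneg B
  have h2 := Real.mul_self_sqrt hB
  have h3 : 1 + √B < x := not_le.1 hx
  nlinarith

theorem fbd (M c : ℕ) (u v : ℤ) (hc : 1 ≤ c) (hu : u ≠ 0) (hv : v ≠ 0)
    (huc : IsCoprime u (c : ℤ)) (hvc : IsCoprime v (c : ℤ)) (K : ℝ) (hK : 0 ≤ K)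
    (hKu : K ≤ |(u : ℝ)| * c) (F : Finset (ℕ × ℤ)) (hF : ∀ q ∈ F, IsF M c u v K q.1 q.2) :
    (F.card : ℝ) ≤ 3 * (1 + √(2 * (4 * K / |(u : ℝ)| + 1) * (M / |(v : ℝ)|) *
      (2 * M * (c.divisors.card : ℝ) / (|(v : ℝ)| * c) + 1))) := by
  classical
  have hcr : (0 : ℝ) < c := by exact_mod_cast hc
  have hur : 0 < |(u : ℝ)| := abs_pos.2 (by exact_mod_cast hu)
  have hvr : 0 < |(v : ℝ)| := abs_pos.2 (by exact_mod_cast hv)
  have hV0 : 0 < v.natAbs := Int.natAbs_pos.2 hv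
  have hVr : (v.natAbs : ℝ) = |(v : ℝ)| := by
    rw [Nat.cast_natAbs, Int.cast_abs]
  set S := F.image Prod.fst with hS
  have hex : ∀ N : ℕ, ∃ e : ℤ, N ∈ S → (N, e) ∈ F := by
    intro N
    by_cases hN : N ∈ S
    · rw [hS, Finset.mem_image] at hN
      obtain ⟨⟨N', e⟩, hq, rfl⟩ := hN
      exact ⟨e, fun _ => hq⟩
    · exact ⟨0, fun h => absurd h hN⟩
  choose e he using hex
  have hSF : ∀ N ∈ S, IsF M c u v K N (e N) := fun N hN => hF _ (he N hN)
  have hcard : (F.card : ℝ) ≤ 3 * S.card := by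
    have h1 : F.card ≤ S.card * 3 := by
      rw [Finset.card_eq_sum_card_image Prod.fst F]
      refine (Finset.sum_le_card_nsmul _ _ 3 fun N _ =>
        FBd_fib M c u v hc hu huc K hKu F hF N).trans ?_
      rw [smul_eq_mul]
    have h2 : (F.card : ℝ) ≤ ((S.card * 3 : ℕ) : ℝ) := by exact_mod_cast h1
    push_cast at h2
    linarith
  -- off-diagonal pairs
  set D₀ := M / v.natAbs with hD₀
  let f : ℕ × ℕ → ℕ := fun q => (((q.2 : ℤ) - q.1) / v).natAbs
  have hvdvd : ∀ N ∈ S, ∀ N' ∈ S, v ∣ (N' : ℤ) - N := by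
    intro N hN N' hN'
    have a11 := dvd_sub (hSF N hN).2.2.1 (hSF N' hN').2.2.1
    have a12 : u ^ 2 - (c : ℤ) ^ 2 * N - (u ^ 2 - (c : ℤ) ^ 2 * N') =
        ((N' : ℤ) - N) * (c : ℤ) ^ 2 := by ring
    rw [a12] at a11
    exact (hvc.pow_right).dvd_of_dvd_mul_right a11
  have hmaps : ∀ q ∈ S.offDiag, f q ∈ Finset.Icc 1 D₀ := by
    rintro ⟨N, N'⟩ hq
    rw [Finset.mem_offDiag] at hq
    obtain ⟨hN, hN', hne⟩ := hq
    simp only at hN hN' hne
    obtain ⟨d, hd⟩ := hvdvd N hN N' hN'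
    have h1 : f (N, N') = d.natAbs := by
      show (((N' : ℤ) - N) / v).natAbs = d.natAbs
      rw [hd, Int.mul_ediv_cancel_left _ hv]
    rw [h1, Finset.mem_Icc]
    have hd0 : d ≠ 0 := by
      rintro rfl
      rw [mul_zero] at hd
      exact hne (by omega)
    refine ⟨Int.natAbs_pos.2 hd0, ?_⟩
    rw [hD₀, Nat.le_div_iff_mul_le hV0]
    have h2 : d.natAbs * v.natAbs = ((N' : ℤ) - N).natAbs := by
      rw [hd, Int.natAbs_mul, mul_comm]
    rw [h2]
    have a1 := (hSF N hN).1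
    have a2 := (hSF N hN).2.1
    have a3 := (hSF N' hN').1
    have a4 := (hSF N' hN').2.1
    omega
  set C1 : ℝ := 4 * K / |(u : ℝ)| + 1 with hC1
  have hC10 : 0 ≤ C1 := by positivity
  have hfib : ∀ n ∈ Finset.Icc 1 D₀, ((S.offDiag.filter (fun q => f q = n)).card : ℝ) ≤
      2 * C1 * (M * (Nat.gcd c (2 * n) : ℝ) / (|(v : ℝ)| * c) + 1) := by
    intro n hn
    rw [Finset.mem_Icc] at hn
    have hn0 : (n : ℤ) ≠ 0 := by omega
    have b1 := pair M c u v hc hu hv huc hvc K hK S e hSF (n : ℤ) hn0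
    have b2 := pair M c u v hc hu hv huc hvc K hK S e hSF (-(n : ℤ)) (neg_ne_zero.2 hn0)
    have g1 : Int.gcd c (2 * (n : ℤ)) = Nat.gcd c (2 * n) := by
      have : (2 * (n : ℤ)) = ((2 * n : ℕ) : ℤ) := by push_cast; rfl
      rw [this, Int.gcd_natCast_natCast]
    have g2 : Int.gcd c (2 * (-(n : ℤ))) = Nat.gcd c (2 * n) := by
      rw [mul_neg, Int.gcd_neg, g1]
    rw [g1] at b1
    rw [g2] at b2
    have h1 : (S.offDiag.filter (fun q => f q = n)).card ≤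
        (S.filter (fun N : ℕ => ∃ N' : ℕ, N' ∈ S ∧ (N' : ℤ) = (N : ℤ) + v * n)).card +
        (S.filter (fun N : ℕ => ∃ N' : ℕ, N' ∈ S ∧ (N' : ℤ) = (N : ℤ) + v * (-n))).card := by
      have h2 : S.offDiag.filter (fun q => f q = n) ⊆
          (S.offDiag.filter (fun q => (q.2 : ℤ) = q.1 + v * n)) ∪
          (S.offDiag.filter (fun q => (q.2 : ℤ) = q.1 + v * (-n))) := by
        rintro ⟨N, N'⟩ hq
        rw [Finset.mem_filter] at hq
        obtain ⟨hq, hqn⟩ := hq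
        have hq' := hq
        rw [Finset.mem_offDiag] at hq'
        obtain ⟨hN, hN', hne⟩ := hq'
        simp only at hN hN' hne
        obtain ⟨d, hd⟩ := hvdvd N hN N' hN'
        have h1 : f (N, N') = d.natAbs := by
          show (((N' : ℤ) - N) / v).natAbs = d.natAbs
          rw [hd, Int.mul_ediv_cancel_left _ hv]
        rw [h1] at hqn
        rw [Finset.mem_union, Finset.mem_filter, Finset.mem_filter]
        rcases Int.natAbs_eq d with h3 | h3
        · left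
          refine ⟨hq, ?_⟩
          rw [← hqn, ← h3]
          simp only
          linarith
        · right
          refine ⟨hq, ?_⟩
          rw [← hqn, ← h3]
          simp only
          linarith
      refine (Finset.card_le_card h2).trans ((Finset.card_union_le _ _).trans ?_)
      have h3 : ∀ w : ℤ, (S.offDiag.filter (fun q => (q.2 : ℤ) = q.1 + w)).card ≤
          (S.filter (fun N : ℕ => ∃ N' : ℕ, N' ∈ S ∧ (N' : ℤ) = (N : ℤ) + w)).card := by
        intro w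
        refine Finset.card_le_card_of_injOn Prod.fst ?_ ?_
        · rintro ⟨N, N'⟩ hq
          rw [Finset.mem_coe, Finset.mem_filter, Finset.mem_offDiag] at hq
          rw [Finset.mem_coe, Finset.mem_filter]
          exact ⟨hq.1.1, N', hq.1.2.1, hq.2⟩
        · rintro ⟨N₁, N₁'⟩ hq ⟨N₂, N₂'⟩ hr hh
          rw [Finset.mem_coe, Finset.mem_filter] at hq hr
          simp only at hh
          have a1 := hq.2
          have a2 := hr.2
          simp only at a1 a2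
          rw [hh] at a1
          have a3 : (N₁' : ℤ) = N₂' := a1.trans a2.symm
          rw [hh, Nat.cast_injective a3]
      exact Nat.add_le_add (h3 _) (h3 _)
    have h1' : ((S.offDiag.filter (fun q => f q = n)).card : ℝ) ≤
        ((S.filter (fun N : ℕ => ∃ N' : ℕ, N' ∈ S ∧ (N' : ℤ) = (N : ℤ) + v * n)).card : ℝ) +
        ((S.filter (fun N : ℕ => ∃ N' : ℕ, N' ∈ S ∧ (N' : ℤ) = (N : ℤ) + v * (-n))).card : ℝ) := by
      exact_mod_cast h1
    linarith
  have hgcd := gcd_sum c D₀ hc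
  have hoff : ((S.offDiag.card : ℕ) : ℝ) ≤ 2 * C1 * (M / |(v : ℝ)|) *
      (2 * M * (c.divisors.card : ℝ) / (|(v : ℝ)| * c) + 1) := by
    rw [Finset.card_eq_sum_card_fiberwise hmaps, Nat.cast_sum]
    refine (Finset.sum_le_sum hfib).trans ?_
    have h1 : ∑ n ∈ Finset.Icc 1 D₀,
        2 * C1 * (M * (Nat.gcd c (2 * n) : ℝ) / (|(v : ℝ)| * c) + 1) =
        2 * C1 * (M / (|(v : ℝ)| * c) * ((∑ n ∈ Finset.Icc 1 D₀, Nat.gcd c (2 * n) : ℕ) : ℝ) +
          D₀) := by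
      rw [← Finset.mul_sum, Finset.sum_add_distrib, Finset.sum_const, Nat.card_Icc,
        Nat.add_sub_cancel, nsmul_eq_mul, mul_one, Nat.cast_sum, Finset.mul_sum]
      congr 2
      refine Finset.sum_congr rfl fun n _ => ?_
      ring
    rw [h1]
    have h2 : ((∑ n ∈ Finset.Icc 1 D₀, Nat.gcd c (2 * n) : ℕ) : ℝ) ≤
        2 * D₀ * (c.divisors.card : ℝ) := by exact_mod_cast hgcd
    have h3 : (D₀ : ℝ) ≤ M / |(v : ℝ)| := by
      rw [hD₀, ← hVr]
      exact Nat.cast_div_le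
    have h4 : M / (|(v : ℝ)| * c) * ((∑ n ∈ Finset.Icc 1 D₀, Nat.gcd c (2 * n) : ℕ) : ℝ) + D₀ ≤
        M / |(v : ℝ)| * (2 * M * (c.divisors.card : ℝ) / (|(v : ℝ)| * c) + 1) := by
      have h5 : M / (|(v : ℝ)| * c) * ((∑ n ∈ Finset.Icc 1 D₀, Nat.gcd c (2 * n) : ℕ) : ℝ) ≤
          M / (|(v : ℝ)| * c) * (2 * D₀ * (c.divisors.card : ℝ)) :=
        mul_le_mul_of_nonneg_left h2 (by positivity)
      have h6 : M / (|(v : ℝ)| * c) * (2 * D₀ * (c.divisors.card : ℝ)) + D₀ =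
          D₀ * (2 * M * (c.divisors.card : ℝ) / (|(v : ℝ)| * c) + 1) := by ring
      have h7 : (D₀ : ℝ) * (2 * M * (c.divisors.card : ℝ) / (|(v : ℝ)| * c) + 1) ≤
          M / |(v : ℝ)| * (2 * M * (c.divisors.card : ℝ) / (|(v : ℝ)| * c) + 1) :=
        mul_le_mul_of_nonneg_right h3 (by positivity)
      linarith
    calc 2 * C1 * (M / (|(v : ℝ)| * c) *
          ((∑ n ∈ Finset.Icc 1 D₀, Nat.gcd c (2 * n) : ℕ) : ℝ) + D₀)
        ≤ 2 * C1 * (M / |(v : ℝ)| * (2 * M * (c.divisors.card : ℝ) / (|(v : ℝ)| * c) + 1)) :=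
          mul_le_mul_of_nonneg_left h4 (by positivity)
      _ = _ := by ring
  set B : ℝ := 2 * C1 * (M / |(v : ℝ)|) *
      (2 * M * (c.divisors.card : ℝ) / (|(v : ℝ)| * c) + 1) with hB
  have hB0 : 0 ≤ B := by positivity
  have hsq : (S.card : ℝ) ^ 2 ≤ S.card + B := by
    have h1 := Finset.offDiag_card S
    have h2 : S.card * S.card = S.offDiag.card + S.card := by
      rw [h1, Nat.sub_add_cancel]
      exact Nat.le_mul_self _
    have h3 : (S.card : ℝ) * S.card = S.offDiag.card + S.card := by exact_mod_cast h2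
    rw [sq, h3]
    linarith
  have hx := FBd_sq hB0 hsq
  calc (F.card : ℝ) ≤ 3 * S.card := hcard
    _ ≤ 3 * (1 + √B) := by linarith

end Pool.Agent.FTA
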