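import Pool.Agent.FTA.TCnt

/-!
# FTA/Small1: the number of `t` for given `(N, g, y)`, `|D| ≤ X`

PROOF of `small1`.  If `S` is empty this is clear.  Otherwise `n := t₀ ^ 2 + D₀ y ^ 2` (one
element) satisfies `g ^ 2 n = 4 N ^ 5`, and for every `t ∈ S`: `n - t ^ 2 = D y ^ 2` with
`0 ≤ D ≤ X`, so `y ^ 2 ∣ n - t ^ 2` and `n - X y ^ 2 ≤ t ^ 2 ≤ n`.  Put `B = √n`,
`A = √(max (n - X y ^ 2) 0)`; then `A ≤ |t| ≤ B`, and `(B - A) B ≤ (B - A) (B + A) = B ^ 2 - A ^ 2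
≤ X y ^ 2`, so `B - A ≤ X y ^ 2 / √n` (`n > 0` as `N ≥ 2`).  Apply `tcnt` (with `w = y`) to
`S.filter (0 ≤ ·)` with `[A, B]` and to `S.filter (· < 0)` with `[-B, -A]`: each has at most
`τ ^ 2 (2 X / √n + 1)` elements (`τ = card (divisors (y ^ 2))`), and `√n = 2 √(N ^ 5) / g`, so
`2 X / √n = X g / √(N ^ 5)`.
-/

set_option autoImplicit false

namespace Pool.Agent.FTA

theorem small1 (N g y X : ℕ) (hN : 2 ≤ N) (hg : 1 ≤ g) (hy : 1 ≤ y) (S : Finset ℤ)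
    (hS : ∀ t ∈ S, IsCoprime t (y : ℤ) ∧ ∃ D : ℕ, D ≤ X ∧
      (g : ℤ) ^ 2 * (t ^ 2 + (D : ℤ) * (y : ℤ) ^ 2) = 4 * (N : ℤ) ^ 5) :
    (S.card : ℝ) ≤ 2 * ((y ^ 2).divisors.card : ℝ) ^ 2 *
      ((X : ℝ) * g / √((N : ℝ) ^ 5) + 1) := by
  classical
  rcases S.eq_empty_or_nonempty with h0 | ⟨t0, ht0⟩
  · rw [h0, Finset.card_empty]
    push_cast
    positivity
  have hg0 : (0 : ℝ) < g := by exact_mod_cast hg
  have hy0 : (0 : ℝ) < y := by exact_mod_cast hy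
  have hN0 : (0 : ℝ) < N := by
    have : 0 < N := by omega
    exact_mod_cast this
  obtain ⟨-, D0, -, hD0⟩ := hS t0 ht0
  obtain ⟨n, hn⟩ : ∃ n : ℤ, n = t0 ^ 2 + (D0 : ℤ) * (y : ℤ) ^ 2 := ⟨_, rfl⟩
  rw [← hn] at hD0
  have hgz : (g : ℤ) ^ 2 ≠ 0 := by positivity
  have hkey : ∀ t ∈ S, IsCoprime t (y : ℤ) ∧ ∃ D : ℕ, D ≤ X ∧ n - t ^ 2 = (D : ℤ) * (y : ℤ) ^ 2 := by
    intro t ht
    obtain ⟨h1, D, h2, h3⟩ := hS t ht
    refine ⟨h1, D, h2, ?_⟩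
    have h4 : (g : ℤ) ^ 2 * (t ^ 2 + (D : ℤ) * (y : ℤ) ^ 2) = (g : ℤ) ^ 2 * n := by rw [h3, hD0]
    have h5 := mul_left_cancel₀ hgz h4
    linarith
  have hnR : (g : ℝ) ^ 2 * (n : ℝ) = 4 * (N : ℝ) ^ 5 := by exact_mod_cast hD0
  have hBeq : √(n : ℝ) = 2 * √((N : ℝ) ^ 5) / g := by
    have h1 : (n : ℝ) = (2 * √((N : ℝ) ^ 5) / g) ^ 2 := by
      rw [div_pow, mul_pow, Real.sq_sqrt (by positivity), eq_div_iff (by positivity)]
      linarith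
    rw [h1, Real.sqrt_sq (by positivity)]
  have hBpos : 0 < √(n : ℝ) := by rw [hBeq]; positivity
  have hnpos : 0 < (n : ℝ) := Real.sqrt_pos.1 hBpos
  set B : ℝ := √(n : ℝ) with hB
  set A : ℝ := √(max ((n : ℝ) - X * (y : ℝ) ^ 2) 0) with hA
  have hB2 : B ^ 2 = n := Real.sq_sqrt hnpos.le
  have hA2 : A ^ 2 = max ((n : ℝ) - X * (y : ℝ) ^ 2) 0 := Real.sq_sqrt (le_max_right _ _)
  have hA0 : 0 ≤ A := Real.sqrt_nonneg _
  have hAB : A ≤ B := by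
    apply Real.sqrt_le_sqrt
    apply max_le _ hnpos.le
    have : 0 ≤ (X : ℝ) * (y : ℝ) ^ 2 := by positivity
    linarith
  have hdiff : (B - A) ≤ X * (y : ℝ) ^ 2 / B := by
    rw [le_div_iff₀ hBpos]
    have h1 : B ^ 2 - A ^ 2 ≤ X * (y : ℝ) ^ 2 := by
      rw [hB2, hA2]
      have := le_max_left ((n : ℝ) - X * (y : ℝ) ^ 2) 0
      linarith
    have h2 : 0 ≤ (B - A) * A := mul_nonneg (by linarith) hA0
    nlinarith
  have habs : ∀ t ∈ S, A ≤ |(t : ℝ)| ∧ |(t : ℝ)| ≤ B := by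
    intro t ht
    obtain ⟨-, D, h2, h3⟩ := hkey t ht
    have h4 : (n : ℝ) - (t : ℝ) ^ 2 = (D : ℝ) * (y : ℝ) ^ 2 := by exact_mod_cast h3
    have h5 : (D : ℝ) ≤ X := by exact_mod_cast h2
    have h6 : (D : ℝ) * (y : ℝ) ^ 2 ≤ X * (y : ℝ) ^ 2 := by gcongr
    have h7 : 0 ≤ (D : ℝ) * (y : ℝ) ^ 2 := by positivity
    constructor
    · rw [← Real.sqrt_sq_eq_abs]
      apply Real.sqrt_le_sqrt
      apply max_le _ (sq_nonneg _)
      linarith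
    · rw [← Real.sqrt_sq_eq_abs]
      apply Real.sqrt_le_sqrt
      linarith
  have hdvd : ∀ t ∈ S, ((y : ℤ) ^ 2 ∣ n - t ^ 2) := by
    intro t ht
    obtain ⟨-, D, -, h3⟩ := hkey t ht
    exact ⟨D, by rw [h3]; ring⟩
  have h1 := tcnt y hy n A B hAB (S.filter fun t => 0 ≤ t) (by
    intro t ht
    rw [Finset.mem_filter] at ht
    have h2 := habs t ht.1
    have h3 : (0 : ℝ) ≤ t := by exact_mod_cast ht.2
    rw [abs_of_nonneg h3] at h2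
    exact ⟨h2.1, h2.2, (hkey t ht.1).1, hdvd t ht.1⟩)
  have h2 := tcnt y hy n (-B) (-A) (by linarith) (S.filter fun t => ¬ 0 ≤ t) (by
    intro t ht
    rw [Finset.mem_filter] at ht
    have h2 := habs t ht.1
    have h3 : (t : ℝ) ≤ 0 := by
      have : t ≤ 0 := by omega
      exact_mod_cast this
    rw [abs_of_nonpos h3] at h2
    exact ⟨by linarith, by linarith, (hkey t ht.1).1, hdvd t ht.1⟩)
  have hsum : (S.card : ℝ) = ((S.filter fun t => 0 ≤ t).card : ℝ) +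
      ((S.filter fun t => ¬ 0 ≤ t).card : ℝ) := by
    rw [← Finset.card_filter_add_card_filter_not (s := S) (fun t : ℤ => 0 ≤ t)]
    push_cast
    ring
  have e1 : -A - -B = B - A := by ring
  rw [e1] at h2
  have hfin : 2 * (B - A) / (y : ℝ) ^ 2 ≤ (X : ℝ) * g / √((N : ℝ) ^ 5) := by
    have hs : 0 < √((N : ℝ) ^ 5) := Real.sqrt_pos.2 (by positivity)
    calc 2 * (B - A) / (y : ℝ) ^ 2 ≤ 2 * (X * (y : ℝ) ^ 2 / B) / (y : ℝ) ^ 2 := by gcongr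
      _ = (X : ℝ) * g / √((N : ℝ) ^ 5) := by
        rw [hBeq]
        field_simp
  have hτ : 0 ≤ ((y ^ 2).divisors.card : ℝ) ^ 2 := by positivity
  rw [hsum]
  calc ((S.filter fun t => 0 ≤ t).card : ℝ) + ((S.filter fun t => ¬ 0 ≤ t).card : ℝ)
      ≤ ((y ^ 2).divisors.card : ℝ) ^ 2 * (2 * (B - A) / (y : ℝ) ^ 2 + 1) +
        ((y ^ 2).divisors.card : ℝ) ^ 2 * (2 * (B - A) / (y : ℝ) ^ 2 + 1) := add_le_add h1 h2
    _ = 2 * ((y ^ 2).divisors.card : ℝ) ^ 2 * (2 * (B - A) / (y : ℝ) ^ 2 + 1) := by ring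
    _ ≤ _ := by
      apply mul_le_mul_of_nonneg_left _ (by positivity)
      linarith

end Pool.Agent.FTA
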