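import Pool.Agent.FTA.Defs

/-!
# FTA/Small2: the number of `y` for given `(N, g)`

PROOF of `small2`.  First bound: `y ≥ 1` and `g y ≤ 2 √(N ^ 3)` for `y ∈ S`, so
`S ⊆ Icc 1 ⌊2 √(N ^ 3) / g⌋₊`.  Second bound: map `y ↦ (a, w) = (factorization y 2, oddPart y)`,
injective as `y = 2 ^ a * oddPart y` (`Nat.ordProj_mul_ordCompl_eq_self`).  Here `1 ≤ w` and
`w ^ 4 < M ^ 5 = m ^ 20`, so `w < m ^ 5` and there are at most `m ^ 5` values of `w`.  Let `A` be the
largest occurring value of `a` (if `S` is empty there is nothing to prove); `2 ^ A ≤ y` for some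
`y ∈ S` and `y ^ 2 ≤ (g y) ^ 2 ≤ 4 N ^ 3 ≤ 32 M ^ 3`, so `2 ^ A ≤ (16 M) ^ 20` and
`A + 1 = card (divisors (2 ^ A)) ≤ T` (`Nat.divisors_prime_pow`).  So there are at most `A + 1 ≤ T`
values of `a`.
-/

set_option autoImplicit false

namespace Pool.Agent.FTA

theorem small2 (M N g : ℕ) (m T : ℝ) (hm : 0 < m) (hm4 : m ^ 4 = (M : ℝ)) (hN : N < 2 * M)
    (hg : 1 ≤ g) (hT : ∀ n : ℕ, 1 ≤ n → n ≤ (16 * M) ^ 20 → (n.divisors.card : ℝ) ≤ T)
    (hT1 : 1 ≤ T)
    (S : Finset ℕ) (hS : ∀ y ∈ S, 1 ≤ y ∧ (g * y) ^ 2 ≤ 4 * N ^ 3 ∧ (oddPart y) ^ 4 < M ^ 5) :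
    (S.card : ℝ) ≤ 2 * √((N : ℝ) ^ 3) / g ∧ (S.card : ℝ) ≤ T * m ^ 5 := by
  classical
  have hg0 : (0 : ℝ) < g := by exact_mod_cast hg
  constructor
  · have hsub : S ⊆ Finset.Icc 1 ⌊2 * √((N : ℝ) ^ 3) / g⌋₊ := by
      intro y hy
      obtain ⟨h1, h2, -⟩ := hS y hy
      rw [Finset.mem_Icc]
      refine ⟨h1, Nat.le_floor ?_⟩
      rw [le_div_iff₀ hg0]
      have h3 : ((g : ℝ) * y) ^ 2 ≤ (2 * √((N : ℝ) ^ 3)) ^ 2 := by
        rw [mul_pow, mul_pow 2, Real.sq_sqrt (by positivity)]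
        have h4 : (((g * y) ^ 2 : ℕ) : ℝ) ≤ ((4 * N ^ 3 : ℕ) : ℝ) := by exact_mod_cast h2
        push_cast at h4
        nlinarith
      have h5 := (pow_le_pow_iff_left₀ (by positivity) (by positivity) two_ne_zero).1 h3
      linarith
    calc (S.card : ℝ) ≤ ((Finset.Icc 1 ⌊2 * √((N : ℝ) ^ 3) / g⌋₊).card : ℝ) := by
          exact_mod_cast Finset.card_le_card hsub
      _ = (⌊2 * √((N : ℝ) ^ 3) / g⌋₊ : ℝ) := by rw [Nat.card_Icc, Nat.add_sub_cancel]
      _ ≤ _ := Nat.floor_le (by positivity)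
  · rcases S.eq_empty_or_nonempty with h0 | hne
    · rw [h0, Finset.card_empty]
      push_cast
      positivity
    · set A := S.sup fun y => y.factorization 2 with hA
      have hM1 : 1 ≤ M := by omega
      have hA1 : ((A + 1 : ℕ) : ℝ) ≤ T := by
        obtain ⟨y0, hy0, hy0A⟩ := Finset.exists_mem_eq_sup S hne fun y => y.factorization 2
        obtain ⟨h1, h2, -⟩ := hS y0 hy0
        have hle : 2 ^ A ≤ y0 := by
          rw [hA, hy0A]
          exact Nat.ordProj_le 2 (by omega)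
        have hle2 : 2 ^ A ≤ (16 * M) ^ 20 := by
          have h3 : y0 ≤ (g * y0) ^ 2 := by
            have h4 : 1 * y0 ≤ g * y0 := Nat.mul_le_mul_right _ hg
            have h5 : 1 ≤ g * y0 := Nat.mul_pos hg h1
            nlinarith
          have h6 : N ^ 3 ≤ (2 * M) ^ 3 := Nat.pow_le_pow_left hN.le 3
          have h7 : (16 * M) ^ 3 ≤ (16 * M) ^ 20 :=
            Nat.pow_le_pow_right (by omega) (by norm_num)
          have h8 : 4 * (2 * M) ^ 3 ≤ (16 * M) ^ 3 := by
            have e1 : 4 * (2 * M) ^ 3 = 32 * M ^ 3 := by ring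
            have e2 : (16 * M) ^ 3 = 4096 * M ^ 3 := by ring
            rw [e1, e2]
            exact Nat.mul_le_mul_right _ (by norm_num)
          omega
        have h9 := hT (2 ^ A) Nat.one_le_two_pow hle2
        rw [Nat.divisors_prime_pow Nat.prime_two, Finset.card_map, Finset.card_range] at h9
        exact h9
      have hcard : S.card ≤ (Finset.range (A + 1) ×ˢ Finset.Icc 1 ⌊m ^ 5⌋₊).card := by
        apply Finset.card_le_card_of_injOn (fun y => (y.factorization 2, oddPart y))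
        · intro y hy
          obtain ⟨h1, h2, h3⟩ := hS y hy
          have hfac : y.factorization 2 ≤ A := Finset.le_sup (f := fun y => y.factorization 2) hy
          have hpos : 1 ≤ oddPart y := Nat.ordCompl_pos 2 (by omega)
          have hlt : (oddPart y : ℝ) ≤ m ^ 5 := by
            have h4 : ((oddPart y ^ 4 : ℕ) : ℝ) < ((M ^ 5 : ℕ) : ℝ) := by exact_mod_cast h3
            push_cast at h4
            rw [← hm4] at h4
            have h5 : (oddPart y : ℝ) ^ 4 ≤ (m ^ 5) ^ 4 := by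
              have e : (m ^ 4) ^ 5 = (m ^ 5) ^ 4 := by ring
              rw [← e]
              exact h4.le
            exact (pow_le_pow_iff_left₀ (by positivity) (by positivity) (by norm_num)).1 h5
          simp only [Finset.coe_product, Set.mem_prod, Finset.coe_range, Set.mem_Iio,
            Finset.coe_Icc, Set.mem_Icc]
          exact ⟨by omega, hpos, Nat.le_floor hlt⟩
        · intro y hy z hz hyz
          simp only [Prod.mk.injEq] at hyz
          have e1 := Nat.ordProj_mul_ordCompl_eq_self y 2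
          have e2 := Nat.ordProj_mul_ordCompl_eq_self z 2
          unfold oddPart at hyz
          calc y = 2 ^ y.factorization 2 * (y / 2 ^ y.factorization 2) := e1.symm
            _ = 2 ^ z.factorization 2 * (z / 2 ^ z.factorization 2) := by rw [hyz.2, hyz.1]
            _ = z := e2
      rw [Finset.card_product, Finset.card_range, Nat.card_Icc, Nat.add_sub_cancel] at hcard
      calc (S.card : ℝ) ≤ (((A + 1) * ⌊m ^ 5⌋₊ : ℕ) : ℝ) := by exact_mod_cast hcard
        _ = ((A + 1 : ℕ) : ℝ) * (⌊m ^ 5⌋₊ : ℝ) := by push_cast; ring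
        _ ≤ T * m ^ 5 := by
          apply mul_le_mul hA1 (Nat.floor_le (by positivity)) (Nat.cast_nonneg _) (by linarith)

end Pool.Agent.FTA
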