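import Pool.Agent.FTA.Fib
import Pool.Agent.FTA.Small1
import Pool.Agent.FTA.Small2

/-!
# FTA/Small: the solutions with small odd part

PROOF of `small`.  If `S` is empty this is clear, so `M ≥ 1`.  For `q = (D, N, t, y) ∈ S` let
`g = Int.gcd t y ≥ 1`, `t = g t₁`, `y = g y₁` (`y₁ = y1 t y` as a natural number, `y₁ ≥ 1`),
`t₁`, `y₁` coprime, `g ^ 2 (t₁ ^ 2 + D y₁ ^ 2) = 4 N ^ 5`.  Apply `fib` with `q ↦ N ∈ Ico M (2 M)`;
then for fixed `N`, with `q ↦ g ∈ divisors (4 N ^ 5)` (at most `T` values as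
`4 N ^ 5 ≤ (16 M) ^ 20`); then for fixed `(N, g)` with `q ↦ y₁`, whose values are in a set `Y₀`
satisfying the hypotheses of `small2` (`D ≥ N ^ 2`, so `N ^ 2 (g y₁) ^ 2 ≤ D y ^ 2 ≤ 4 N ^ 5` and
`(g y₁) ^ 2 ≤ 4 N ^ 3`); the fibre over `(N, g, y₁)` injects by `q ↦ t₁` (`t = g t₁`, `y = g y₁`,
`D = (4 N ^ 5 - t ^ 2) / y ^ 2`) into a set as in `small1`, so it has at most
`2 T ^ 2 (X g / √(N ^ 5) + 1)` elements (`y₁ ^ 2 ≤ 4 N ^ 3 ≤ (16 M) ^ 20`).  For fixed `(N, g)`: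
`card Y₀ * 2 T ^ 2 (X g / √(N ^ 5) + 1) ≤ 2 T ^ 2 (X g / √(N ^ 5) * 2 √(N ^ 3) / g + T m ^ 5)
= 2 T ^ 2 (2 X / N + T m ^ 5) ≤ 2 T ^ 2 (2 X / M + T m ^ 5)`.
Multiply by the number `≤ T` of `g` and by `M = m ^ 4` (number of `N`):
`4 T ^ 3 X + 2 T ^ 4 m ^ 9 ≤ 8 T ^ 4 (X + m ^ 9)`.
-/

set_option autoImplicit false

namespace Pool.Agent.FTA

private theorem small_basic (D N : ℕ) (t y : ℤ) (h : Sol D N t y) :
    1 ≤ Int.gcd t y ∧ 1 ≤ y1 t y ∧ (Int.gcd t y : ℤ) * (y1 t y : ℤ) = y ∧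
      (Int.gcd t y : ℤ) * (t / (Int.gcd t y : ℤ)) = t ∧
      IsCoprime (t / (Int.gcd t y : ℤ)) (y1 t y : ℤ) ∧
      (Int.gcd t y * y1 t y) ^ 2 ≤ 4 * N ^ 3 := by
  obtain ⟨hN, hD, hy, heq, -⟩ := h
  have hg : 0 < Int.gcd t y := Int.gcd_pos_of_ne_zero_right _ (by omega)
  have hgZ : (0 : ℤ) < (Int.gcd t y : ℤ) := by exact_mod_cast hg
  have e1 : (Int.gcd t y : ℤ) * (y / (Int.gcd t y : ℤ)) = y :=
    Int.mul_ediv_cancel' (Int.gcd_dvd_right ..)
  have e2 : (Int.gcd t y : ℤ) * (t / (Int.gcd t y : ℤ)) = t :=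
    Int.mul_ediv_cancel' (Int.gcd_dvd_left ..)
  have hpos : 0 < y / (Int.gcd t y : ℤ) := by
    by_contra hcon
    push Not at hcon
    have := mul_nonpos_of_nonneg_of_nonpos hgZ.le hcon
    omega
  have hyZ : (y1 t y : ℤ) = y / (Int.gcd t y : ℤ) := by
    unfold y1
    rw [Int.natCast_natAbs, abs_of_pos hpos]
  refine ⟨hg, ?_, by rw [hyZ]; exact e1, e2, ?_, ?_⟩
  · have : (0 : ℤ) < (y1 t y : ℤ) := by rw [hyZ]; exact hpos
    exact_mod_cast this
  · rw [hyZ, Int.isCoprime_iff_gcd_eq_one]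
    exact Int.gcd_ediv_gcd_ediv_gcd hg
  · have h1 : ((Int.gcd t y * y1 t y : ℕ) : ℤ) = y := by
      rw [Nat.cast_mul, hyZ]
      exact e1
    have h2 : (N : ℤ) ^ 2 * y ^ 2 ≤ 4 * (N : ℤ) ^ 5 := by
      have h3 : (N : ℤ) ^ 2 ≤ (D : ℤ) := by exact_mod_cast hD
      have h4 : (N : ℤ) ^ 2 * y ^ 2 ≤ (D : ℤ) * y ^ 2 :=
        mul_le_mul_of_nonneg_right h3 (sq_nonneg _)
      have := sq_nonneg t
      linarith
    have hNZ : (0 : ℤ) < (N : ℤ) ^ 2 := by
      have : (0 : ℤ) < (N : ℤ) := by omega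
      positivity
    have h5 : y ^ 2 ≤ 4 * (N : ℤ) ^ 3 := by
      have h6 : (N : ℤ) ^ 2 * y ^ 2 ≤ (N : ℤ) ^ 2 * (4 * (N : ℤ) ^ 3) := by
        calc (N : ℤ) ^ 2 * y ^ 2 ≤ 4 * (N : ℤ) ^ 5 := h2
          _ = _ := by ring
      exact le_of_mul_le_mul_left h6 hNZ
    have h7 : (((Int.gcd t y * y1 t y) ^ 2 : ℕ) : ℤ) ≤ ((4 * N ^ 3 : ℕ) : ℤ) := by
      rw [Nat.cast_pow, h1]
      push_cast
      exact h5
    exact_mod_cast h7

theorem small (M X : ℕ) (m T : ℝ) (hm : 0 < m) (hm4 : m ^ 4 = (M : ℝ)) (hT1 : 1 ≤ T)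
    (hT : ∀ n : ℕ, 1 ≤ n → n ≤ (16 * M) ^ 20 → (n.divisors.card : ℝ) ≤ T)
    (S : Finset (ℕ × ℕ × ℤ × ℤ))
    (hS : ∀ q ∈ S, Sol q.1 q.2.1 q.2.2.1 q.2.2.2 ∧ q.1 ≤ X ∧ M ≤ q.2.1 ∧ q.2.1 < 2 * M ∧
      (oddPart (y1 q.2.2.1 q.2.2.2)) ^ 4 < M ^ 5) :
    (S.card : ℝ) ≤ 8 * T ^ 4 * (X + m ^ 9) := by
  classical
  rcases S.eq_empty_or_nonempty with hS0 | ⟨q₀, hq₀⟩
  · subst hS0
    simp only [Finset.card_empty, Nat.cast_zero]
    positivity
  have hM1 : 1 ≤ M := by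
    have h1 := (hS q₀ hq₀).2.2.2.1
    omega
  have hMR : (0 : ℝ) < (M : ℝ) := by exact_mod_cast hM1
  have hXR : (0 : ℝ) ≤ (X : ℝ) := Nat.cast_nonneg _
  -- the number of q for a given N
  set B : ℝ := 2 * T ^ 2 * (2 * X / M + T * m ^ 5) with hB
  have hB0 : 0 ≤ B := by positivity
  have main : (S.card : ℝ) ≤ ((Finset.Ico M (2 * M)).card : ℝ) * (T * B) := by
    apply fib_const S (fun q => q.2.1) (Finset.Ico M (2 * M))
    · intro q hq
      rw [Finset.mem_Ico]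
      exact ⟨(hS q hq).2.2.1, (hS q hq).2.2.2.1⟩
    intro N hN
    rw [Finset.mem_Ico] at hN
    set SN := S.filter (fun q => q.2.1 = N) with hSN
    rcases SN.eq_empty_or_nonempty with hSN0 | ⟨qN, hqN⟩
    · rw [hSN0]
      simp only [Finset.card_empty, Nat.cast_zero]
      positivity
    have hN2 : 2 ≤ N := by
      rw [hSN, Finset.mem_filter] at hqN
      have h1 := (hS qN hqN.1).1.1
      omega
    have hNR : (0 : ℝ) < (N : ℝ) := by
      have : 0 < N := by omega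
      exact_mod_cast this
    have h4N1 : 1 ≤ 4 * N ^ 5 := by
      have : 0 < N ^ 5 := by positivity
      omega
    have h4N : 4 * N ^ 5 ≤ (16 * M) ^ 20 := by
      have h3 : N ^ 5 ≤ (2 * M) ^ 5 := Nat.pow_le_pow_left hN.2.le 5
      have h4 : (16 * M) ^ 5 = 32768 * (2 * M) ^ 5 := by ring
      have h5 : 4 * N ^ 5 ≤ (16 * M) ^ 5 := by
        have h0 : 0 ≤ (2 * M) ^ 5 := Nat.zero_le _
        omega
      exact h5.trans (Nat.pow_le_pow_right (by omega) (by norm_num))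
    have hcard : ((4 * N ^ 5).divisors.card : ℝ) ≤ T := hT _ h4N1 h4N
    have step : (SN.card : ℝ) ≤ ((4 * N ^ 5).divisors.card : ℝ) * B := by
      refine fib_const SN (fun q => Int.gcd q.2.2.1 q.2.2.2) (Nat.divisors (4 * N ^ 5)) ?_ B ?_
      · intro q hq
        rw [hSN, Finset.mem_filter] at hq
        obtain ⟨hsol, -⟩ := hS q hq.1
        obtain ⟨-, -, hy, heq, -⟩ := hsol
        rw [Nat.mem_divisors]
        refine ⟨?_, by omega⟩
        rw [← Int.natCast_dvd_natCast]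
        have h1 : (Int.gcd q.2.2.1 q.2.2.2 : ℤ) ∣ q.2.2.1 ^ 2 :=
          (Int.gcd_dvd_left ..).trans (dvd_pow_self _ two_ne_zero)
        have h2 : (Int.gcd q.2.2.1 q.2.2.2 : ℤ) ∣ (q.1 : ℤ) * q.2.2.2 ^ 2 :=
          ((Int.gcd_dvd_right ..).trans (dvd_pow_self _ two_ne_zero)).mul_left _
        have h3 := dvd_add h1 h2
        rw [heq, hq.2] at h3
        push_cast
        exact h3
      intro g hg
      set SG := SN.filter (fun q => Int.gcd q.2.2.1 q.2.2.2 = g) with hSG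
      rcases SG.eq_empty_or_nonempty with hSG0 | ⟨qG, hqG⟩
      · rw [hSG0]
        simp only [Finset.card_empty, Nat.cast_zero]
        exact hB0
      have hSGmem : ∀ q ∈ SG, (Sol q.1 q.2.1 q.2.2.1 q.2.2.2 ∧ q.1 ≤ X ∧
          (oddPart (y1 q.2.2.1 q.2.2.2)) ^ 4 < M ^ 5) ∧ q.2.1 = N ∧
          Int.gcd q.2.2.1 q.2.2.2 = g := by
        intro q hq
        rw [hSG, Finset.mem_filter, hSN, Finset.mem_filter] at hq
        have h1 := hS q hq.1.1
        exact ⟨⟨h1.1, h1.2.1, h1.2.2.2.2⟩, hq.1.2, hq.2⟩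
      have hg1 : 1 ≤ g := by
        obtain ⟨⟨hsol, -⟩, -, hgg⟩ := hSGmem qG hqG
        rw [← hgg]
        exact (small_basic _ _ _ _ hsol).1
      have hgR : (0 : ℝ) < (g : ℝ) := by exact_mod_cast hg1
      set Y₀ := SG.image (fun q => y1 q.2.2.1 q.2.2.2) with hY₀
      have hY₀mem : ∀ y ∈ Y₀, 1 ≤ y ∧ (g * y) ^ 2 ≤ 4 * N ^ 3 ∧ (oddPart y) ^ 4 < M ^ 5 := by
        intro y hy
        rw [hY₀, Finset.mem_image] at hy
        obtain ⟨q, hq, rfl⟩ := hy
        obtain ⟨⟨hsol, -, hodd⟩, hqN, hgg⟩ := hSGmem q hq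
        have hb := small_basic _ _ _ _ hsol
        refine ⟨hb.2.1, ?_, hodd⟩
        have := hb.2.2.2.2.2
        rw [hqN, hgg] at this
        exact this
      obtain ⟨hYa, hYb⟩ := small2 M N g m T hm hm4 hN.2 hg1 hT hT1 Y₀ hY₀mem
      set b' : ℝ := 2 * T ^ 2 * ((X : ℝ) * g / √((N : ℝ) ^ 5) + 1) with hb'
      have step2 : (SG.card : ℝ) ≤ (Y₀.card : ℝ) * b' := by
        apply fib_const SG (fun q => y1 q.2.2.1 q.2.2.2) Y₀
        · intro q hq
          exact Finset.mem_image_of_mem _ hq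
        intro y hy
        obtain ⟨hy1, hy2, -⟩ := hY₀mem y hy
        have hinj : Set.InjOn (fun q : ℕ × ℕ × ℤ × ℤ => q.2.2.1 / (g : ℤ))
            (↑(SG.filter (fun q => y1 q.2.2.1 q.2.2.2 = y)) : Set (ℕ × ℕ × ℤ × ℤ)) := by
          intro q hq q' hq' heq
          rw [Finset.mem_coe, Finset.mem_filter] at hq hq'
          obtain ⟨⟨hsol, -⟩, hqN, hgg⟩ := hSGmem q hq.1
          obtain ⟨⟨hsol', -⟩, hqN', hgg'⟩ := hSGmem q' hq'.1
          have hb := small_basic _ _ _ _ hsol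
          have hb' := small_basic _ _ _ _ hsol'
          rw [hgg, hq.2] at hb
          rw [hgg', hq'.2] at hb'
          have heq' : q.2.2.1 / (g : ℤ) = q'.2.2.1 / (g : ℤ) := heq
          have ht : q.2.2.1 = q'.2.2.1 := by
            rw [← hb.2.2.2.1, ← hb'.2.2.2.1, heq']
          have hyy : q.2.2.2 = q'.2.2.2 := by
            rw [← hb.2.2.1, ← hb'.2.2.1]
          obtain ⟨-, -, hyq, heq1, -⟩ := hsol
          obtain ⟨-, -, hyq', heq2, -⟩ := hsol'
          have hD' : (q.1 : ℤ) = q'.1 := by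
            have h5 : (q.1 : ℤ) * q'.2.2.2 ^ 2 = (q'.1 : ℤ) * q'.2.2.2 ^ 2 := by
              rw [hyy, ht, hqN] at heq1
              rw [hqN'] at heq2
              linarith
            exact mul_right_cancel₀ (pow_ne_zero 2 (by omega)) h5
          exact Prod.ext (by exact_mod_cast hD') (Prod.ext (hqN.trans hqN'.symm) (Prod.ext ht hyy))
        rw [← Finset.card_image_of_injOn hinj]
        have hτ : ((y ^ 2).divisors.card : ℝ) ≤ T := by
          apply hT _ (Nat.one_le_pow _ _ hy1)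
          have h1 : y ^ 2 ≤ (g * y) ^ 2 := by
            apply Nat.pow_le_pow_left
            exact Nat.le_mul_of_pos_left _ hg1
          have h3 : N ^ 3 ≤ (2 * M) ^ 3 := Nat.pow_le_pow_left hN.2.le 3
          have h4 : (16 * M) ^ 3 = 512 * (2 * M) ^ 3 := by ring
          have h5 : y ^ 2 ≤ (16 * M) ^ 3 := by
            have h0 : 0 ≤ (2 * M) ^ 3 := Nat.zero_le _
            omega
          exact h5.trans (Nat.pow_le_pow_right (by omega) (by norm_num))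
        refine (small1 N g y X hN2 hg1 hy1 _ ?_).trans ?_
        · intro t ht
          rw [Finset.mem_image] at ht
          obtain ⟨q, hq, rfl⟩ := ht
          rw [Finset.mem_filter] at hq
          obtain ⟨⟨hsol, hX, -⟩, hqN, hgg⟩ := hSGmem q hq.1
          have hb := small_basic _ _ _ _ hsol
          rw [hgg, hq.2] at hb
          refine ⟨hb.2.2.2.2.1, q.1, hX, ?_⟩
          obtain ⟨-, -, hyq, heq1, -⟩ := hsol
          rw [hqN] at heq1
          rw [← heq1]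
          conv_rhs => rw [← hb.2.2.1, ← hb.2.2.2.1]
          ring
        · rw [hb']
          apply mul_le_mul_of_nonneg_right _ (by positivity)
          apply mul_le_mul_of_nonneg_left _ (by norm_num)
          exact pow_le_pow_left₀ (by positivity) hτ 2
      refine step2.trans ?_
      have hs5 : 0 < √((N : ℝ) ^ 5) := Real.sqrt_pos.2 (by positivity)
      have hs35 : √((N : ℝ) ^ 5) = N * √((N : ℝ) ^ 3) := by
        have : ((N : ℝ)) ^ 5 = (N : ℝ) ^ 2 * (N : ℝ) ^ 3 := by ring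
        rw [this, Real.sqrt_mul (by positivity), Real.sqrt_sq hNR.le]
      have hs3 : 0 < √((N : ℝ) ^ 3) := Real.sqrt_pos.2 (by positivity)
      have hMN : (M : ℝ) ≤ (N : ℝ) := by exact_mod_cast hN.1
      calc (Y₀.card : ℝ) * b'
          = 2 * T ^ 2 * ((Y₀.card : ℝ) * ((X : ℝ) * g / √((N : ℝ) ^ 5)) + (Y₀.card : ℝ)) := by
            rw [hb']; ring
        _ ≤ 2 * T ^ 2 * ((2 * √((N : ℝ) ^ 3) / g) * ((X : ℝ) * g / √((N : ℝ) ^ 5)) + T * m ^ 5) := by
            apply mul_le_mul_of_nonneg_left _ (by positivity)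
            apply add_le_add _ hYb
            exact mul_le_mul_of_nonneg_right hYa (by positivity)
        _ = 2 * T ^ 2 * (2 * X / N + T * m ^ 5) := by
            rw [hs35]
            field_simp
        _ ≤ B := by
            rw [hB]
            apply mul_le_mul_of_nonneg_left _ (by positivity)
            gcongr
    exact step.trans (mul_le_mul_of_nonneg_right hcard hB0)
  refine main.trans ?_
  have hIco : ((Finset.Ico M (2 * M)).card : ℝ) = M := by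
    rw [Nat.card_Ico]
    have : 2 * M - M = M := by omega
    rw [this]
  have hT3 : T ^ 3 ≤ T ^ 4 := pow_le_pow_right₀ hT1 (by norm_num)
  rw [hIco, hB]
  calc (M : ℝ) * (T * (2 * T ^ 2 * (2 * X / M + T * m ^ 5)))
      = 4 * T ^ 3 * X + 2 * T ^ 4 * (M * m ^ 5) := by
        field_simp
        ring
    _ = 4 * T ^ 3 * X + 2 * T ^ 4 * m ^ 9 := by
        rw [← hm4]; ring
    _ ≤ 8 * T ^ 4 * X + 8 * T ^ 4 * m ^ 9 := by
        apply add_le_add
        · apply mul_le_mul_of_nonneg_right _ hXR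
          linarith [pow_pos (lt_of_lt_of_le one_pos hT1) 4]
        · apply mul_le_mul_of_nonneg_right _ (by positivity)
          linarith [pow_pos (lt_of_lt_of_le one_pos hT1) 4]
    _ = 8 * T ^ 4 * (X + m ^ 9) := by ring

end Pool.Agent.FTA
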