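import Pool.Agent.FTA.SolL
import Pool.Agent.FTA.Small

/-!
# FTA/IntA: the number of solutions

PROOF of `intA`.  Put `L = 2 + log X ≥ 2`.  Every `q = (D, N, t, y) ∈ S` has `2 ≤ N`,
`N ^ 2 ≤ D ≤ X`.  Map `q ↦ i = Nat.log 2 N`; `M = 2 ^ i ≤ N < 2 M`, `M ^ 2 ≤ X`, so
`i ≤ log X / (2 log 2) ≤ 0.73 log X` and there are at most `1 + 0.73 log X ≤ L` values of `i`
(`i ∈ range (⌊0.73 log X⌋₊ + 1)`).  Fix `i`, `M = 2 ^ i`, `m = √(√M)`, so `m ^ 4 = M`,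
`m ^ 8 = M ^ 2 ≤ X`, `m ^ 9 ≤ X ^ (9/8)`, `1 ≤ M ≤ X`, so the divisor bound `T` applies to
`n ≤ (16 M) ^ 20`.  `Λ = 2 L`: `1 + log (3 m ^ 2) ≤ 1 + 1.1 + log X ≤ 2 L` (`m ^ 2 ≤ m ^ 8 ≤ X`,
`log 3 ≤ 1.1`).
The part with `(oddPart ..) ^ 4 < M ^ 5` has at most `8 T ^ 4 (X + m ^ 9) ≤ 16 T ^ 4 X ^ (9/8)`
elements by `small`.  The rest: `w = oddPart (y1 t y) ≥ 1`, `w ^ 2 ≤ 4 N ^ 3` (by `solA` with
`Y = w`, or directly) `≤ 4 X ^ (3/2)`, so `w ≤ 2 X ^ (3/4) ≤ 2 X`.  Map to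
`j = Nat.log 2 w ≤ 1 + 1.5 log X`, `Y = 2 ^ j ≤ w < 2 Y`: at most `2 + 1.5 log X ≤ 2 L` values
of `j`, each fibre has at most `14000 T ^ 4 (2 L) ^ 2 m ^ 9` elements by `solL`.
Total `≤ L (16 T ^ 4 X ^ (9/8) + 2 L * 14000 T ^ 4 * 4 L ^ 2 X ^ (9/8))
≤ 10 ^ 6 T ^ 4 L ^ 4 X ^ (9/8)`.
-/

set_option autoImplicit false

namespace Pool.Agent.FTA

private theorem log_aux (i n : ℕ) (h : 2 ^ i ≤ n) : (i : ℝ) * Real.log 2 ≤ Real.log n := by
  rw [← Real.log_pow]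
  apply Real.log_le_log (by positivity)
  exact_mod_cast h

private theorem blk (X : ℕ) (hX : 1 ≤ X) (T : ℝ) (hT1 : 1 ≤ T)
    (hT : ∀ n : ℕ, 1 ≤ n → n ≤ (16 * X) ^ 20 → (n.divisors.card : ℝ) ≤ T) (i : ℕ)
    (S : Finset (ℕ × ℕ × ℤ × ℤ))
    (hS : ∀ q ∈ S, (Sol q.1 q.2.1 q.2.2.1 q.2.2.2 ∧ q.1 ≤ X) ∧ Nat.log 2 q.2.1 = i) :
    (S.card : ℝ) ≤ 113000 * T ^ 4 * (2 + Real.log X) ^ 3 * (X : ℝ) ^ (9 / 8 : ℝ) := by
  classical
  have hX1 : (1 : ℝ) ≤ X := by exact_mod_cast hX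
  have hX0 : (0 : ℝ) < X := by linarith
  have hlog : 0 ≤ Real.log X := Real.log_nonneg hX1
  have hl2 : 0.6931471803 < Real.log 2 := Real.log_two_gt_d9
  rcases S.eq_empty_or_nonempty with rfl | ⟨q0, hq0⟩
  · rw [Finset.card_empty, Nat.cast_zero]
    positivity
  set L := 2 + Real.log X with hL
  have hL2 : 2 ≤ L := by linarith
  have hbox : ∀ q ∈ S, 2 ^ i ≤ q.2.1 ∧ q.2.1 < 2 * 2 ^ i ∧ q.2.1 ^ 2 ≤ X ∧ 2 ≤ q.2.1 := by
    intro q hq
    obtain ⟨⟨hs, hD⟩, hi⟩ := hS q hq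
    obtain ⟨h1, h2, -⟩ := hs
    refine ⟨?_, ?_, h2.trans hD, h1⟩
    · rw [← hi]
      exact Nat.pow_log_le_self 2 (by omega)
    · rw [← hi, ← pow_succ']
      exact Nat.lt_pow_succ_log_self (by norm_num) _
  obtain ⟨hb1, hb2, hb3, hb4⟩ := hbox q0 hq0
  set M : ℕ := 2 ^ i with hM
  have hM1 : 1 ≤ M := Nat.one_le_two_pow
  have hM2X : M ^ 2 ≤ X := (Nat.pow_le_pow_left hb1 2).trans hb3
  have hMX : M ≤ X := (Nat.le_self_pow (by norm_num) M).trans hM2X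
  set m : ℝ := √(√(M : ℝ)) with hm
  have hM1' : (1 : ℝ) ≤ M := by exact_mod_cast hM1
  have hs1 : 1 ≤ √(M : ℝ) := by rw [Real.one_le_sqrt]; exact hM1'
  have hm1 : 1 ≤ m := by rw [hm, Real.one_le_sqrt]; exact hs1
  have hm0 : 0 < m := by linarith
  have hm2 : m ^ 2 = √(M : ℝ) := Real.sq_sqrt (by positivity)
  have hm4 : m ^ 4 = (M : ℝ) := by
    rw [show m ^ 4 = (m ^ 2) ^ 2 by ring, hm2]
    exact Real.sq_sqrt (by positivity)
  have hm8 : m ^ 8 ≤ X := by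
    rw [show m ^ 8 = (m ^ 4) ^ 2 by ring, hm4]
    exact_mod_cast hM2X
  set R := (X : ℝ) ^ (9 / 8 : ℝ) with hR
  have hXR : (X : ℝ) ≤ R := by
    have := Real.rpow_le_rpow_of_exponent_le hX1 (show (1 : ℝ) ≤ 9 / 8 by norm_num)
    rwa [Real.rpow_one] at this
  have hR0 : 0 < R := by linarith
  have hm9 : m ^ 9 ≤ R := by
    have h1 : m ^ 9 = (m ^ 8) ^ (9 / 8 : ℝ) := by
      rw [← Real.rpow_natCast m 8, ← Real.rpow_natCast m 9, ← Real.rpow_mul hm0.le]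
      congr 1
      norm_num
    rw [h1]
    exact Real.rpow_le_rpow (by positivity) hm8 (by norm_num)
  have hTM : ∀ n : ℕ, 1 ≤ n → n ≤ (16 * M) ^ 20 → (n.divisors.card : ℝ) ≤ T := by
    intro n h1 h2
    exact hT n h1 (h2.trans (Nat.pow_le_pow_left (Nat.mul_le_mul_left 16 hMX) 20))
  have hT0 : 0 < T := by linarith
  -- small part
  have hsm := small M X m T hm0 hm4 hT1 hTM
    (S.filter (fun q => (oddPart (y1 q.2.2.1 q.2.2.2)) ^ 4 < M ^ 5)) (by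
      intro q hq
      rw [Finset.mem_filter] at hq
      obtain ⟨hq, h1⟩ := hq
      obtain ⟨k1, k2, -, -⟩ := hbox q hq
      obtain ⟨⟨hs, hD⟩, -⟩ := hS q hq
      exact ⟨hs, hD, k1, k2, h1⟩)
  have hsm2 : 8 * T ^ 4 * ((X : ℝ) + m ^ 9) ≤ 16 * T ^ 4 * R := by
    have : (X : ℝ) + m ^ 9 ≤ 2 * R := by linarith
    calc 8 * T ^ 4 * ((X : ℝ) + m ^ 9) ≤ 8 * T ^ 4 * (2 * R) := by gcongr
      _ = _ := by ring
  -- large part
  have hla := fib_const (S.filter (fun q => ¬ (oddPart (y1 q.2.2.1 q.2.2.2)) ^ 4 < M ^ 5))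
    (fun q => Nat.log 2 (oddPart (y1 q.2.2.1 q.2.2.2)))
    (Finset.range (⌊1 + 1.5 * Real.log X⌋₊ + 1)) (by
      intro q hq
      rw [Finset.mem_filter, not_lt] at hq
      obtain ⟨hq, h1⟩ := hq
      obtain ⟨k1, k2, k3, k4⟩ := hbox q hq
      obtain ⟨⟨hs, hD⟩, -⟩ := hS q hq
      set w := oddPart (y1 q.2.2.1 q.2.2.2) with hw
      have hw1 : 1 ≤ w := by
        rcases Nat.eq_zero_or_pos w with h | h
        · rw [h] at h1
          have : 0 < M ^ 5 := by positivity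
          omega
        · exact h
      have hA := solA M w q.1 q.2.1 _ _ hs k1 k2 le_rfl (by omega) h1
      obtain ⟨-, -, -, -, -, -, -, -, hwN, -⟩ := hA
      have hwN' : w ^ 2 ≤ 4 * q.2.1 ^ 3 := hwN
      have hN1 : q.2.1 ≤ X := (Nat.le_self_pow (by norm_num) _).trans k3
      have hN3 : q.2.1 ^ 3 ≤ X ^ 2 := by
        calc q.2.1 ^ 3 = q.2.1 ^ 2 * q.2.1 := by ring
          _ ≤ X * X := Nat.mul_le_mul k3 hN1
          _ = _ := by ring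
      have hw2X : w ≤ 2 * X := by
        have : w ^ 2 ≤ (2 * X) ^ 2 := by
          calc w ^ 2 ≤ 4 * q.2.1 ^ 3 := hwN'
            _ ≤ 4 * X ^ 2 := Nat.mul_le_mul_left 4 hN3
            _ = _ := by ring
        exact (Nat.pow_le_pow_iff_left (by norm_num)).1 this
      have h3 : 2 ^ (Nat.log 2 w) ≤ 2 * X := (Nat.pow_log_le_self 2 (by omega)).trans hw2X
      have h4 := log_aux _ _ h3
      push_cast at h4
      rw [Real.log_mul (by norm_num) hX0.ne'] at h4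
      rw [Finset.mem_range, Nat.lt_succ_iff]
      apply Nat.le_floor
      have h5 : (0 : ℝ) ≤ (Nat.log 2 w : ℕ) := Nat.cast_nonneg _
      by_contra hcon
      push Not at hcon
      have h6 : ((Nat.log 2 w : ℕ) : ℝ) * Real.log 2 > (1 + 1.5 * Real.log X) * Real.log 2 :=
        mul_lt_mul_of_pos_right hcon (by linarith)
      nlinarith)
    (14000 * T ^ 4 * (2 * L) ^ 2 * m ^ 9) (by
      intro j _
      apply solL M (2 ^ j) m T (2 * L) hm0 hm4 hT1 hTM (by linarith)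
      · have h1 : m ^ 2 ≤ X := (pow_le_pow_right₀ hm1 (by norm_num)).trans hm8
        have h2 : Real.log (3 * m ^ 2) ≤ Real.log (3 * X) :=
          Real.log_le_log (by positivity) (by linarith)
        rw [Real.log_mul (by norm_num) hX0.ne'] at h2
        have h3 : Real.log 3 ≤ 3 - 1 := Real.log_le_sub_one_of_pos (by norm_num)
        linarith
      · intro q hq
        rw [Finset.mem_filter, Finset.mem_filter, not_lt] at hq
        obtain ⟨⟨hq, h1⟩, h2⟩ := hq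
        obtain ⟨k1, k2, k3, k4⟩ := hbox q hq
        obtain ⟨⟨hs, hD⟩, -⟩ := hS q hq
        have hw0 : oddPart (y1 q.2.2.1 q.2.2.2) ≠ 0 := by
          intro h
          rw [h] at h1
          have : 0 < M ^ 5 := by positivity
          omega
        refine ⟨hs, k1, k2, ?_, ?_, h1⟩
        · rw [← h2]
          exact Nat.pow_log_le_self 2 hw0
        · rw [← h2, ← pow_succ']
          exact Nat.lt_pow_succ_log_self (by norm_num) _)
  have hcnt : (((Finset.range (⌊1 + 1.5 * Real.log X⌋₊ + 1)).card : ℕ) : ℝ) ≤ 2 * L := by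
    rw [Finset.card_range]
    push_cast
    have := Nat.floor_le (show 0 ≤ 1 + 1.5 * Real.log X by positivity)
    linarith
  have hla2 : (((S.filter (fun q => ¬ (oddPart (y1 q.2.2.1 q.2.2.2)) ^ 4 < M ^ 5)).card : ℕ) : ℝ) ≤
      112000 * (T ^ 4 * L ^ 3 * R) := by
    refine hla.trans ?_
    calc _ ≤ (2 * L) * (14000 * T ^ 4 * (2 * L) ^ 2 * m ^ 9) :=
          mul_le_mul_of_nonneg_right hcnt (by positivity)
      _ ≤ (2 * L) * (14000 * T ^ 4 * (2 * L) ^ 2 * R) := by gcongr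
      _ = _ := by ring
  have hsplit := Finset.card_filter_add_card_filter_not (s := S)
    (fun q => (oddPart (y1 q.2.2.1 q.2.2.2)) ^ 4 < M ^ 5)
  have hsplit' : (S.card : ℝ) =
      ((S.filter (fun q => (oddPart (y1 q.2.2.1 q.2.2.2)) ^ 4 < M ^ 5)).card : ℝ) +
      ((S.filter (fun q => ¬ (oddPart (y1 q.2.2.1 q.2.2.2)) ^ 4 < M ^ 5)).card : ℝ) := by
    rw [← hsplit]
    push_cast
    rfl
  rw [hsplit']
  have hL3 : 1 ≤ L ^ 3 := one_le_pow₀ (by linarith)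
  have h16 : 16 * T ^ 4 * R ≤ 16 * (T ^ 4 * L ^ 3 * R) := by
    have h1 : 0 ≤ T ^ 4 * R := by positivity
    nlinarith
  have hnn : 0 ≤ T ^ 4 * L ^ 3 * R := by positivity
  calc _ ≤ 16 * (T ^ 4 * L ^ 3 * R) + 112000 * (T ^ 4 * L ^ 3 * R) :=
        add_le_add ((hsm.trans hsm2).trans h16) hla2
    _ ≤ 113000 * (T ^ 4 * L ^ 3 * R) := by linarith
    _ = _ := by ring

theorem intA (X : ℕ) (hX : 1 ≤ X) (T : ℝ) (hT1 : 1 ≤ T)
    (hT : ∀ n : ℕ, 1 ≤ n → n ≤ (16 * X) ^ 20 → (n.divisors.card : ℝ) ≤ T)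
    (S : Finset (ℕ × ℕ × ℤ × ℤ))
    (hS : ∀ q ∈ S, Sol q.1 q.2.1 q.2.2.1 q.2.2.2 ∧ q.1 ≤ X) :
    (S.card : ℝ) ≤ 10 ^ 6 * T ^ 4 * (2 + Real.log X) ^ 4 * (X : ℝ) ^ (9 / 8 : ℝ) := by
  classical
  have hX1 : (1 : ℝ) ≤ X := by exact_mod_cast hX
  have hX0 : (0 : ℝ) < X := by linarith
  have hlog : 0 ≤ Real.log X := Real.log_nonneg hX1
  have hl2 : 0.6931471803 < Real.log 2 := Real.log_two_gt_d9
  have hfib := fib_const S (fun q => Nat.log 2 q.2.1) (Finset.range (⌊Real.log X⌋₊ + 1)) (by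
      intro q hq
      obtain ⟨⟨h1, h2, -⟩, hD⟩ := hS q hq
      have h3 : 2 ^ (Nat.log 2 q.2.1) ≤ q.2.1 := Nat.pow_log_le_self 2 (by omega)
      have h4 : 2 ^ (2 * Nat.log 2 q.2.1) ≤ X := by
        calc 2 ^ (2 * Nat.log 2 q.2.1) = (2 ^ (Nat.log 2 q.2.1)) ^ 2 := by
              rw [mul_comm, pow_mul]
          _ ≤ q.2.1 ^ 2 := Nat.pow_le_pow_left h3 2
          _ ≤ X := h2.trans hD
      have h5 := log_aux _ _ h4
      push_cast at h5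
      rw [Finset.mem_range, Nat.lt_succ_iff]
      apply Nat.le_floor
      have h6 : (0 : ℝ) ≤ (Nat.log 2 q.2.1 : ℕ) := Nat.cast_nonneg _
      nlinarith)
    (113000 * T ^ 4 * (2 + Real.log X) ^ 3 * (X : ℝ) ^ (9 / 8 : ℝ)) (by
      intro i _
      apply blk X hX T hT1 hT i
      intro q hq
      rw [Finset.mem_filter] at hq
      exact ⟨hS q hq.1, hq.2⟩)
  have hcnt : (((Finset.range (⌊Real.log X⌋₊ + 1)).card : ℕ) : ℝ) ≤ 2 + Real.log X := by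
    rw [Finset.card_range]
    push_cast
    have := Nat.floor_le hlog
    linarith
  have hT0 : 0 < T := by linarith
  have hR0 : 0 < (X : ℝ) ^ (9 / 8 : ℝ) := Real.rpow_pos_of_pos hX0 _
  refine hfib.trans ?_
  calc _ ≤ (2 + Real.log X) * (113000 * T ^ 4 * (2 + Real.log X) ^ 3 * (X : ℝ) ^ (9 / 8 : ℝ)) :=
        mul_le_mul_of_nonneg_right hcnt (by positivity)
    _ = 113000 * (T ^ 4 * (2 + Real.log X) ^ 4 * (X : ℝ) ^ (9 / 8 : ℝ)) := by ring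
    _ ≤ 10 ^ 6 * (T ^ 4 * (2 + Real.log X) ^ 4 * (X : ℝ) ^ (9 / 8 : ℝ)) := by
        gcongr
        norm_num
    _ = _ := by ring


end Pool.Agent.FTA
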