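import Pool.Agent.FTA.DefsC

/-!
# FTA/IntDiv: division by an odd integer

PROOF of `intDiv`.  Let `A = ((a : K) : ℂ)`.  From `ha`: `2 Re A = t` and `4 |A| ^ 2 =
t ^ 2 + D y ^ 2` (`D = aD K`); and `|A| ^ 2 = A * conj A` is the norm of `a`, an integer `ν`
(`norm_eq`, `Algebra.coe_norm_int`): `4 ν = t ^ 2 + D y ^ 2`.  As `n ∣ t`, `n ∣ y`,
`n ^ 2 ∣ 4 ν`, so `n ^ 2 ∣ ν` (`n` odd).  Put `β = (a : K) / n ∈ K`.  Then
`β ^ 2 - (t / n) β + ν / n ^ 2 = 0` (in `ℂ`: `A ^ 2 - t A + ν = 0` as `A + conj A = t`,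
`A conj A = ν`), a monic polynomial with integral coefficients, so `β` is integral over `ℤ` and
`β ∈ 𝓞 K`; `a = n * β`.
-/

set_option autoImplicit false

namespace Pool.Agent.FTA

open NumberField

theorem intDiv (K : IntermediateField ℚ ℂ) [NumberField K] (h2 : Module.finrank ℚ K = 2)
    (him : ∃ x : K, (x : ℂ).im ≠ 0) (a : 𝓞 K) (t y : ℤ)
    (ha : 2 * ((a : K) : ℂ) = (t : ℂ) + (y : ℂ) * ((√(aD K : ℝ) : ℝ) : ℂ) * Complex.I)
    (n : ℕ) (hn : Odd n) (ht : (n : ℤ) ∣ t) (hy : (n : ℤ) ∣ y) :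
    ∃ b : 𝓞 K, a = (n : 𝓞 K) * b := by
  have hn0 : n ≠ 0 := by
    rintro rfl
    exact absurd hn (by decide)
  obtain ⟨t', rfl⟩ := ht
  obtain ⟨y', rfl⟩ := hy
  set A : ℂ := ((a : K) : ℂ) with hA
  set ν : ℤ := Algebra.norm ℤ a with hν
  have hnorm : (ν : ℂ) = A * (starRingEnd ℂ) A := by
    have h1 := norm_eq K h2 him (a : K)
    rw [← Algebra.coe_norm_int a] at h1
    rw [← h1, hν]
    simp
  have hre : 2 * A.re = (((n : ℤ) * t' : ℤ) : ℝ) := by
    have h1 := congrArg Complex.re ha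
    simp only [Complex.mul_re, Complex.add_re, Complex.intCast_re, Complex.intCast_im,
      Complex.ofReal_re, Complex.ofReal_im, Complex.I_re, Complex.I_im, Complex.mul_im,
      Complex.re_ofNat, Complex.im_ofNat] at h1
    linarith
  have himm : 2 * A.im = (((n : ℤ) * y' : ℤ) : ℝ) * √(aD K : ℝ) := by
    have h1 := congrArg Complex.im ha
    simp only [Complex.mul_re, Complex.add_im, Complex.intCast_re, Complex.intCast_im,
      Complex.ofReal_re, Complex.ofReal_im, Complex.I_re, Complex.I_im, Complex.mul_im,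
      Complex.re_ofNat, Complex.im_ofNat] at h1
    linarith
  have hD : √(aD K : ℝ) ^ 2 = (aD K : ℝ) := Real.sq_sqrt (Nat.cast_nonneg _)
  have hνR : (ν : ℝ) = A.re ^ 2 + A.im ^ 2 := by
    have h1 : (ν : ℂ) = ((A.re ^ 2 + A.im ^ 2 : ℝ) : ℂ) := by
      rw [hnorm, Complex.mul_conj, Complex.normSq_apply]
      push_cast
      ring
    exact_mod_cast h1
  have h4 : 4 * ν = ((n : ℤ) ^ 2) * (t' ^ 2 + (aD K : ℤ) * y' ^ 2) := by
    have h5 : (4 * (ν : ℝ)) = ((n : ℝ) ^ 2) * ((t' : ℝ) ^ 2 + (aD K : ℝ) * (y' : ℝ) ^ 2) := by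
      rw [hνR]
      have e1 : 4 * (A.re ^ 2 + A.im ^ 2) = (2 * A.re) ^ 2 + (2 * A.im) ^ 2 := by ring
      rw [e1, hre, himm, mul_pow, hD]
      push_cast
      ring
    exact_mod_cast h5
  have hcop : IsCoprime ((n : ℤ) ^ 2) 4 := by
    have h5 : IsCoprime (n : ℤ) 2 := by
      rw [Int.isCoprime_iff_gcd_eq_one]
      have := Nat.Coprime.symm (Nat.coprime_two_left.mpr hn)
      simpa [Int.gcd] using this
    have h6 : (4 : ℤ) = 2 ^ 2 := by norm_num
    rw [h6]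
    exact h5.pow
  obtain ⟨ν', hν'⟩ : (n : ℤ) ^ 2 ∣ ν := hcop.dvd_of_dvd_mul_left (Dvd.intro _ h4.symm)
  have hnK : (n : K) ≠ 0 := by exact_mod_cast hn0
  -- the quadratic equation
  have hquad : (a : K) ^ 2 - ((n : K) * (t' : K)) * (a : K) + (n : K) ^ 2 * (ν' : K) = 0 := by
    have h5 : A ^ 2 - (((n : ℤ) * t' : ℤ) : ℂ) * A + (ν : ℂ) = 0 := by
      have h6 : (((n : ℤ) * t' : ℤ) : ℂ) = A + (starRingEnd ℂ) A := by
        apply Complex.ext
        · rw [Complex.intCast_re, Complex.add_re, Complex.conj_re, ← hre]; ring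
        · rw [Complex.intCast_im, Complex.add_im, Complex.conj_im]; ring
      rw [h6, hnorm]
      ring
    rw [hν'] at h5
    apply Subtype.ext
    push_cast at h5 ⊢
    rw [← h5]
  have hint : IsIntegral ℤ ((a : K) / (n : K)) := by
    refine ⟨Polynomial.X ^ 2 - Polynomial.C t' * Polynomial.X + Polynomial.C ν', ?_, ?_⟩
    · monicity!
    · rw [Polynomial.eval₂_add, Polynomial.eval₂_sub, Polynomial.eval₂_mul, Polynomial.eval₂_pow,
        Polynomial.eval₂_X, Polynomial.eval₂_C, Polynomial.eval₂_C]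
      simp only [algebraMap_int_eq, eq_intCast]
      field_simp
      linear_combination hquad
  obtain ⟨b, hb⟩ : ∃ b : 𝓞 K, (b : K) = (a : K) / (n : K) := ⟨⟨_, hint⟩, rfl⟩
  refine ⟨b, ?_⟩
  apply RingOfIntegers.ext
  have h7 : (((n : 𝓞 K) * b : 𝓞 K) : K) = (n : K) * (b : K) := by
    simp
  rw [h7, hb]
  field_simp

end Pool.Agent.FTA
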