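import Pool.Agent.FTA.IntA
import Pool.Agent.FTA.DivB

/-!
# FTA/IntMain: the number of solutions, final form

PROOF of `intMain`.  Let `δ = ε / 84`.  `divisor_bound` gives `c > 0` with
`card (divisors n) ≤ c n ^ δ` for `n ≠ 0`.  For `X ≥ 1` put
`T = max 1 (c ((16 X) ^ 20) ^ δ)`; then `T ^ 4 ≤ C₁ X ^ (80 δ)`, with `C₁` depending only on
`c, δ` (e.g. `T ≤ (1 + c 16 ^ (20 δ)) X ^ (20 δ)`), and
`(2 + log X) ^ 4 ≤ C₂ X ^ (4 δ)` (`log X ≤ X ^ δ / δ`, `Real.log_le_rpow_div`, so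
`2 + log X ≤ (2 + 1 / δ) X ^ δ`).  Then `intA` gives
`card S ≤ 10 ^ 6 C₁ C₂ X ^ (9/8 + 84 δ)`.
-/

set_option autoImplicit false

namespace Pool.Agent.FTA

theorem intMain (ε : ℝ) (hε : 0 < ε) : ∃ C : ℝ, 0 < C ∧ ∀ X : ℕ, 1 ≤ X →
    ∀ S : Finset (ℕ × ℕ × ℤ × ℤ), (∀ q ∈ S, Sol q.1 q.2.1 q.2.2.1 q.2.2.2 ∧ q.1 ≤ X) →
      (S.card : ℝ) ≤ C * (X : ℝ) ^ (9 / 8 + ε) := by
  obtain ⟨δ, hδ⟩ : ∃ δ : ℝ, δ = ε / 84 := ⟨_, rfl⟩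
  have hδ0 : 0 < δ := by rw [hδ]; positivity
  obtain ⟨c, hc, hdiv⟩ := divisor_bound hδ0
  obtain ⟨A, hA⟩ : ∃ A : ℝ, A = c * ((16 : ℝ) ^ 20) ^ δ := ⟨_, rfl⟩
  have hA0 : 0 < A := by rw [hA]; positivity
  refine ⟨10 ^ 6 * (1 + A) ^ 4 * (2 + 1 / δ) ^ 4, by positivity, ?_⟩
  intro X hX S hS
  have hX1 : (1 : ℝ) ≤ X := by exact_mod_cast hX
  have hX0 : (0 : ℝ) < X := by linarith
  obtain ⟨Z, hZ⟩ : ∃ Z : ℝ, Z = (X : ℝ) ^ δ := ⟨_, rfl⟩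
  have hZ1 : 1 ≤ Z := by rw [hZ]; exact Real.one_le_rpow hX1 hδ0.le
  obtain ⟨T, hT⟩ : ∃ T : ℝ, T = (1 + A) * Z ^ 20 := ⟨_, rfl⟩
  have hZ20 : 1 ≤ Z ^ 20 := one_le_pow₀ hZ1
  have hT1 : 1 ≤ T := by
    rw [hT]
    nlinarith
  have hTb : ∀ n : ℕ, 1 ≤ n → n ≤ (16 * X) ^ 20 → (n.divisors.card : ℝ) ≤ T := by
    intro n hn hn2
    have h1 := hdiv n (by omega)
    have h2 : (n : ℝ) ≤ ((16 : ℝ) ^ 20) * (X : ℝ) ^ 20 := by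
      have : (n : ℝ) ≤ ((16 * X) ^ 20 : ℕ) := by exact_mod_cast hn2
      rw [← mul_pow]
      exact_mod_cast this
    have h3 : (n : ℝ) ^ δ ≤ (((16 : ℝ) ^ 20) * (X : ℝ) ^ 20) ^ δ :=
      Real.rpow_le_rpow (by positivity) h2 hδ0.le
    rw [Real.mul_rpow (by positivity) (by positivity)] at h3
    have h4 : ((X : ℝ) ^ 20) ^ δ = Z ^ 20 := by
      rw [hZ, ← Real.rpow_natCast, ← Real.rpow_natCast, ← Real.rpow_mul hX0.le,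
        ← Real.rpow_mul hX0.le, mul_comm]
    rw [h4] at h3
    calc (n.divisors.card : ℝ) ≤ c * (n : ℝ) ^ δ := h1
      _ ≤ c * (((16 : ℝ) ^ 20) ^ δ * Z ^ 20) := mul_le_mul_of_nonneg_left h3 hc.le
      _ = A * Z ^ 20 := by rw [hA]; ring
      _ ≤ T := by
        rw [hT]
        nlinarith
  have hmain := intA X hX T hT1 hTb S hS
  have hlog : 2 + Real.log X ≤ (2 + 1 / δ) * Z := by
    have h := Real.log_le_rpow_div hX0.le hδ0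
    rw [← hZ] at h
    have : Z / δ = 1 / δ * Z := by ring
    rw [this] at h
    nlinarith
  have hlog0 : 0 ≤ 2 + Real.log X := by
    have := Real.log_nonneg hX1
    linarith
  have hlog4 : (2 + Real.log X) ^ 4 ≤ ((2 + 1 / δ) * Z) ^ 4 :=
    pow_le_pow_left₀ hlog0 hlog 4
  have hZ84 : Z ^ 84 = (X : ℝ) ^ ε := by
    rw [hZ, ← Real.rpow_natCast, ← Real.rpow_mul hX0.le, hδ]
    congr 1
    push_cast
    ring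
  calc (S.card : ℝ) ≤ 10 ^ 6 * T ^ 4 * (2 + Real.log X) ^ 4 * (X : ℝ) ^ (9 / 8 : ℝ) := hmain
    _ ≤ 10 ^ 6 * T ^ 4 * ((2 + 1 / δ) * Z) ^ 4 * (X : ℝ) ^ (9 / 8 : ℝ) := by gcongr
    _ = 10 ^ 6 * (1 + A) ^ 4 * (2 + 1 / δ) ^ 4 * ((X : ℝ) ^ (9 / 8 : ℝ) * Z ^ 84) := by
      rw [hT]
      ring
    _ = 10 ^ 6 * (1 + A) ^ 4 * (2 + 1 / δ) ^ 4 * (X : ℝ) ^ (9 / 8 + ε) := by
      rw [hZ84, ← Real.rpow_add hX0]

end Pool.Agent.FTA
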