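import Pool.Agent.FTA.Defs

/-!
# FTA/Par: the sizes of the parameters

PROOF of `par`.  `M ≤ N < 2 M` gives `M ≥ 1`, so `m ≥ 1` (`m ^ 4 ≥ 1`).  `w < 2 Y` gives
`Y ≥ 1`.  `Y ^ 2 ≤ w ^ 2 ≤ 4 N ^ 3 ≤ 32 M ^ 3 = 32 m ^ 12`, so `Y ≤ 6 m ^ 6`
(`36 m ^ 12 ≥ 32 m ^ 12`), so `P ^ 2 = Y / m ^ 2 ≤ 6 m ^ 4`.
`P ≥ 1`: it is enough that `m ^ 2 ≤ Y`, i.e. `M ≤ Y ^ 2`.  From `M ^ 5 ≤ w ^ 4 < 16 Y ^ 4`:
for `M = 1` clear (`Y ≥ 1`); for `M = 2` we get `Y ^ 4 > 2`, so `Y ≥ 2`; for `M ≥ 3`: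
`16 Y ^ 4 > M ^ 5 ≥ 27 M ^ 2 ≥ 16 M ^ 2`, so `Y ^ 2 ≥ M`.
-/

set_option autoImplicit false

namespace Pool.Agent.FTA

theorem par (M Y N w : ℕ) (t : ℤ) (h : IsA M Y N w t) (m P : ℝ)
    (hm : 0 < m) (hm4 : m ^ 4 = (M : ℝ)) (hP : 0 < P) (hPY : P ^ 2 * m ^ 2 = (Y : ℝ)) :
    1 ≤ M ∧ 1 ≤ Y ∧ 1 ≤ m ∧ 1 ≤ P ∧ P ^ 2 ≤ 6 * m ^ 4 ∧ (Y : ℝ) ≤ 6 * m ^ 6 := by
  obtain ⟨hMN, hN2, hYw, hwY, -, -, -, -, hw3, hw5⟩ := h
  have hM1 : 1 ≤ M := by omega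
  have hY1 : 1 ≤ Y := by omega
  have hm1 : 1 ≤ m := by
    by_contra hcon
    push Not at hcon
    have h1 : m ^ 4 < 1 := pow_lt_one₀ hm.le hcon (by norm_num)
    rw [hm4] at h1
    have h2 : (1 : ℝ) ≤ (M : ℝ) := by exact_mod_cast hM1
    linarith
  have hYsq : M ≤ Y ^ 2 := by
    by_contra hcon
    push Not at hcon
    have hw4 : w ^ 4 ≤ (2 * Y) ^ 4 := Nat.pow_le_pow_left hwY.le 4
    rcases Nat.lt_or_ge M 3 with hM3 | hM3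
    · have hYb : Y < 2 := by
        by_contra hc
        push Not at hc
        have : 2 ^ 2 ≤ Y ^ 2 := Nat.pow_le_pow_left hc 2
        omega
      have hYe : Y = 1 := by omega
      subst hYe
      have hMe : M = 2 := by omega
      subst hMe
      have hwe : w = 1 := by omega
      subst hwe
      norm_num at hw5
    · have h1 : M ^ 5 ≤ 16 * Y ^ 4 := by
        calc M ^ 5 ≤ w ^ 4 := hw5
          _ ≤ (2 * Y) ^ 4 := hw4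
          _ = 16 * Y ^ 4 := by ring
      have h2 : 27 * M ^ 2 ≤ M ^ 5 := by
        calc 27 * M ^ 2 = 3 ^ 3 * M ^ 2 := by norm_num
          _ ≤ M ^ 3 * M ^ 2 := Nat.mul_le_mul_right _ (Nat.pow_le_pow_left hM3 3)
          _ = M ^ 5 := by ring
      have h3 : (Y ^ 2) ^ 2 ≤ M ^ 2 := Nat.pow_le_pow_left hcon.le 2
      have h4 : (Y ^ 2) ^ 2 = Y ^ 4 := by ring
      have h5 : 0 < M ^ 2 := by positivity
      omega
  have hY6 : (Y : ℝ) ≤ 6 * m ^ 6 := by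
    have h1 : Y ^ 2 ≤ 32 * M ^ 3 := by
      calc Y ^ 2 ≤ w ^ 2 := Nat.pow_le_pow_left hYw 2
        _ ≤ 4 * N ^ 3 := hw3
        _ ≤ 4 * (2 * M) ^ 3 := Nat.mul_le_mul_left _ (Nat.pow_le_pow_left hN2.le 3)
        _ = 32 * M ^ 3 := by ring
    have h2 : (Y : ℝ) ^ 2 ≤ 32 * (M : ℝ) ^ 3 := by exact_mod_cast h1
    apply le_of_sq_le_sq _ (by positivity)
    rw [← hm4] at h2
    have h3 : (6 * m ^ 6) ^ 2 = 36 * (m ^ 4) ^ 3 := by ring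
    rw [h3]
    have : 0 < (m ^ 4) ^ 3 := by positivity
    linarith
  have hP2 : P ^ 2 ≤ 6 * m ^ 4 := by
    have h1 : P ^ 2 * m ^ 2 ≤ (6 * m ^ 4) * m ^ 2 := by
      rw [hPY]
      calc (Y : ℝ) ≤ 6 * m ^ 6 := hY6
        _ = _ := by ring
    exact le_of_mul_le_mul_right h1 (by positivity)
  have hP1 : 1 ≤ P := by
    have h0 : m ^ 2 ≤ (Y : ℝ) := by
      apply le_of_sq_le_sq _ (by positivity)
      have h1 : (m ^ 2) ^ 2 = (M : ℝ) := by rw [← hm4]; ring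
      rw [h1]
      exact_mod_cast hYsq
    have h1 : 1 ≤ P ^ 2 := by
      have h2 : 1 * m ^ 2 ≤ P ^ 2 * m ^ 2 := by
        rw [hPY]; linarith
      exact le_of_mul_le_mul_right h2 (by positivity)
    by_contra hcon
    push Not at hcon
    have : P ^ 2 < 1 := pow_lt_one₀ hP.le hcon (by norm_num)
    linarith
  exact ⟨hM1, hY1, hm1, hP1, hP2, hY6⟩

end Pool.Agent.FTA
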