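import Pool.Agent.FTA.Cnt

/-!
# FTA/TCnt: the number of `t` in an interval with `t ^ 2 = n mod w ^ 2`

PROOF of `tcnt`.  If `S` is empty the right side is nonnegative.  Fix `t₀ ∈ S` and map
`t ↦ (g₁, g₂) = (Int.gcd (w ^ 2) (t - t₀), Int.gcd (w ^ 2) (t + t₀))`, a pair of divisors of
`w ^ 2`: at most `card (divisors (w ^ 2)) ^ 2` values.  We bound every fibre by
`2 * (B - A) / w ^ 2 + 1` (use `Finset.card_le_mul_card_image` or
`Finset.card_le_mul_card_image_of_maps_to` after taking the floor, or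
`Finset.card_eq_sum_card_fiberwise`).
Fibre of `(g₁, g₂)`: for `t, t'` in the fibre `g₁ ∣ t - t'` and `g₂ ∣ t - t'`, so
`L := Nat.lcm g₁ g₂ ∣ t - t'`.  Now `w ^ 2 ∣ (t - t₀) (t + t₀)` (difference of
`w ^ 2 ∣ n - t₀ ^ 2` and `w ^ 2 ∣ n - t ^ 2`), hence `w ^ 2 ∣ g₁ g₂` (if `m ∣ a b` then
`m ∣ gcd (m, a) * gcd (m, b)`, `Nat.dvd_gcd_mul_gcd_of_dvd_mul` or similar), and
`gcd (g₁, g₂) ∣ 2`: it divides `gcd (w ^ 2, 2 t)`, and `gcd (w ^ 2, t) = 1` since `t` is coprime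
to `w`.  So `L = g₁ g₂ / gcd ≥ w ^ 2 / 2`, and `cnt` gives
`card ≤ (B - A) / L + 1 ≤ 2 (B - A) / w ^ 2 + 1`.
-/

set_option autoImplicit false

namespace Pool.Agent.FTA

private theorem TCnt_lcm (w : ℕ) (hw : 1 ≤ w) (n t t₀ : ℤ) (hc : IsCoprime t (w : ℤ))
    (h1 : (w : ℤ) ^ 2 ∣ n - t ^ 2) (h2 : (w : ℤ) ^ 2 ∣ n - t₀ ^ 2) :
    w ^ 2 ≤ 2 * Nat.lcm (Nat.gcd (w ^ 2) (t - t₀).natAbs) (Nat.gcd (w ^ 2) (t + t₀).natAbs) := by
  have hw2 : 0 < w ^ 2 := by positivity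
  set g₁ := Nat.gcd (w ^ 2) (t - t₀).natAbs with hg1
  set g₂ := Nat.gcd (w ^ 2) (t + t₀).natAbs with hg2
  have hdv : (w : ℤ) ^ 2 ∣ (t - t₀) * (t + t₀) := by
    have := dvd_sub h2 h1
    have e : n - t₀ ^ 2 - (n - t ^ 2) = (t - t₀) * (t + t₀) := by ring
    rwa [e] at this
  have hdn : w ^ 2 ∣ (t - t₀).natAbs * (t + t₀).natAbs := by
    have := Int.natAbs_dvd_natAbs.2 hdv
    rwa [Int.natAbs_mul, Int.natAbs_pow, Int.natAbs_natCast] at this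
  have hm : w ^ 2 ∣ g₁ * g₂ := Nat.dvd_gcd_mul_gcd_iff_dvd_mul.2 hdn
  have hg1p : 0 < g₁ := Nat.gcd_pos_of_pos_left _ hw2
  have hg2p : 0 < g₂ := Nat.gcd_pos_of_pos_left _ hw2
  have hd2 : Nat.gcd g₁ g₂ ∣ 2 := by
    set d := Nat.gcd g₁ g₂ with hd
    have d1 : d ∣ w ^ 2 := (Nat.gcd_dvd_left _ _).trans (Nat.gcd_dvd_left _ _)
    have d2 : (d : ℤ) ∣ t - t₀ :=
      Int.natCast_dvd.2 ((Nat.gcd_dvd_left _ _).trans (Nat.gcd_dvd_right _ _))
    have d3 : (d : ℤ) ∣ t + t₀ :=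
      Int.natCast_dvd.2 ((Nat.gcd_dvd_right _ _).trans (Nat.gcd_dvd_right _ _))
    have d4 : (d : ℤ) ∣ 2 * t := by
      have := dvd_add d2 d3
      have e : t - t₀ + (t + t₀) = 2 * t := by ring
      rwa [e] at this
    have c1 : IsCoprime t ((w : ℤ) ^ 2) := hc.pow_right
    have c2 : IsCoprime (d : ℤ) t := by
      apply IsCoprime.symm
      apply c1.of_isCoprime_of_dvd_right
      exact_mod_cast d1
    have := c2.dvd_of_dvd_mul_right d4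
    exact_mod_cast this
  have h3 : Nat.gcd g₁ g₂ * Nat.lcm g₁ g₂ = g₁ * g₂ := Nat.gcd_mul_lcm _ _
  have h4 : w ^ 2 ≤ g₁ * g₂ := Nat.le_of_dvd (by positivity) hm
  have h5 : Nat.gcd g₁ g₂ ≤ 2 := Nat.le_of_dvd (by norm_num) hd2
  calc w ^ 2 ≤ g₁ * g₂ := h4
    _ = Nat.gcd g₁ g₂ * Nat.lcm g₁ g₂ := h3.symm
    _ ≤ 2 * Nat.lcm g₁ g₂ := Nat.mul_le_mul_right _ h5

theorem tcnt (w : ℕ) (hw : 1 ≤ w) (n : ℤ) (A B : ℝ) (hAB : A ≤ B) (S : Finset ℤ)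
    (h : ∀ t ∈ S, A ≤ (t : ℝ) ∧ (t : ℝ) ≤ B ∧ IsCoprime t (w : ℤ) ∧ ((w : ℤ) ^ 2 ∣ n - t ^ 2)) :
    (S.card : ℝ) ≤ ((w ^ 2).divisors.card : ℝ) ^ 2 * (2 * (B - A) / (w : ℝ) ^ 2 + 1) := by
  classical
  have hw2 : 0 < w ^ 2 := by positivity
  have hwr : (0 : ℝ) < (w : ℝ) ^ 2 := by
    have : (0 : ℝ) < w := by exact_mod_cast hw
    positivity
  have hBA : 0 ≤ B - A := by linarith
  have hR : 0 ≤ 2 * (B - A) / (w : ℝ) ^ 2 + 1 := by positivity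
  rcases S.eq_empty_or_nonempty with rfl | ⟨t₀, ht₀⟩
  · simp only [Finset.card_empty, Nat.cast_zero]
    positivity
  let f : ℤ → ℕ × ℕ := fun t => (Nat.gcd (w ^ 2) (t - t₀).natAbs, Nat.gcd (w ^ 2) (t + t₀).natAbs)
  let T : Finset (ℕ × ℕ) := (w ^ 2).divisors ×ˢ (w ^ 2).divisors
  have hf : ∀ t ∈ S, f t ∈ T := by
    intro t _
    simp only [T, f, Finset.mem_product, Nat.mem_divisors]
    exact ⟨⟨Nat.gcd_dvd_left _ _, hw2.ne'⟩, ⟨Nat.gcd_dvd_left _ _, hw2.ne'⟩⟩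
  have hcard := Finset.card_eq_sum_card_fiberwise (f := f) (s := S) (t := T)
    (fun t ht => hf t ht)
  have hfib : ∀ b ∈ T, (((S.filter (fun t => f t = b)).card : ℕ) : ℝ) ≤
      2 * (B - A) / (w : ℝ) ^ 2 + 1 := by
    intro b _
    rcases (S.filter (fun t => f t = b)).eq_empty_or_nonempty with he | ⟨t₁, ht₁⟩
    · rw [he]
      simpa using hR
    have ht₁' := Finset.mem_filter.1 ht₁
    set L := Nat.lcm b.1 b.2 with hL
    have hb : f t₁ = b := ht₁'.2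
    have hLw : w ^ 2 ≤ 2 * L := by
      have := TCnt_lcm w hw n t₁ t₀ (h t₁ ht₁'.1).2.2.1 (h t₁ ht₁'.1).2.2.2 (h t₀ ht₀).2.2.2
      rw [hL, ← hb]
      exact this
    have hL1 : 1 ≤ L := by omega
    have hdv : ∀ x ∈ S.filter (fun t => f t = b), ∀ y ∈ S.filter (fun t => f t = b),
        (L : ℤ) ∣ x - y := by
      intro x hx y hy
      have hx' : f x = b := (Finset.mem_filter.1 hx).2
      have hy' : f y = b := (Finset.mem_filter.1 hy).2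
      have a1 : b.1 ∣ (x - t₀).natAbs := by rw [← hx']; exact Nat.gcd_dvd_right _ _
      have a2 : b.1 ∣ (y - t₀).natAbs := by rw [← hy']; exact Nat.gcd_dvd_right _ _
      have a3 : b.2 ∣ (x + t₀).natAbs := by rw [← hx']; exact Nat.gcd_dvd_right _ _
      have a4 : b.2 ∣ (y + t₀).natAbs := by rw [← hy']; exact Nat.gcd_dvd_right _ _
      have c1 : (b.1 : ℤ) ∣ x - y := by
        have := dvd_sub (Int.natCast_dvd.2 a1) (Int.natCast_dvd.2 a2)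
        have e : x - t₀ - (y - t₀) = x - y := by ring
        rwa [e] at this
      have c2 : (b.2 : ℤ) ∣ x - y := by
        have := dvd_sub (Int.natCast_dvd.2 a3) (Int.natCast_dvd.2 a4)
        have e : x + t₀ - (y + t₀) = x - y := by ring
        rwa [e] at this
      rw [Int.natCast_dvd] at c1 c2 ⊢
      exact Nat.lcm_dvd c1 c2
    have hle : ∀ x ∈ S.filter (fun t => f t = b), ∀ y ∈ S.filter (fun t => f t = b),
        ((x - y : ℤ) : ℝ) ≤ B - A := by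
      intro x hx y hy
      have hx' := h x (Finset.mem_filter.1 hx).1
      have hy' := h y (Finset.mem_filter.1 hy).1
      push_cast
      linarith [hx'.2.1, hy'.1]
    refine (cnt _ L hL1 (B - A) hBA hdv hle).trans ?_
    have hLr : (w : ℝ) ^ 2 ≤ 2 * L := by exact_mod_cast hLw
    have hLp : (0 : ℝ) < L := by linarith
    have : (B - A) / L ≤ 2 * (B - A) / (w : ℝ) ^ 2 := by
      rw [div_le_div_iff₀ hLp hwr]
      nlinarith
    linarith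
  rw [hcard]
  push_cast
  calc ∑ b ∈ T, (((S.filter (fun t => f t = b)).card : ℕ) : ℝ)
      ≤ ∑ _b ∈ T, (2 * (B - A) / (w : ℝ) ^ 2 + 1) := Finset.sum_le_sum hfib
    _ = (T.card : ℝ) * (2 * (B - A) / (w : ℝ) ^ 2 + 1) := by
        rw [Finset.sum_const, nsmul_eq_mul]
    _ = _ := by
        simp only [T, Finset.card_product]
        push_cast
        ring

end Pool.Agent.FTA
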