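import Pool.Agent.FTA.Defs
import Pool.Agent.FTA.TCnt

/-!
# FTA/TBd: the number of `t` for given `(N, w)`

PROOF of `tBd`.  If `S` is empty this is clear (`0 ≤ 47 T ^ 2`).  Otherwise take the facts of
`IsA` from one element: `w ≥ 1` (`w` odd), `M ≤ N < 2 M`, `w ^ 2 ≤ 4 N ^ 3 ≤ (16 M) ^ 20`, so
`card (divisors (w ^ 2)) ≤ T`, and `M ^ 5 ≤ w ^ 4`.  Apply `tcnt w _ (4 N ^ 5) (-2 √(N ^ 5))
(2 √(N ^ 5)) S`: every `t ∈ S` has `|t| ≤ 2 √(N ^ 5)` as `t ^ 2 ≤ 4 N ^ 5`, and `t` is coprime to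
`w`: a prime `p ∣ t, w` has `p ∣ 4 N ^ 5` (as `w ^ 2 ∣ 4 N ^ 5 - t ^ 2`), `p` is odd, so `p ∣ N`,
contradiction.  So `card S ≤ τ ^ 2 (8 √(N ^ 5) / w ^ 2 + 1)`, `τ ≤ T`, and
`N ^ 5 ≤ 32 M ^ 5 ≤ 32 w ^ 4`, `√(N ^ 5) ≤ √32 w ^ 2 ≤ 5.66 w ^ 2`, so the bracket is
`≤ 8 * 5.66 + 1 ≤ 47`.
-/

set_option autoImplicit false

namespace Pool.Agent.FTA

theorem tBd (M Y N w : ℕ) (T : ℝ)
    (hT : ∀ n : ℕ, 1 ≤ n → n ≤ (16 * M) ^ 20 → (n.divisors.card : ℝ) ≤ T)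
    (S : Finset ℤ) (h : ∀ t ∈ S, IsA M Y N w t) : (S.card : ℝ) ≤ 47 * T ^ 2 := by
  rcases S.eq_empty_or_nonempty with hS | ⟨t₀, ht₀⟩
  · subst hS
    simp only [Finset.card_empty, Nat.cast_zero]
    positivity
  obtain ⟨hMN, hN2, hY1, hY2, hodd, hco, -, -, hw3, hw5⟩ := h t₀ ht₀
  have hM1 : 1 ≤ M := by omega
  have hw1 : 1 ≤ w := by
    rcases Nat.eq_zero_or_pos w with h0 | h0
    · rw [h0] at hodd
      simp at hodd
    · exact h0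
  have hw2 : 1 ≤ w ^ 2 := Nat.one_le_pow _ _ hw1
  have hN3 : N ^ 3 ≤ (2 * M) ^ 3 := Nat.pow_le_pow_left hN2.le 3
  have hbig : w ^ 2 ≤ (16 * M) ^ 20 := by
    have h1 : w ^ 2 ≤ (16 * M) ^ 3 := by
      have : (16 * M) ^ 3 = 512 * (2 * M) ^ 3 := by ring
      have h0 : 0 ≤ (2 * M) ^ 3 := Nat.zero_le _
      omega
    exact h1.trans (Nat.pow_le_pow_right (by omega) (by norm_num))
  have hτ : ((w ^ 2).divisors.card : ℝ) ≤ T := hT _ hw2 hbig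
  have hN5 : ((N : ℝ)) ^ 5 ≤ 32 * (w : ℝ) ^ 4 := by
    have h1 : N ^ 5 ≤ (2 * M) ^ 5 := Nat.pow_le_pow_left hN2.le 5
    have h2 : (2 * M) ^ 5 = 32 * M ^ 5 := by ring
    have h3 : N ^ 5 ≤ 32 * w ^ 4 := by omega
    exact_mod_cast h3
  have hwR : (0 : ℝ) < (w : ℝ) := by exact_mod_cast hw1
  have hwR2 : (0 : ℝ) < (w : ℝ) ^ 2 := by positivity
  set R : ℝ := √((N : ℝ) ^ 5) with hR
  have hR0 : 0 ≤ R := Real.sqrt_nonneg _
  have hRR : R ^ 2 = (N : ℝ) ^ 5 := Real.sq_sqrt (by positivity)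
  have hRw : R ≤ 5.75 * (w : ℝ) ^ 2 := by
    apply Real.sqrt_le_iff.2
    constructor
    · positivity
    · nlinarith [hN5, sq_nonneg ((w : ℝ) ^ 2)]
  have key := tcnt w hw1 (4 * (N : ℤ) ^ 5) (-(2 * R)) (2 * R) (by linarith) S (by
    intro t ht
    obtain ⟨-, -, -, -, -, -, hdvd, hle, -, -⟩ := h t ht
    have hleR : (t : ℝ) ^ 2 ≤ 4 * (N : ℝ) ^ 5 := by exact_mod_cast hle
    have habs : |(t : ℝ)| ≤ 2 * R := by
      apply abs_le_of_sq_le_sq _ (by positivity)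
      nlinarith
    rw [abs_le] at habs
    refine ⟨habs.1, habs.2, ?_, hdvd⟩
    rw [Int.isCoprime_iff_gcd_eq_one]
    by_contra hne
    obtain ⟨p, hp, hpd⟩ := Nat.exists_prime_and_dvd hne
    have hpt : (p : ℤ) ∣ t := (Int.natCast_dvd_natCast.2 hpd).trans (Int.gcd_dvd_left ..)
    have hpw : (p : ℤ) ∣ (w : ℤ) := (Int.natCast_dvd_natCast.2 hpd).trans (Int.gcd_dvd_right ..)
    have hpw' : p ∣ w := Int.natCast_dvd_natCast.1 hpw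
    have h4 : (p : ℤ) ∣ 4 * (N : ℤ) ^ 5 := by
      have h5 : (p : ℤ) ∣ 4 * (N : ℤ) ^ 5 - t ^ 2 :=
        (hpw.trans (dvd_pow_self _ two_ne_zero)).trans hdvd
      have h6 : (p : ℤ) ∣ t ^ 2 := hpt.trans (dvd_pow_self _ two_ne_zero)
      have := dvd_add h5 h6
      simpa using this
    have h4' : p ∣ 4 * N ^ 5 := by
      have : (p : ℤ) ∣ ((4 * N ^ 5 : ℕ) : ℤ) := by push_cast; exact h4
      exact Int.natCast_dvd_natCast.1 this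
    rcases (hp.dvd_mul).1 h4' with h7 | h7
    · have h8 : p ∣ 2 := by
        have : p ∣ 2 ^ 2 := by norm_num; exact h7
        exact hp.dvd_of_dvd_pow this
      have h9 : 2 = p := ((Nat.prime_dvd_prime_iff_eq hp Nat.prime_two).1 h8).symm
      rw [← h9] at hpw'
      exact (Nat.not_even_iff_odd.2 hodd) (even_iff_two_dvd.2 hpw')
    · have h8 : p ∣ N := hp.dvd_of_dvd_pow h7
      have := Nat.dvd_gcd hpw' h8
      rw [hco] at this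
      exact hp.one_lt.ne' (Nat.dvd_one.1 this))
  refine key.trans ?_
  have hbr : 2 * (2 * R - -(2 * R)) / (w : ℝ) ^ 2 + 1 ≤ 47 := by
    have : 2 * (2 * R - -(2 * R)) / (w : ℝ) ^ 2 ≤ 46 := by
      rw [div_le_iff₀ hwR2]
      linarith
    linarith
  have hbr0 : 0 ≤ 2 * (2 * R - -(2 * R)) / (w : ℝ) ^ 2 + 1 := by
    have : 0 ≤ 2 * (2 * R - -(2 * R)) := by linarith
    positivity
  have hT2 : ((w ^ 2).divisors.card : ℝ) ^ 2 ≤ T ^ 2 := pow_le_pow_left₀ (by positivity) hτ 2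
  calc ((w ^ 2).divisors.card : ℝ) ^ 2 * (2 * (2 * R - -(2 * R)) / (w : ℝ) ^ 2 + 1)
      ≤ T ^ 2 * 47 := mul_le_mul hT2 hbr hbr0 (by positivity)
    _ = 47 * T ^ 2 := by ring

end Pool.Agent.FTA
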