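import Mathlib

/-!
# FTA/TrivA: the number of `(g, c, a)` with `a c` small

PROOF of `trivA`.  Put `K = 24 m ^ 8 / P ^ 2`.  For fixed `g` (`1 ≤ g ≤ P`) the number of `(c, a)`
is at most `∑_{c ≤ P / g} K / c ≤ K Λ` (`a < K / c`; `∑_{c ≤ P / g} 1 / c ≤ 1 + log P ≤ Λ`,
`P ≤ 3 m ^ 2`) and at most `(P / g) (2 P m ^ 2 / g)`.  So it is at most the geometric mean
`√(K Λ * 2 P ^ 2 m ^ 2 / g ^ 2) = √(48 m ^ 10 Λ) / g ≤ 7 m ^ 5 √Λ / g`.  The sum over `g ≤ P` is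
`≤ 7 m ^ 5 √Λ Λ ≤ 7 m ^ 5 Λ ^ 2` (`Λ ≥ 1`).
-/

set_option autoImplicit false

namespace Pool.Agent.FTA

theorem trivA (m P Λ : ℝ) (hm : 1 ≤ m) (hP : 1 ≤ P) (hPm : P ^ 2 ≤ 6 * m ^ 4)
    (hΛ : 1 + Real.log (3 * m ^ 2) ≤ Λ) (S : Finset (ℕ × ℕ × ℕ))
    (hS : ∀ q ∈ S, 1 ≤ q.1 ∧ 1 ≤ q.2.1 ∧ 1 ≤ q.2.2 ∧ (q.1 : ℝ) * q.2.1 ≤ P ∧
      (q.1 : ℝ) * q.2.2 ≤ 2 * P * m ^ 2 ∧ (q.2.2 : ℝ) * q.2.1 < 24 * m ^ 8 / P ^ 2) :
    (S.card : ℝ) ≤ 7 * Λ ^ 2 * m ^ 5 := by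
  classical
  have hm0 : 0 < m := by linarith
  have hP0 : 0 < P := by linarith
  have hP3 : P ≤ 3 * m ^ 2 := by
    have h1 : P ^ 2 ≤ (3 * m ^ 2) ^ 2 := by nlinarith [pow_pos hm0 4]
    exact (pow_le_pow_iff_left₀ hP0.le (by positivity) two_ne_zero).1 h1
  have hlogP : 1 + Real.log P ≤ Λ := by
    have := Real.log_le_log hP0 hP3
    linarith
  have hΛ1 : 1 ≤ Λ := by
    have := Real.log_nonneg hP
    linarith
  have hharm : ∀ n : ℕ, (n : ℝ) ≤ P → ∑ c ∈ Finset.Icc 1 n, (1 / (c : ℝ)) ≤ Λ := by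
    intro n hn
    rcases Nat.eq_zero_or_pos n with h0 | h0
    · subst h0
      simp
      linarith
    · have h1 := harmonic_le_one_add_log n
      rw [harmonic_eq_sum_Icc] at h1
      push_cast at h1
      have h2 : Real.log n ≤ Real.log P := Real.log_le_log (by exact_mod_cast h0) hn
      simp only [one_div]
      linarith
  set K : ℝ := 24 * m ^ 8 / P ^ 2 with hK
  have hK0 : 0 < K := by positivity
  -- the fibre over `g`
  have hfib : ∀ g ∈ Finset.Icc 1 ⌊P⌋₊, ((S.filter fun q => q.1 = g).card : ℝ) ≤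
      7 * m ^ 5 * Λ * (1 / (g : ℝ)) := by
    intro g hg
    rw [Finset.mem_Icc] at hg
    have hg0 : (0 : ℝ) < g := by exact_mod_cast hg.1
    have hg1 : (1 : ℝ) ≤ g := by exact_mod_cast hg.1
    set T := S.filter fun q => q.1 = g with hT
    have hTmem : ∀ q ∈ T, q.1 = g ∧ 1 ≤ q.2.1 ∧ 1 ≤ q.2.2 ∧ (q.2.1 : ℝ) ≤ P / g ∧
        (q.2.2 : ℝ) ≤ 2 * P * m ^ 2 / g ∧ (q.2.2 : ℝ) * q.2.1 < K := by
      intro q hq
      rw [hT, Finset.mem_filter] at hq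
      obtain ⟨h1, h2⟩ := hq
      obtain ⟨h3, h4, h5, h6, h7, h8⟩ := hS q h1
      refine ⟨h2, h4, h5, ?_, ?_, h8⟩
      · rw [le_div_iff₀ hg0, ← h2]; linarith
      · rw [le_div_iff₀ hg0, ← h2]; linarith
    -- second bound
    have hb2 : (T.card : ℝ) ≤ (P / g) * (2 * P * m ^ 2 / g) := by
      have h1 : T.card ≤ (Finset.Icc 1 ⌊P / g⌋₊ ×ˢ Finset.Icc 1 ⌊2 * P * m ^ 2 / g⌋₊).card := by
        apply Finset.card_le_card_of_injOn (fun q => q.2)
        · intro q hq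
          obtain ⟨h1, h2, h3, h4, h5, -⟩ := hTmem q hq
          simp only [Finset.coe_product, Set.mem_prod, Finset.coe_Icc, Set.mem_Icc]
          exact ⟨⟨h2, Nat.le_floor h4⟩, ⟨h3, Nat.le_floor h5⟩⟩
        · intro q hq q' hq' h
          have h1 := (hTmem q hq).1
          have h2 := (hTmem q' hq').1
          exact Prod.ext (h1.trans h2.symm) h
      rw [Finset.card_product, Nat.card_Icc, Nat.card_Icc, Nat.add_sub_cancel,
        Nat.add_sub_cancel] at h1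
      calc (T.card : ℝ) ≤ ((⌊P / g⌋₊ * ⌊2 * P * m ^ 2 / g⌋₊ : ℕ) : ℝ) := by exact_mod_cast h1
        _ = (⌊P / g⌋₊ : ℝ) * (⌊2 * P * m ^ 2 / g⌋₊ : ℝ) := by push_cast; ring
        _ ≤ _ := by
          apply mul_le_mul (Nat.floor_le (by positivity)) (Nat.floor_le (by positivity))
            (by positivity) (by positivity)
    -- first bound
    have hb1 : (T.card : ℝ) ≤ K * Λ := by
      have hmaps : ∀ q ∈ T, q.2.1 ∈ Finset.Icc 1 ⌊P / g⌋₊ := by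
        intro q hq
        obtain ⟨h1, h2, h3, h4, -, -⟩ := hTmem q hq
        rw [Finset.mem_Icc]
        exact ⟨h2, Nat.le_floor h4⟩
      rw [Finset.card_eq_sum_card_fiberwise hmaps]
      push_cast
      have hc : ∀ c ∈ Finset.Icc 1 ⌊P / g⌋₊, ((T.filter fun q => q.2.1 = c).card : ℝ) ≤
          K * (1 / (c : ℝ)) := by
        intro c hc
        rw [Finset.mem_Icc] at hc
        have hc0 : (0 : ℝ) < c := by exact_mod_cast hc.1
        have h1 : (T.filter fun q => q.2.1 = c).card ≤ (Finset.Icc 1 ⌊K / c⌋₊).card := by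
          apply Finset.card_le_card_of_injOn (fun q => q.2.2)
          · intro q hq
            rw [Finset.mem_coe, Finset.mem_filter] at hq
            obtain ⟨h1, h2, h3, h4, h5, h6⟩ := hTmem q hq.1
            simp only [Finset.coe_Icc, Set.mem_Icc]
            refine ⟨h3, Nat.le_floor ?_⟩
            rw [le_div_iff₀ hc0, ← hq.2]
            exact h6.le
          · intro q hq q' hq' h
            rw [Finset.mem_coe, Finset.mem_filter] at hq hq'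
            have h1 := (hTmem q hq.1).1
            have h2 := (hTmem q' hq'.1).1
            exact Prod.ext (h1.trans h2.symm) (Prod.ext (hq.2.trans hq'.2.symm) h)
        rw [Nat.card_Icc, Nat.add_sub_cancel] at h1
        calc ((T.filter fun q => q.2.1 = c).card : ℝ) ≤ (⌊K / c⌋₊ : ℝ) := by exact_mod_cast h1
          _ ≤ K / c := Nat.floor_le (by positivity)
          _ = K * (1 / (c : ℝ)) := by ring
      calc ∑ c ∈ Finset.Icc 1 ⌊P / g⌋₊, ((T.filter fun q => q.2.1 = c).card : ℝ)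
          ≤ ∑ c ∈ Finset.Icc 1 ⌊P / g⌋₊, K * (1 / (c : ℝ)) := Finset.sum_le_sum hc
        _ = K * ∑ c ∈ Finset.Icc 1 ⌊P / g⌋₊, (1 / (c : ℝ)) := by rw [Finset.mul_sum]
        _ ≤ K * Λ := by
          apply mul_le_mul_of_nonneg_left _ hK0.le
          apply hharm
          calc (⌊P / g⌋₊ : ℝ) ≤ P / g := Nat.floor_le (by positivity)
            _ ≤ P := div_le_self hP0.le hg1
    have hsq : (T.card : ℝ) ^ 2 ≤ (7 * m ^ 5 * Λ * (1 / (g : ℝ))) ^ 2 := by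
      calc (T.card : ℝ) ^ 2 = (T.card : ℝ) * T.card := sq _
        _ ≤ (K * Λ) * ((P / g) * (2 * P * m ^ 2 / g)) :=
          mul_le_mul hb1 hb2 (Nat.cast_nonneg _) (by positivity)
        _ = 48 * m ^ 10 * Λ * (1 / (g : ℝ)) ^ 2 := by
          rw [hK]; field_simp; ring
        _ ≤ 49 * m ^ 10 * Λ ^ 2 * (1 / (g : ℝ)) ^ 2 := by
          apply mul_le_mul_of_nonneg_right _ (by positivity)
          have h1 : 0 ≤ m ^ 10 * Λ := by positivity
          nlinarith [mul_nonneg h1 (sub_nonneg.2 hΛ1)]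
        _ = _ := by ring
    exact (pow_le_pow_iff_left₀ (Nat.cast_nonneg _) (by positivity) two_ne_zero).1 hsq
  have hmapsG : ∀ q ∈ S, q.1 ∈ Finset.Icc 1 ⌊P⌋₊ := by
    intro q hq
    obtain ⟨h3, h4, h5, h6, h7, h8⟩ := hS q hq
    rw [Finset.mem_Icc]
    refine ⟨h3, Nat.le_floor ?_⟩
    have h9 : (1 : ℝ) ≤ q.2.1 := by exact_mod_cast h4
    have h10 : (0 : ℝ) ≤ q.1 := Nat.cast_nonneg _
    nlinarith
  rw [Finset.card_eq_sum_card_fiberwise hmapsG]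
  push_cast
  calc ∑ g ∈ Finset.Icc 1 ⌊P⌋₊, ((S.filter fun q => q.1 = g).card : ℝ)
      ≤ ∑ g ∈ Finset.Icc 1 ⌊P⌋₊, 7 * m ^ 5 * Λ * (1 / (g : ℝ)) := Finset.sum_le_sum hfib
    _ = 7 * m ^ 5 * Λ * ∑ g ∈ Finset.Icc 1 ⌊P⌋₊, (1 / (g : ℝ)) := by rw [Finset.mul_sum]
    _ ≤ 7 * m ^ 5 * Λ * Λ := by
      apply mul_le_mul_of_nonneg_left _ (by positivity)
      exact hharm _ (Nat.floor_le hP0.le)
    _ = 7 * Λ ^ 2 * m ^ 5 := by ring

end Pool.Agent.FTA
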