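import Pool.Agent.FTA.Fib
import Pool.Agent.FTA.Par
import Pool.Agent.FTA.TBd
import Pool.Agent.FTA.TrivA

/-!
# FTA/LOne: the triples whose tuple has `|u| c` small

PROOF of `lone`.  If `S` is empty this is clear (`Λ ≥ 1`, `T ≥ 1`); otherwise `par` gives the
sizes.  Choose for every `q = (N, w, t) ∈ S` a tuple `(g, c, u, v, e)`.  Map
`q ↦ (N, (g, c, u))`.  The values: `N ∈ [M, 2 M)`, so `M = m ^ 4` values; `(g, c, |u|)` is in a
finite set as in `trivA` (all conditions are in `TupP`; take the image of `S`), at most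
`7 Λ ^ 2 m ^ 5` values, and `u = ± |u|`: so at most `14 Λ ^ 2 m ^ 9` values of
`(N, (g, c, u))`.
Fibre over `(N, (g, c, u))`: put `z = u ^ 2 - c ^ 2 N`, `z ≠ 0` (as `g z = v w ≠ 0`), and
`|z| ≤ max (u ^ 2, c ^ 2 N) ≤ 24 m ^ 8 ≤ (16 M) ^ 20` (`|u| ≤ 2 P m ^ 2`, `c ≤ P`,
`P ^ 2 ≤ 6 m ^ 4`, `N < 2 m ^ 4`).  `v ∣ z`, so `v = ± d` with `d ∈ divisors |z|`: at most `2 T`
values of `v`; and `w` is determined by `g z = v w`; and for given `w` at most `47 T ^ 2` values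
of `t` by `tBd`.  So the fibre has at most `94 T ^ 3` elements, total
`≤ 14 * 94 Λ ^ 2 T ^ 3 m ^ 9 = 1316 ...`.
-/

set_option autoImplicit false

namespace Pool.Agent.FTA

private theorem cast_natAbs' (u : ℤ) : ((u.natAbs : ℕ) : ℝ) = |(u : ℝ)| := by
  rw [Nat.cast_natAbs, Int.cast_abs]

private theorem card_pair (a : ℤ) : ((({a, -a} : Finset ℤ).card : ℕ) : ℝ) ≤ 2 := by
  have h : ({a, -a} : Finset ℤ).card ≤ 2 := Finset.card_le_two
  exact_mod_cast h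

/-- fixed `(N, g, c, u, v)` -/
private theorem fix5 (M Y : ℕ) (m P T : ℝ)
    (hT : ∀ n : ℕ, 1 ≤ n → n ≤ (16 * M) ^ 20 → (n.divisors.card : ℝ) ≤ T)
    (S : Finset (ℕ × ℕ × ℤ)) (N g c : ℕ) (u v : ℤ) (e : ℕ × ℕ × ℤ → ℤ)
    (hS : ∀ q ∈ S, IsA M Y q.1 q.2.1 q.2.2 ∧ q.1 = N ∧ TupP m P q.1 q.2.1 q.2.2 g c u v (e q)) :
    (S.card : ℝ) ≤ 47 * T ^ 2 := by
  classical
  rcases S.eq_empty_or_nonempty with rfl | ⟨q0, hq0⟩
  · rw [Finset.card_empty, Nat.cast_zero]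
    positivity
  obtain ⟨hA0, hN0, hT0⟩ := hS q0 hq0
  have hw : ∀ q ∈ S, q.2.1 = q0.2.1 := by
    intro q hq
    obtain ⟨-, hN, -, -, -, hv, -, -, -, -, -, -, -, -, h1, -⟩ := hS q hq
    obtain ⟨-, -, -, -, -, -, -, -, -, -, -, -, h1', -⟩ := hT0
    rw [hN] at h1
    rw [hN0] at h1'
    have : v * (q.2.1 : ℤ) = v * q0.2.1 := by rw [← h1, ← h1']
    exact_mod_cast mul_left_cancel₀ hv this
  have hinj : Set.InjOn (fun q : ℕ × ℕ × ℤ => q.2.2) (S : Set (ℕ × ℕ × ℤ)) := by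
    intro q hq q' hq' h
    have hN : q.1 = q'.1 := by rw [(hS q hq).2.1, (hS q' hq').2.1]
    have hw' : q.2.1 = q'.2.1 := by rw [hw q hq, hw q' hq']
    exact Prod.ext hN (Prod.ext hw' h)
  have hcard : (S.image (fun q : ℕ × ℕ × ℤ => q.2.2)).card = S.card :=
    Finset.card_image_of_injOn hinj
  rw [← hcard]
  apply tBd M Y N q0.2.1 T hT
  intro t ht
  rw [Finset.mem_image] at ht
  obtain ⟨q, hq, rfl⟩ := ht
  have h1 := (hS q hq).1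
  rw [(hS q hq).2.1, hw q hq] at h1
  exact h1

/-- fixed `(N, g, c, u)` -/
private theorem fix4 (M Y : ℕ) (m P T : ℝ) (hm : 0 < m) (hm4 : m ^ 4 = (M : ℝ)) (hP : 0 < P)
    (hPY : P ^ 2 * m ^ 2 = (Y : ℝ)) (hT1 : 1 ≤ T)
    (hT : ∀ n : ℕ, 1 ≤ n → n ≤ (16 * M) ^ 20 → (n.divisors.card : ℝ) ≤ T)
    (S : Finset (ℕ × ℕ × ℤ)) (N g c : ℕ) (u : ℤ) (ve : ℕ × ℕ × ℤ → ℤ × ℤ)
    (hS : ∀ q ∈ S, IsA M Y q.1 q.2.1 q.2.2 ∧ q.1 = N ∧
      TupP m P q.1 q.2.1 q.2.2 g c u (ve q).1 (ve q).2) :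
    (S.card : ℝ) ≤ 94 * T ^ 3 := by
  classical
  rcases S.eq_empty_or_nonempty with rfl | ⟨q0, hq0⟩
  · rw [Finset.card_empty, Nat.cast_zero]
    positivity
  obtain ⟨hA0, hN0, hT0⟩ := hS q0 hq0
  obtain ⟨hM, hY, hm1, hP1, hPm, hYm⟩ := par M Y _ _ _ hA0 m P hm hm4 hP hPY
  obtain ⟨hg, hc, hu, hv, -, -, hgc, hgu, -, -, -, -, h1, -⟩ := hT0
  obtain ⟨hMN, hN2, -, -, hodd, -⟩ := hA0
  rw [hN0] at h1 hMN hN2
  have hw0 : (q0.2.1 : ℤ) ≠ 0 := by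
    have := hodd.pos
    positivity
  have hz : u ^ 2 - (c : ℤ) ^ 2 * N ≠ 0 := by
    intro h
    rw [h, mul_zero] at h1
    rcases mul_eq_zero.1 h1.symm with h2 | h2
    · exact hv h2
    · exact hw0 h2
  have hg1 : (1 : ℝ) ≤ g := by exact_mod_cast hg
  have hc1 : (1 : ℝ) ≤ c := by exact_mod_cast hc
  have hcP : (c : ℝ) ≤ P := by nlinarith
  have hu0 : 0 ≤ |(u : ℝ)| := abs_nonneg _
  have huP : |(u : ℝ)| ≤ 2 * P * m ^ 2 := by nlinarith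
  have hzb : (u ^ 2 - (c : ℤ) ^ 2 * N).natAbs ≤ 36 * M ^ 2 := by
    have h2 : (((u ^ 2 - (c : ℤ) ^ 2 * N).natAbs : ℕ) : ℝ) ≤ 36 * (M : ℝ) ^ 2 := by
      rw [cast_natAbs']
      push_cast
      have h3 : |(u : ℝ) ^ 2 - (c : ℝ) ^ 2 * N| ≤ (u : ℝ) ^ 2 + (c : ℝ) ^ 2 * N := by
        rw [abs_le]
        constructor
        · nlinarith [sq_nonneg (u : ℝ), show (0 : ℝ) ≤ (c : ℝ) ^ 2 * N by positivity]
        · nlinarith [sq_nonneg (u : ℝ), show (0 : ℝ) ≤ (c : ℝ) ^ 2 * N by positivity]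
      have h4 : (u : ℝ) ^ 2 ≤ 24 * (M : ℝ) ^ 2 := by
        rw [← hm4, ← sq_abs (u : ℝ)]
        calc |(u : ℝ)| ^ 2 ≤ (2 * P * m ^ 2) ^ 2 := by gcongr
          _ = 4 * m ^ 4 * P ^ 2 := by ring
          _ ≤ 4 * m ^ 4 * (6 * m ^ 4) := by gcongr
          _ = _ := by ring
      have h5 : (c : ℝ) ^ 2 * N ≤ 12 * (M : ℝ) ^ 2 := by
        have hN' : (N : ℝ) ≤ 2 * M := by exact_mod_cast hN2.le
        calc (c : ℝ) ^ 2 * N ≤ P ^ 2 * (2 * M) := by gcongr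
          _ ≤ (6 * m ^ 4) * (2 * M) := by gcongr
          _ = _ := by rw [hm4]; ring
      linarith
    exact_mod_cast h2
  have hzb' : (u ^ 2 - (c : ℤ) ^ 2 * N).natAbs ≤ (16 * M) ^ 20 := by
    have h2 : (16 * M) ^ 2 ≤ (16 * M) ^ 20 := Nat.pow_le_pow_right (by omega) (by norm_num)
    have h3 : 36 * M ^ 2 ≤ (16 * M) ^ 2 := by
      have : (16 * M) ^ 2 = 256 * M ^ 2 := by ring
      rw [this]
      exact Nat.mul_le_mul_right _ (by norm_num)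
    exact hzb.trans (h3.trans h2)
  have hτ := hT _ (Int.natAbs_pos.2 hz) hzb'
  have hfib := fib_const S (fun q => (ve q).1.natAbs) (u ^ 2 - (c : ℤ) ^ 2 * N).natAbs.divisors
    (by
      intro q hq
      obtain ⟨-, hN, -, -, -, -, -, -, -, -, -, hdiv, -⟩ := hS q hq
      rw [hN] at hdiv
      rw [Nat.mem_divisors]
      exact ⟨Int.natAbs_dvd_natAbs.2 hdiv, (Int.natAbs_pos.2 hz).ne'⟩)
    (2 * (47 * T ^ 2)) (by
      intro b hb
      refine (fib_const _ (fun q => (ve q).1) ({(b : ℤ), -(b : ℤ)} : Finset ℤ) ?_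
        (47 * T ^ 2) ?_).trans ?_
      · intro q hq
        rw [Finset.mem_filter] at hq
        rw [Finset.mem_insert, Finset.mem_singleton]
        exact Int.natAbs_eq_iff.1 hq.2
      · intro v hv
        apply fix5 M Y m P T hT _ N g c u v (fun q => (ve q).2)
        intro q hq
        rw [Finset.mem_filter, Finset.mem_filter] at hq
        obtain ⟨⟨hq, -⟩, e1⟩ := hq
        obtain ⟨k1, k2, k3⟩ := hS q hq
        rw [e1] at k3
        exact ⟨k1, k2, k3⟩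
      · have := card_pair (b : ℤ)
        have h2 : 0 ≤ 47 * T ^ 2 := by positivity
        exact mul_le_mul_of_nonneg_right this h2)
  refine hfib.trans ?_
  calc _ ≤ T * (2 * (47 * T ^ 2)) := mul_le_mul_of_nonneg_right hτ (by positivity)
    _ = _ := by ring

theorem lone (M Y : ℕ) (m P T Λ : ℝ) (hm : 0 < m) (hm4 : m ^ 4 = (M : ℝ)) (hP : 0 < P)
    (hPY : P ^ 2 * m ^ 2 = (Y : ℝ)) (hT1 : 1 ≤ T)
    (hT : ∀ n : ℕ, 1 ≤ n → n ≤ (16 * M) ^ 20 → (n.divisors.card : ℝ) ≤ T)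
    (hΛ1 : 1 ≤ Λ) (hΛ : 1 + Real.log (3 * m ^ 2) ≤ Λ)
    (S : Finset (ℕ × ℕ × ℤ))
    (hS : ∀ q ∈ S, IsA M Y q.1 q.2.1 q.2.2 ∧ ∃ (g c : ℕ) (u v e : ℤ),
      TupP m P q.1 q.2.1 q.2.2 g c u v e ∧ |(u : ℝ)| * c < 24 * m ^ 8 / P ^ 2) :
    (S.card : ℝ) ≤ 1400 * T ^ 3 * Λ ^ 2 * m ^ 9 := by
  classical
  rcases S.eq_empty_or_nonempty with rfl | ⟨q0, hq0⟩
  · rw [Finset.card_empty, Nat.cast_zero]
    positivity
  obtain ⟨hM, hY, hm1, hP1, hPm, hYm⟩ := par M Y _ _ _ (hS q0 hq0).1 m P hm hm4 hP hPY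
  have h0 : ∀ q ∈ S, ∃ x : ℕ × ℕ × ℤ × ℤ × ℤ, IsA M Y q.1 q.2.1 q.2.2 ∧
      TupP m P q.1 q.2.1 q.2.2 x.1 x.2.1 x.2.2.1 x.2.2.2.1 x.2.2.2.2 ∧
      |(x.2.2.1 : ℝ)| * x.2.1 < 24 * m ^ 8 / P ^ 2 := by
    intro q hq
    obtain ⟨h1, g, c, u, v, e, h2, h3⟩ := hS q hq
    exact ⟨(g, c, u, v, e), h1, h2, h3⟩
  choose! G hG using h0
  have htriv := trivA m P Λ hm1 hP1 hPm hΛ
    (S.image (fun q => ((G q).1, (G q).2.1, (G q).2.2.1.natAbs))) (by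
      intro x hx
      rw [Finset.mem_image] at hx
      obtain ⟨q, hq, rfl⟩ := hx
      obtain ⟨-, ⟨hg, hc, hu, hv, -, -, hgc, hgu, -⟩, h3⟩ := hG q hq
      refine ⟨hg, hc, Int.natAbs_pos.2 hu, hgc, ?_, ?_⟩
      · rw [cast_natAbs']; exact hgu
      · rw [cast_natAbs']; exact h3)
  have hfib := fib_const S (fun q => q.1) (Finset.Ico M (2 * M)) (by
      intro q hq
      rw [Finset.mem_Ico]
      exact ⟨(hS q hq).1.1, (hS q hq).1.2.1⟩)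
    (7 * Λ ^ 2 * m ^ 5 * (2 * (94 * T ^ 3))) (by
      intro N hN
      refine (fib_const _ (fun q => ((G q).1, (G q).2.1, (G q).2.2.1.natAbs))
        (S.image (fun q => ((G q).1, (G q).2.1, (G q).2.2.1.natAbs))) ?_
        (2 * (94 * T ^ 3)) ?_).trans ?_
      · intro q hq
        rw [Finset.mem_filter] at hq
        exact Finset.mem_image_of_mem _ hq.1
      · rintro ⟨g, c, a⟩ -
        refine (fib_const _ (fun q => (G q).2.2.1) ({(a : ℤ), -(a : ℤ)} : Finset ℤ) ?_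
          (94 * T ^ 3) ?_).trans ?_
        · intro q hq
          rw [Finset.mem_filter] at hq
          rw [Finset.mem_insert, Finset.mem_singleton]
          have e1 := hq.2
          simp only [Prod.mk.injEq] at e1
          exact Int.natAbs_eq_iff.1 e1.2.2
        · intro u hu
          apply fix4 M Y m P T hm hm4 hP hPY hT1 hT _ N g c u (fun q => (G q).2.2.2)
          intro q hq
          rw [Finset.mem_filter, Finset.mem_filter, Finset.mem_filter] at hq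
          obtain ⟨⟨⟨hq, e1⟩, e2⟩, e3⟩ := hq
          simp only [Prod.mk.injEq] at e2
          obtain ⟨k1, k2, -⟩ := hG q hq
          rw [e2.1, e2.2.1, e3] at k2
          exact ⟨k1, e1, k2⟩
        · have h2 : 0 ≤ 94 * T ^ 3 := by positivity
          exact mul_le_mul_of_nonneg_right (card_pair (a : ℤ)) h2
      · exact mul_le_mul_of_nonneg_right htriv (by positivity))
  rw [Nat.card_Ico] at hfib
  have h2M : ((2 * M - M : ℕ) : ℝ) = m ^ 4 := by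
    rw [hm4]
    congr 1
    omega
  rw [h2M] at hfib
  refine hfib.trans ?_
  have e : m ^ 4 * (7 * Λ ^ 2 * m ^ 5 * (2 * (94 * T ^ 3))) = 1316 * (T ^ 3 * Λ ^ 2 * m ^ 9) := by
    ring
  have e' : 1400 * T ^ 3 * Λ ^ 2 * m ^ 9 = 1400 * (T ^ 3 * Λ ^ 2 * m ^ 9) := by ring
  rw [e, e']
  have : 0 ≤ T ^ 3 * Λ ^ 2 * m ^ 9 := by positivity
  nlinarith


end Pool.Agent.FTA
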