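import Pool.Agent.FTA.Fib
import Pool.Agent.FTA.Par
import Pool.Agent.FTA.TBd

/-!
# FTA/LSq: the triples with `N` a square

PROOF of `lsq`.  If `S` is empty this is clear; otherwise `par` (for one element) gives the sizes.
Map `(N, w, t) ↦ (N, w)`.  `N = s ^ 2` with `1 ≤ s`, `s ^ 2 < 2 M`, so `s ≤ √2 m ^ 2`: at most
`√2 m ^ 2 ≤ 1.5 m ^ 2` values of `N`; `w ∈ [Y, 2 Y)`: `Y ≤ 6 m ^ 6` values.  Every fibre has at
most `47 T ^ 2` elements by `tBd` (the fibre injects into its third coordinates).  Total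
`≤ 1.5 * 6 * 47 * T ^ 2 m ^ 8 ≤ 600 T ^ 2 m ^ 8`.  (`fib_const` in module `Fib`.)
-/

set_option autoImplicit false

namespace Pool.Agent.FTA

theorem lsq (M Y : ℕ) (m P T : ℝ) (hm : 0 < m) (hm4 : m ^ 4 = (M : ℝ)) (hP : 0 < P)
    (hPY : P ^ 2 * m ^ 2 = (Y : ℝ))
    (hT : ∀ n : ℕ, 1 ≤ n → n ≤ (16 * M) ^ 20 → (n.divisors.card : ℝ) ≤ T)
    (S : Finset (ℕ × ℕ × ℤ)) (hS : ∀ q ∈ S, IsA M Y q.1 q.2.1 q.2.2 ∧ IsSquare q.1) :
    (S.card : ℝ) ≤ 600 * T ^ 2 * m ^ 8 := by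
  classical
  rcases S.eq_empty_or_nonempty with hS0 | ⟨q₀, hq₀⟩
  · subst hS0
    simp only [Finset.card_empty, Nat.cast_zero]
    positivity
  obtain ⟨hM1, hY1, hm1, hP1, hP2, hY6⟩ := par M Y q₀.1 q₀.2.1 q₀.2.2 (hS q₀ hq₀).1 m P hm hm4 hP hPY
  set s : ℕ := Nat.sqrt (2 * M) with hs
  have hsR : (s : ℝ) ≤ 1.5 * m ^ 2 := by
    have h1 : s ^ 2 ≤ 2 * M := Nat.sqrt_le' _
    have h2 : (s : ℝ) ^ 2 ≤ 2 * m ^ 4 := by
      rw [hm4]
      exact_mod_cast h1
    apply le_of_sq_le_sq _ (by positivity)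
    nlinarith [sq_nonneg (m ^ 2)]
  have hcnt := fib_const S (fun q => (q.1, q.2.1))
    (((Finset.Icc 1 s).image (fun a => a ^ 2)) ×ˢ (Finset.Ico Y (2 * Y))) (by
      intro q hq
      obtain ⟨hA, hsq⟩ := hS q hq
      obtain ⟨hMN, hN2, hYa, hYb, -⟩ := hA
      obtain ⟨a, ha⟩ := hsq
      rw [Finset.mem_product, Finset.mem_image, Finset.mem_Ico]
      refine ⟨⟨a, ?_, ?_⟩, hYa, hYb⟩
      · rw [Finset.mem_Icc]
        constructor
        · rcases Nat.eq_zero_or_pos a with h0 | h0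
          · rw [h0] at ha
            omega
          · exact h0
        · rw [hs, Nat.le_sqrt]
          omega
      · show a ^ 2 = q.1
        rw [ha]; ring) (47 * T ^ 2) (by
      intro y hy
      have hinj : Set.InjOn (fun q : ℕ × ℕ × ℤ => q.2.2)
          (↑(S.filter (fun q => (q.1, q.2.1) = y)) : Set (ℕ × ℕ × ℤ)) := by
        intro q hq q' hq' heq
        rw [Finset.mem_coe, Finset.mem_filter] at hq hq'
        have h1 : (q.1, q.2.1) = (q'.1, q'.2.1) := hq.2.trans hq'.2.symm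
        rw [Prod.mk.injEq] at h1
        exact Prod.ext h1.1 (Prod.ext h1.2 heq)
      rw [← Finset.card_image_of_injOn hinj]
      apply tBd M Y y.1 y.2 T hT
      intro t ht
      rw [Finset.mem_image] at ht
      obtain ⟨q, hq, rfl⟩ := ht
      rw [Finset.mem_filter] at hq
      have h1 := (hS q hq.1).1
      rw [← hq.2]
      exact h1)
  refine hcnt.trans ?_
  rw [Finset.card_product, Nat.card_Ico]
  have h1 : (((Finset.Icc 1 s).image (fun a => a ^ 2)).card : ℝ) ≤ 1.5 * m ^ 2 := by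
    refine le_trans ?_ hsR
    have := Finset.card_image_le (s := Finset.Icc 1 s) (f := fun a => a ^ 2)
    rw [Nat.card_Icc] at this
    exact_mod_cast this
  have h2 : ((2 * Y - Y : ℕ) : ℝ) ≤ 6 * m ^ 6 := by
    have : 2 * Y - Y = Y := by omega
    rw [this]
    exact hY6
  rw [Nat.cast_mul]
  calc (((Finset.Icc 1 s).image (fun a => a ^ 2)).card : ℝ) * ((2 * Y - Y : ℕ) : ℝ) * (47 * T ^ 2)
      ≤ (1.5 * m ^ 2) * (6 * m ^ 6) * (47 * T ^ 2) := by
        apply mul_le_mul_of_nonneg_right _ (by positivity)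
        exact mul_le_mul h1 h2 (by positivity) (by positivity)
    _ = 423 * (T ^ 2 * m ^ 8) := by ring
    _ ≤ 600 * (T ^ 2 * m ^ 8) := by
        apply mul_le_mul_of_nonneg_right (by norm_num) (by positivity)
    _ = 600 * T ^ 2 * m ^ 8 := by ring

end Pool.Agent.FTA
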