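import Mathlib

/-!
# FTA/SumA: the sum over `(g, c, a, b)`, `a = |u|`, `b = |v|`

Here `K = 24 m ^ 8 / P ^ 2`, `M = m ^ 4`, `1 ≤ P`, `P ^ 2 ≤ 6 m ^ 4`, `1 ≤ m`, `1 ≤ T`,
`1 + log (3 m ^ 2) ≤ Λ`.

PROOF of `sumA`.  For `a, b, c ≥ 1`:
`√(2 (4 K / a + 1) (M / b) (2 M T / (b c) + 1)) ≤ √2 (2 √(K / a) + 1) (m ^ 2 / √b)
(m ^ 2 √(2 T) / √(b c) + 1)` (`√(x y) = √x √y`, `√(x + 1) ≤ √x + 1`, `√M = m ^ 2`).
Use `∑_{n ≤ x} 1 / √n ≤ 2 √x` and `∑_{n ≤ x} 1 / n ≤ 1 + log x ≤ Λ` for `1 ≤ x ≤ 3 m ^ 2`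
(for `x < 1` the sums are empty; `2 m ^ 2 ≤ 3 m ^ 2` and `P ≤ √6 m ^ 2 ≤ 3 m ^ 2`).
With `A = 2 P m ^ 2 / g`, `B' = 2 m ^ 2 / g`, `C' = P / g`:
`∑_{a ≤ A} (2 √(K / a) + 1) ≤ 4 √(K A) + A`,
`√(K A) = √(48 m ^ 10 / (P g)) ≤ 7 m ^ 5 / √(P g)`, so it is `≤ 28 m ^ 5 / √(P g) + 2 P m ^ 2 / g`.
`∑_{b ≤ B'} (m ^ 2 / √b) (m ^ 2 √(2 T) / √(b c) + 1) ≤ m ^ 4 √(2 T) Λ / √c + 2 m ^ 2 √B'`, and
`∑_{c ≤ C'}` of this is `≤ 2 √2 √T Λ m ^ 4 √(P / g) + 2 √2 m ^ 3 P / (g √g)`.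
The product of the two is
`≤ (1 / g) 2 √2 Λ √T (28 m ^ 9 + 28 m ^ 8 √P + 2 m ^ 6 P √P + 2 m ^ 5 P ^ 2)`, and with
`P ≤ 2.45 m ^ 2`, `√P ≤ 1.57 m`: `≤ (1 / g) * 2 √2 * 92 * Λ √T m ^ 9` (`28 + 44 + 7.7 + 12 < 92`).
Summed over `g ≤ P`: factor `Λ`.  Multiply by `√2`: `≤ 4 * 92 * Λ ^ 2 √T m ^ 9 = 368 ...`.
The part `1` of the summand: number of `(g, c, a, b)` is `≤ ∑_g (P / g) (2 P m ^ 2 / g)
(2 m ^ 2 / g) ≤ 4 P ^ 2 m ^ 4 * 2 ≤ 48 m ^ 8 ≤ 48 m ^ 9`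
(`∑ 1 / g ^ 3 ≤ 2`).  Total `≤ 500 T Λ ^ 2 m ^ 9`.
Any constant is fine; the statement has 1000.
-/

set_option autoImplicit false

namespace Pool.Agent.FTA

private theorem sum_one_le {x : ℝ} (hx : 0 ≤ x) : ∑ _n ∈ Finset.Icc 1 ⌊x⌋₊, (1 : ℝ) ≤ x := by
  rw [Finset.sum_const, Nat.card_Icc, nsmul_eq_mul, mul_one, Nat.add_sub_cancel]
  exact Nat.floor_le hx

private theorem sum_inv_sqrt_nat (N : ℕ) : ∑ n ∈ Finset.Icc 1 N, 1 / √(n : ℝ) ≤ 2 * √(N : ℝ) := by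
  induction N with
  | zero => simp
  | succ N ih =>
    rw [Finset.sum_Icc_succ_top (by omega)]
    have h0 : 0 ≤ √(N : ℝ) := Real.sqrt_nonneg _
    have h1 : 0 < √((N + 1 : ℕ) : ℝ) := Real.sqrt_pos.2 (by positivity)
    have h2 : √(N : ℝ) ^ 2 = N := Real.sq_sqrt (by positivity)
    have h3 : √((N + 1 : ℕ) : ℝ) ^ 2 = N + 1 := by
      rw [Real.sq_sqrt (by positivity)]; push_cast; ring
    have h4 : 1 / √((N + 1 : ℕ) : ℝ) ≤ 2 * √((N + 1 : ℕ) : ℝ) - 2 * √(N : ℝ) := by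
      rw [div_le_iff₀ h1]
      nlinarith [sq_nonneg (√((N + 1 : ℕ) : ℝ) - √(N : ℝ))]
    linarith

private theorem sum_inv_sqrt {x : ℝ} (hx : 0 ≤ x) :
    ∑ n ∈ Finset.Icc 1 ⌊x⌋₊, 1 / √(n : ℝ) ≤ 2 * √x := by
  have h1 := sum_inv_sqrt_nat ⌊x⌋₊
  have h2 : √((⌊x⌋₊ : ℕ) : ℝ) ≤ √x := Real.sqrt_le_sqrt (Nat.floor_le hx)
  linarith

private theorem sum_inv {x y : ℝ} (hxy : x ≤ y) (hy : 1 ≤ y) :
    ∑ n ∈ Finset.Icc 1 ⌊x⌋₊, 1 / (n : ℝ) ≤ 1 + Real.log y := by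
  have hlog : 0 ≤ Real.log y := Real.log_nonneg hy
  rcases lt_or_ge x 1 with h | h
  · rw [Nat.floor_eq_zero.2 h]
    simp only [Finset.Icc_eq_empty_of_lt (Nat.zero_lt_one), Finset.sum_empty]
    linarith
  · have h1 := harmonic_floor_le_one_add_log x h
    rw [harmonic_eq_sum_Icc] at h1
    push_cast at h1
    have h2 : Real.log x ≤ Real.log y := Real.log_le_log (by linarith) hxy
    have h3 : ∑ n ∈ Finset.Icc 1 ⌊x⌋₊, 1 / (n : ℝ) = ∑ n ∈ Finset.Icc 1 ⌊x⌋₊, ((n : ℝ))⁻¹ :=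
      Finset.sum_congr rfl (fun n _ => one_div _)
    rw [h3]
    linarith

private theorem sqrt_add_one_le {x : ℝ} (hx : 0 ≤ x) : √(x + 1) ≤ √x + 1 := by
  rw [Real.sqrt_le_left (by positivity)]
  nlinarith [Real.sq_sqrt hx, Real.sqrt_nonneg x]

private theorem term_le {K M1 T a b c : ℝ} (hK : 0 ≤ K) (hT : 0 ≤ T) (ha : 0 < a)
    (hb : 0 < b) (hc : 0 < c) :
    √(2 * (4 * K / a + 1) * (M1 ^ 4 / b) * (2 * M1 ^ 4 * T / (b * c) + 1)) ≤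
      √2 * ((2 * √K * (1 / √a) + 1) *
        (M1 ^ 4 * √(2 * T) * (1 / √c) * (1 / b) + M1 ^ 2 * (1 / √b))) := by
  have hsa : 0 < √a := Real.sqrt_pos.2 ha
  have hsb : 0 < √b := Real.sqrt_pos.2 hb
  have hsc : 0 < √c := Real.sqrt_pos.2 hc
  have h1 : √(4 * K / a + 1) ≤ 2 * √K * (1 / √a) + 1 := by
    refine (sqrt_add_one_le (by positivity)).trans (le_of_eq ?_)
    rw [Real.sqrt_div (by positivity), Real.sqrt_mul (by norm_num),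
      show (4 : ℝ) = 2 ^ 2 by norm_num, Real.sqrt_sq (by norm_num)]
    ring
  have h2 : √(M1 ^ 4 / b) = M1 ^ 2 * (1 / √b) := by
    rw [Real.sqrt_div (by positivity), show M1 ^ 4 = (M1 ^ 2) ^ 2 by ring,
      Real.sqrt_sq (by positivity)]
    ring
  have h3 : √(2 * M1 ^ 4 * T / (b * c) + 1) ≤ M1 ^ 2 * √(2 * T) * (1 / √b) * (1 / √c) + 1 := by
    refine (sqrt_add_one_le (by positivity)).trans (le_of_eq ?_)
    rw [Real.sqrt_div (by positivity), show 2 * M1 ^ 4 * T = (M1 ^ 2) ^ 2 * (2 * T) by ring,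
      Real.sqrt_mul (by positivity), Real.sqrt_sq (by positivity), Real.sqrt_mul hb.le]
    field_simp
  rw [Real.sqrt_mul (by positivity), Real.sqrt_mul (by positivity), Real.sqrt_mul (by norm_num),
    h2]
  have h4 : (1 / √b) * (1 / √b) = 1 / b := by
    rw [div_mul_div_comm, one_mul, Real.mul_self_sqrt hb.le]
  calc √2 * √(4 * K / a + 1) * (M1 ^ 2 * (1 / √b)) * √(2 * M1 ^ 4 * T / (b * c) + 1)
      ≤ √2 * (2 * √K * (1 / √a) + 1) * (M1 ^ 2 * (1 / √b)) *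
        (M1 ^ 2 * √(2 * T) * (1 / √b) * (1 / √c) + 1) := by gcongr
    _ = √2 * ((2 * √K * (1 / √a) + 1) *
        (M1 ^ 4 * √(2 * T) * (1 / √c) * ((1 / √b) * (1 / √b)) + M1 ^ 2 * (1 / √b))) := by ring
    _ = _ := by rw [h4]

private theorem sum_identity (SA SB SC : Finset ℕ) (f : ℕ → ℝ) (h : ℕ → ℕ → ℝ) (w : ℝ) :
    ∑ c ∈ SC, ∑ a ∈ SA, ∑ b ∈ SB, (1 + w * (f a * h c b)) =
      (∑ _c ∈ SC, (1 : ℝ)) * (∑ _a ∈ SA, (1 : ℝ)) * (∑ _b ∈ SB, (1 : ℝ)) +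
        w * ((∑ a ∈ SA, f a) * ∑ c ∈ SC, ∑ b ∈ SB, h c b) := by
  have h1 : ∀ c a, ∑ b ∈ SB, (1 + w * (f a * h c b)) =
      (∑ _b ∈ SB, (1 : ℝ)) + f a * (w * ∑ b ∈ SB, h c b) := by
    intro c a
    rw [Finset.sum_add_distrib, ← Finset.mul_sum, ← Finset.mul_sum]
    ring
  have h2 : ∀ c, ∑ a ∈ SA, ((∑ _b ∈ SB, (1 : ℝ)) + f a * (w * ∑ b ∈ SB, h c b)) =
      (∑ _a ∈ SA, (1 : ℝ)) * (∑ _b ∈ SB, (1 : ℝ)) +
        (w * ∑ a ∈ SA, f a) * ∑ b ∈ SB, h c b := by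
    intro c
    rw [Finset.sum_add_distrib, ← Finset.sum_mul]
    simp only [Finset.sum_const, nsmul_eq_mul, mul_one]
    ring
  simp only [h1, h2]
  have h3 : ∑ c ∈ SC, (w * ∑ a ∈ SA, f a) * ∑ b ∈ SB, h c b =
      (w * ∑ a ∈ SA, f a) * ∑ c ∈ SC, ∑ b ∈ SB, h c b := by
    rw [Finset.mul_sum SC]
  rw [Finset.sum_add_distrib, h3]
  simp only [Finset.sum_const, nsmul_eq_mul, mul_one]
  ring

private theorem inner_le {K m T Λ A B C : ℝ} (hK : 0 ≤ K) (hm : 0 ≤ m) (hT : 0 ≤ T)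
    (hA : 0 ≤ A) (hB : 0 ≤ B) (hC : 0 ≤ C)
    (hΛ : ∑ n ∈ Finset.Icc 1 ⌊B⌋₊, 1 / (n : ℝ) ≤ Λ) :
    ∑ c ∈ Finset.Icc 1 ⌊C⌋₊, ∑ a ∈ Finset.Icc 1 ⌊A⌋₊, ∑ b ∈ Finset.Icc 1 ⌊B⌋₊,
      (1 + √(2 * (4 * K / (a : ℝ) + 1) * (m ^ 4 / (b : ℝ)) *
          (2 * m ^ 4 * T / ((b : ℝ) * (c : ℝ)) + 1))) ≤
      C * A * B + √2 * ((4 * √K * √A + A) *
        (2 * m ^ 4 * √(2 * T) * Λ * √C + 2 * m ^ 2 * √B * C)) := by
  have hsB := sum_inv_sqrt hB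
  have hsA := sum_inv_sqrt hA
  have hsC := sum_inv_sqrt hC
  have h1A := sum_one_le hA
  have h1B := sum_one_le hB
  have h1C := sum_one_le hC
  have hΛ0 : 0 ≤ Λ := le_trans (Finset.sum_nonneg (fun n _ => by positivity)) hΛ
  -- the sum over b
  have hb : ∀ c : ℕ, ∑ b ∈ Finset.Icc 1 ⌊B⌋₊, (m ^ 4 * √(2 * T) * (1 / √(c : ℝ)) * (1 / (b : ℝ))
      + m ^ 2 * (1 / √(b : ℝ))) ≤
      m ^ 4 * √(2 * T) * Λ * (1 / √(c : ℝ)) + 2 * m ^ 2 * √B := by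
    intro c
    rw [Finset.sum_add_distrib, ← Finset.mul_sum, ← Finset.mul_sum]
    have h1 : m ^ 4 * √(2 * T) * (1 / √(c : ℝ)) * ∑ b ∈ Finset.Icc 1 ⌊B⌋₊, 1 / (b : ℝ) ≤
        m ^ 4 * √(2 * T) * (1 / √(c : ℝ)) * Λ := by gcongr
    have h2 : m ^ 2 * ∑ b ∈ Finset.Icc 1 ⌊B⌋₊, 1 / √(b : ℝ) ≤ m ^ 2 * (2 * √B) := by gcongr
    linarith
  have ha : ∑ a ∈ Finset.Icc 1 ⌊A⌋₊, (2 * √K * (1 / √(a : ℝ)) + 1) ≤ 4 * √K * √A + A := by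
    rw [Finset.sum_add_distrib, ← Finset.mul_sum]
    have h1 : 2 * √K * ∑ a ∈ Finset.Icc 1 ⌊A⌋₊, 1 / √(a : ℝ) ≤ 2 * √K * (2 * √A) := by gcongr
    linarith
  have hc : ∑ c ∈ Finset.Icc 1 ⌊C⌋₊, (m ^ 4 * √(2 * T) * Λ * (1 / √(c : ℝ)) + 2 * m ^ 2 * √B) ≤
      2 * m ^ 4 * √(2 * T) * Λ * √C + 2 * m ^ 2 * √B * C := by
    rw [Finset.sum_add_distrib, ← Finset.mul_sum]
    have h1 : m ^ 4 * √(2 * T) * Λ * ∑ c ∈ Finset.Icc 1 ⌊C⌋₊, 1 / √(c : ℝ) ≤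
        m ^ 4 * √(2 * T) * Λ * (2 * √C) := by gcongr
    have h2 : ∑ _c ∈ Finset.Icc 1 ⌊C⌋₊, 2 * m ^ 2 * √B = 2 * m ^ 2 * √B *
        ∑ _c ∈ Finset.Icc 1 ⌊C⌋₊, (1 : ℝ) := by
      rw [Finset.mul_sum]
      simp only [mul_one]
    have h3 : 2 * m ^ 2 * √B * ∑ _c ∈ Finset.Icc 1 ⌊C⌋₊, (1 : ℝ) ≤ 2 * m ^ 2 * √B * C := by
      gcongr
    rw [h2]
    linarith
  -- split
  calc ∑ c ∈ Finset.Icc 1 ⌊C⌋₊, ∑ a ∈ Finset.Icc 1 ⌊A⌋₊, ∑ b ∈ Finset.Icc 1 ⌊B⌋₊,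
      (1 + √(2 * (4 * K / (a : ℝ) + 1) * (m ^ 4 / (b : ℝ)) *
          (2 * m ^ 4 * T / ((b : ℝ) * (c : ℝ)) + 1)))
      ≤ ∑ c ∈ Finset.Icc 1 ⌊C⌋₊, ∑ a ∈ Finset.Icc 1 ⌊A⌋₊, ∑ b ∈ Finset.Icc 1 ⌊B⌋₊,
      (1 + √2 * ((2 * √K * (1 / √(a : ℝ)) + 1) *
        (m ^ 4 * √(2 * T) * (1 / √(c : ℝ)) * (1 / (b : ℝ)) + m ^ 2 * (1 / √(b : ℝ))))) := by
        refine Finset.sum_le_sum (fun c hc => Finset.sum_le_sum (fun a ha =>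
          Finset.sum_le_sum (fun b hb => ?_)))
        rw [Finset.mem_Icc] at ha hb hc
        have ha' : (0 : ℝ) < a := by exact_mod_cast ha.1
        have hb' : (0 : ℝ) < b := by exact_mod_cast hb.1
        have hc' : (0 : ℝ) < c := by exact_mod_cast hc.1
        have := term_le (M1 := m) hK hT ha' hb' hc'
        linarith
    _ = (∑ _c ∈ Finset.Icc 1 ⌊C⌋₊, (1 : ℝ)) * (∑ _a ∈ Finset.Icc 1 ⌊A⌋₊, (1 : ℝ)) *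
        (∑ _b ∈ Finset.Icc 1 ⌊B⌋₊, (1 : ℝ)) +
        √2 * ((∑ a ∈ Finset.Icc 1 ⌊A⌋₊, (2 * √K * (1 / √(a : ℝ)) + 1)) *
          ∑ c ∈ Finset.Icc 1 ⌊C⌋₊, ∑ b ∈ Finset.Icc 1 ⌊B⌋₊,
            (m ^ 4 * √(2 * T) * (1 / √(c : ℝ)) * (1 / (b : ℝ)) + m ^ 2 * (1 / √(b : ℝ)))) := by
        exact sum_identity (Finset.Icc 1 ⌊A⌋₊) (Finset.Icc 1 ⌊B⌋₊) (Finset.Icc 1 ⌊C⌋₊)
          (fun a => 2 * √K * (1 / √(a : ℝ)) + 1)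
          (fun c b => m ^ 4 * √(2 * T) * (1 / √(c : ℝ)) * (1 / (b : ℝ)) + m ^ 2 * (1 / √(b : ℝ)))
          (√2)
    _ ≤ _ := by
        have h0 : 0 ≤ ∑ c ∈ Finset.Icc 1 ⌊C⌋₊, ∑ b ∈ Finset.Icc 1 ⌊B⌋₊,
            (m ^ 4 * √(2 * T) * (1 / √(c : ℝ)) * (1 / (b : ℝ)) + m ^ 2 * (1 / √(b : ℝ))) :=
          Finset.sum_nonneg (fun c _ => Finset.sum_nonneg (fun b _ => by positivity))
        have h1 : ∑ c ∈ Finset.Icc 1 ⌊C⌋₊, ∑ b ∈ Finset.Icc 1 ⌊B⌋₊,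
            (m ^ 4 * √(2 * T) * (1 / √(c : ℝ)) * (1 / (b : ℝ)) + m ^ 2 * (1 / √(b : ℝ))) ≤
            2 * m ^ 4 * √(2 * T) * Λ * √C + 2 * m ^ 2 * √B * C :=
          (Finset.sum_le_sum (fun c _ => hb c)).trans hc
        have h2 : 0 ≤ ∑ _b ∈ Finset.Icc 1 ⌊B⌋₊, (1 : ℝ) := Finset.sum_nonneg (fun _ _ => zero_le_one)
        have h3 : 0 ≤ ∑ _b ∈ Finset.Icc 1 ⌊A⌋₊, (1 : ℝ) := Finset.sum_nonneg (fun _ _ => zero_le_one)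
        have h4 : 0 ≤ ∑ _b ∈ Finset.Icc 1 ⌊C⌋₊, (1 : ℝ) := Finset.sum_nonneg (fun _ _ => zero_le_one)
        gcongr

private theorem final_le {m p r q Λ : ℝ} (hm : 1 ≤ m) (hp : 1 ≤ p) (hpm : p ^ 4 ≤ 6 * m ^ 4)
    (hq : 1 ≤ q) (hΛ : 1 ≤ Λ) (hr : 1 ≤ r) :
    (28 * m ^ 5 / (p * r) + 2 * p ^ 2 * m ^ 2 / r ^ 2) *
      (m ^ 4 * q * Λ * p / r + m ^ 3 * p ^ 2 / r ^ 3) ≤ 93 * q * Λ * m ^ 9 / r ^ 2 := by
  have hp0 : 0 < p := by linarith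
  have hr0 : 0 < r := by linarith
  have hm0 : 0 < m := by linarith
  have hp2 : p ^ 2 ≤ (5 / 2) * m ^ 2 := by
    have : (p ^ 2) ^ 2 ≤ ((5 / 2) * m ^ 2) ^ 2 := by nlinarith [pow_pos hm0 4]
    exact le_of_sq_le_sq this (by positivity)
  have hp1 : p ≤ (8 / 5) * m := by
    have : p ^ 2 ≤ ((8 / 5) * m) ^ 2 := by nlinarith [pow_pos hm0 2]
    exact le_of_sq_le_sq this (by positivity)
  have h1 : 28 * m ^ 5 / (p * r) + 2 * p ^ 2 * m ^ 2 / r ^ 2 ≤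
      (28 * m ^ 5 / p + 2 * p ^ 2 * m ^ 2) / r := by
    rw [add_div, div_div]
    have : 2 * p ^ 2 * m ^ 2 / r ^ 2 ≤ 2 * p ^ 2 * m ^ 2 / r := by
      apply div_le_div_of_nonneg_left (by positivity) hr0
      nlinarith
    linarith
  have h2 : m ^ 4 * q * Λ * p / r + m ^ 3 * p ^ 2 / r ^ 3 ≤
      (q * Λ * (m ^ 4 * p + m ^ 3 * p ^ 2)) / r := by
    have h3 : m ^ 3 * p ^ 2 / r ^ 3 ≤ m ^ 3 * p ^ 2 / r := by
      apply div_le_div_of_nonneg_left (by positivity) hr0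
      exact le_self_pow₀ hr (by norm_num)
    have h4 : m ^ 3 * p ^ 2 / r ≤ q * Λ * (m ^ 3 * p ^ 2) / r := by
      apply div_le_div_of_nonneg_right _ hr0.le
      have : 1 ≤ q * Λ := one_le_mul_of_one_le_of_one_le hq hΛ
      nlinarith [show 0 < m ^ 3 * p ^ 2 by positivity]
    have h5 : (q * Λ * (m ^ 4 * p + m ^ 3 * p ^ 2)) / r =
        m ^ 4 * q * Λ * p / r + q * Λ * (m ^ 3 * p ^ 2) / r := by ring
    rw [h5]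
    linarith
  have h6 : (28 * m ^ 5 / p + 2 * p ^ 2 * m ^ 2) * (m ^ 4 * p + m ^ 3 * p ^ 2) ≤ 93 * m ^ 9 := by
    have e : (28 * m ^ 5 / p + 2 * p ^ 2 * m ^ 2) * (m ^ 4 * p + m ^ 3 * p ^ 2) =
        28 * m ^ 9 + 28 * m ^ 8 * p + 2 * m ^ 6 * (p ^ 2 * p) + 2 * m ^ 5 * p ^ 4 := by
      field_simp
      ring
    rw [e]
    have e1 : 28 * m ^ 8 * p ≤ 28 * m ^ 8 * ((8 / 5) * m) := by gcongr
    have e2 : 2 * m ^ 6 * (p ^ 2 * p) ≤ 2 * m ^ 6 * (((5 / 2) * m ^ 2) * ((8 / 5) * m)) := by gcongr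
    have e3 : 2 * m ^ 5 * p ^ 4 ≤ 2 * m ^ 5 * (6 * m ^ 4) := by gcongr
    nlinarith [pow_pos hm0 9]
  calc (28 * m ^ 5 / (p * r) + 2 * p ^ 2 * m ^ 2 / r ^ 2) *
      (m ^ 4 * q * Λ * p / r + m ^ 3 * p ^ 2 / r ^ 3)
      ≤ ((28 * m ^ 5 / p + 2 * p ^ 2 * m ^ 2) / r) *
        ((q * Λ * (m ^ 4 * p + m ^ 3 * p ^ 2)) / r) := by
        apply mul_le_mul h1 h2 (by positivity) (by positivity)
    _ = q * Λ * ((28 * m ^ 5 / p + 2 * p ^ 2 * m ^ 2) * (m ^ 4 * p + m ^ 3 * p ^ 2)) / r ^ 2 := by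
        field_simp
    _ ≤ q * Λ * (93 * m ^ 9) / r ^ 2 := by gcongr
    _ = _ := by ring

theorem sumA (m P T Λ : ℝ) (hm : 1 ≤ m) (hP : 1 ≤ P) (hPm : P ^ 2 ≤ 6 * m ^ 4) (hT : 1 ≤ T)
    (hΛ : 1 + Real.log (3 * m ^ 2) ≤ Λ) :
    ∑ g ∈ Finset.Icc 1 ⌊P⌋₊, ∑ c ∈ Finset.Icc 1 ⌊P / g⌋₊,
      ∑ a ∈ Finset.Icc 1 ⌊2 * P * m ^ 2 / g⌋₊, ∑ b ∈ Finset.Icc 1 ⌊2 * m ^ 2 / (g : ℝ)⌋₊,
        (1 + √(2 * (4 * (24 * m ^ 8 / P ^ 2) / (a : ℝ) + 1) * (m ^ 4 / (b : ℝ)) *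
          (2 * m ^ 4 * T / ((b : ℝ) * (c : ℝ)) + 1))) ≤ 1000 * T * Λ ^ 2 * m ^ 9 := by
  have hm0 : 0 < m := by linarith
  have hP0 : 0 < P := by linarith
  have hT0 : 0 < T := by linarith
  have hm2 : 1 ≤ m ^ 2 := one_le_pow₀ hm
  have h3m : 1 ≤ 3 * m ^ 2 := by linarith
  have hlog : 0 ≤ Real.log (3 * m ^ 2) := Real.log_nonneg h3m
  have hΛ1 : 1 ≤ Λ := by linarith
  have hP3 : P ≤ 3 * m ^ 2 := by
    have : P ^ 2 ≤ (3 * m ^ 2) ^ 2 := by nlinarith [pow_pos hm0 4]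
    exact le_of_sq_le_sq this (by positivity)
  set p := √P with hp
  set q := √T with hq
  set w := √(2 : ℝ) with hw
  have hp2 : p ^ 2 = P := Real.sq_sqrt hP0.le
  have hq2 : q ^ 2 = T := Real.sq_sqrt hT0.le
  have hw2 : w ^ 2 = 2 := Real.sq_sqrt (by norm_num)
  have hp1 : 1 ≤ p := by rw [hp, Real.one_le_sqrt]; exact hP
  have hq1 : 1 ≤ q := by rw [hq, Real.one_le_sqrt]; exact hT
  have hw0 : 0 < w := Real.sqrt_pos.2 (by norm_num)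
  have hpm : p ^ 4 ≤ 6 * m ^ 4 := by
    calc p ^ 4 = (p ^ 2) ^ 2 := by ring
      _ = P ^ 2 := by rw [hp2]
      _ ≤ _ := hPm
  have hqT : q ≤ T := by nlinarith
  have hK : √(24 * m ^ 8 / P ^ 2) = √24 * m ^ 4 / P := by
    rw [Real.sqrt_div (by positivity), Real.sqrt_sq hP0.le, show 24 * m ^ 8 = 24 * (m ^ 4) ^ 2 by ring,
      Real.sqrt_mul (by norm_num), Real.sqrt_sq (by positivity)]
  have hw24 : √24 * w ≤ 7 := by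
    rw [hw, ← Real.sqrt_mul (by norm_num), Real.sqrt_le_left (by norm_num)]
    norm_num
  have key : ∀ g ∈ Finset.Icc 1 ⌊P⌋₊, ∑ c ∈ Finset.Icc 1 ⌊P / g⌋₊,
      ∑ a ∈ Finset.Icc 1 ⌊2 * P * m ^ 2 / g⌋₊, ∑ b ∈ Finset.Icc 1 ⌊2 * m ^ 2 / (g : ℝ)⌋₊,
        (1 + √(2 * (4 * (24 * m ^ 8 / P ^ 2) / (a : ℝ) + 1) * (m ^ 4 / (b : ℝ)) *
          (2 * m ^ 4 * T / ((b : ℝ) * (c : ℝ)) + 1))) ≤ 396 * T * Λ * m ^ 9 * (1 / (g : ℝ)) := by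
    intro g hg
    rw [Finset.mem_Icc] at hg
    have hg1 : (1 : ℝ) ≤ g := by exact_mod_cast hg.1
    have hg0 : (0 : ℝ) < g := by linarith
    set r := √(g : ℝ) with hr
    have hr2 : r ^ 2 = g := Real.sq_sqrt hg0.le
    have hr1 : 1 ≤ r := by rw [hr, Real.one_le_sqrt]; exact hg1
    have hr0 : 0 < r := by linarith
    have hB : 2 * m ^ 2 / (g : ℝ) ≤ 3 * m ^ 2 := by
      rw [div_le_iff₀ hg0]
      nlinarith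
    have h1 := inner_le (K := 24 * m ^ 8 / P ^ 2) (m := m) (T := T) (Λ := Λ)
      (A := 2 * P * m ^ 2 / g) (B := 2 * m ^ 2 / (g : ℝ)) (C := P / g)
      (by positivity) hm0.le hT0.le (by positivity) (by positivity) (by positivity)
      ((sum_inv hB h3m).trans hΛ)
    refine h1.trans ?_
    have sA : √(2 * P * m ^ 2 / g) = w * p * m / r := by
      rw [Real.sqrt_div (by positivity), Real.sqrt_mul (by positivity), Real.sqrt_mul (by norm_num),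
        Real.sqrt_sq hm0.le]
    have sB : √(2 * m ^ 2 / (g : ℝ)) = w * m / r := by
      rw [Real.sqrt_div (by positivity), Real.sqrt_mul (by norm_num), Real.sqrt_sq hm0.le]
    have sC : √(P / g) = p / r := Real.sqrt_div hP0.le _
    have sT : √(2 * T) = w * q := Real.sqrt_mul (by norm_num) _
    rw [hK, sA, sB, sC, sT]
    have e1 : P / g * (2 * P * m ^ 2 / g) * (2 * m ^ 2 / g) ≤ 24 * T * Λ * m ^ 9 * (1 / (g : ℝ)) := by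
      have a1 : P / g * (2 * P * m ^ 2 / g) * (2 * m ^ 2 / g) = 4 * P ^ 2 * m ^ 4 * (1 / (g : ℝ)) ^ 3 := by
        field_simp
        ring
      have a2 : (1 / (g : ℝ)) ^ 3 ≤ 1 / g := by
        apply pow_le_of_le_one (by positivity) _ (by norm_num)
        rw [div_le_one hg0]
        exact hg1
      have a3 : 4 * P ^ 2 * m ^ 4 ≤ 24 * T * Λ * m ^ 9 := by
        have b1 : P ^ 2 * m ^ 4 ≤ 6 * m ^ 8 := by nlinarith [pow_pos hm0 4]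
        have b2 : m ^ 8 ≤ m ^ 9 := pow_le_pow_right₀ hm (by norm_num)
        have b3 : 1 ≤ T * Λ := one_le_mul_of_one_le_of_one_le hT hΛ1
        have b4 : m ^ 9 ≤ T * Λ * m ^ 9 := by nlinarith [pow_pos hm0 9]
        nlinarith
      rw [a1]
      exact mul_le_mul a3 a2 (by positivity) (by positivity)
    have e2 : w * ((4 * (√24 * m ^ 4 / P) * (w * p * m / r) + 2 * P * m ^ 2 / g) *
        (2 * m ^ 4 * (w * q) * Λ * (p / r) + 2 * m ^ 2 * (w * m / r) * (P / g))) ≤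
        372 * T * Λ * m ^ 9 * (1 / (g : ℝ)) := by
      have c1 : 2 * m ^ 4 * (w * q) * Λ * (p / r) + 2 * m ^ 2 * (w * m / r) * (P / g) =
          2 * w * (m ^ 4 * q * Λ * p / r + m ^ 3 * p ^ 2 / r ^ 3) := by
        rw [← hp2, ← hr2]
        field_simp
      have c2 : 4 * (√24 * m ^ 4 / P) * (w * p * m / r) + 2 * P * m ^ 2 / g ≤
          28 * m ^ 5 / (p * r) + 2 * p ^ 2 * m ^ 2 / r ^ 2 := by
        have d1 : 4 * (√24 * m ^ 4 / P) * (w * p * m / r) = 4 * (√24 * w) * m ^ 5 / (p * r) := by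
          rw [← hp2]
          field_simp
        rw [d1, hp2, hr2]
        have d2 : 4 * (√24 * w) * m ^ 5 / (p * r) ≤ 28 * m ^ 5 / (p * r) := by
          apply div_le_div_of_nonneg_right _ (by positivity)
          nlinarith [pow_pos hm0 5]
        linarith
      have c3 := final_le hm hp1 hpm hq1 hΛ1 hr1
      rw [c1]
      have c4 : 0 ≤ m ^ 4 * q * Λ * p / r + m ^ 3 * p ^ 2 / r ^ 3 := by positivity
      calc w * ((4 * (√24 * m ^ 4 / P) * (w * p * m / r) + 2 * P * m ^ 2 / g) *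
          (2 * w * (m ^ 4 * q * Λ * p / r + m ^ 3 * p ^ 2 / r ^ 3)))
          = 2 * w ^ 2 * ((4 * (√24 * m ^ 4 / P) * (w * p * m / r) + 2 * P * m ^ 2 / g) *
          (m ^ 4 * q * Λ * p / r + m ^ 3 * p ^ 2 / r ^ 3)) := by ring
        _ = 4 * ((4 * (√24 * m ^ 4 / P) * (w * p * m / r) + 2 * P * m ^ 2 / g) *
          (m ^ 4 * q * Λ * p / r + m ^ 3 * p ^ 2 / r ^ 3)) := by rw [hw2]; ring
        _ ≤ 4 * ((28 * m ^ 5 / (p * r) + 2 * p ^ 2 * m ^ 2 / r ^ 2) *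
          (m ^ 4 * q * Λ * p / r + m ^ 3 * p ^ 2 / r ^ 3)) := by gcongr
        _ ≤ 4 * (93 * q * Λ * m ^ 9 / r ^ 2) := by gcongr
        _ ≤ 4 * (93 * T * Λ * m ^ 9 / r ^ 2) := by gcongr
        _ = _ := by rw [hr2]; ring
    have e3 : 24 * T * Λ * m ^ 9 * (1 / (g : ℝ)) + 372 * T * Λ * m ^ 9 * (1 / (g : ℝ)) =
        396 * T * Λ * m ^ 9 * (1 / (g : ℝ)) := by ring
    rw [← e3]
    exact add_le_add e1 e2
  refine (Finset.sum_le_sum key).trans ?_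
  rw [← Finset.mul_sum]
  have h1 : ∑ g ∈ Finset.Icc 1 ⌊P⌋₊, 1 / (g : ℝ) ≤ Λ := (sum_inv hP3 h3m).trans hΛ
  calc 396 * T * Λ * m ^ 9 * ∑ g ∈ Finset.Icc 1 ⌊P⌋₊, 1 / (g : ℝ)
      ≤ 396 * T * Λ * m ^ 9 * Λ := by gcongr
    _ = 396 * (T * Λ ^ 2 * m ^ 9) := by ring
    _ ≤ 1000 * (T * Λ ^ 2 * m ^ 9) := by gcongr; norm_num
    _ = _ := by ring

end Pool.Agent.FTA
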