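import Pool.Agent.FTA.Fib
import Pool.Agent.FTA.Par
import Pool.Agent.FTA.FBd
import Pool.Agent.FTA.SumA

/-!
# FTA/LTwo: the triples whose tuple has `|u| c` large

PROOF of `ltwo`.  If `S` is empty this is clear; otherwise `par` gives the sizes.  Choose for every
`q = (N, w, t) ∈ S` a tuple `(g, c, u, v, e)`; `K = 24 m ^ 8 / P ^ 2`.
For given `(g, c, u, v)` the fibre of `q ↦ (g, c, u, v)` has at most
`3 (1 + √(2 (4 K / |u| + 1) (M / |v|) (2 M T / (|v| c) + 1)))` elements: `q ↦ (N, e)` is injective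
on the fibre (`g (u ^ 2 - c ^ 2 N) = v w` determines `w` as `v ≠ 0`, and the last identity of
`TupP` determines `t` as `g, c, u ≠ 0`), and the image satisfies the hypotheses of `fbd` (all
conditions of `IsF` are in `IsA` and `TupP`; `card (divisors c) ≤ T` as
`1 ≤ c ≤ P ≤ 3 m ^ 2 ≤ (16 M) ^ 20`).
The sum over `(g, c, u, v)`: `g ∈ [1, P]`, `c ∈ [1, P / g]`, `|u| ∈ [1, 2 P m ^ 2 / g]`,
`|v| ∈ [1, 2 m ^ 2 / g]` (from `TupP`), two signs each for `u`, `v`: so `card S` is at most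
`4 * 3` times the sum of `sumA` (with `M = m ^ 4`).
For the nested sum apply `fib` (module `Fib`) successively with the maps `g`, `c`, `|u|`, `|v|`,
and the signs (a lemma for fixed `g, c, |u|, |v|` first: at most `4` sign patterns, each
with at most `3 (1 + √...)` elements), or rewrite the nested sum as a sum over a sigma finset.
-/

set_option autoImplicit false

namespace Pool.Agent.FTA

private theorem cast_natAbs' (u : ℤ) : ((u.natAbs : ℕ) : ℝ) = |(u : ℝ)| := by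
  rw [Nat.cast_natAbs, Int.cast_abs]

/-- fixed `(g, c, u, v)` -/
private theorem fix_le (M Y : ℕ) (m P T : ℝ) (hm : 0 < m) (hm4 : m ^ 4 = (M : ℝ)) (hP : 0 < P)
    (hPY : P ^ 2 * m ^ 2 = (Y : ℝ)) (hT1 : 1 ≤ T)
    (hT : ∀ n : ℕ, 1 ≤ n → n ≤ (16 * M) ^ 20 → (n.divisors.card : ℝ) ≤ T)
    (S : Finset (ℕ × ℕ × ℤ)) (g c : ℕ) (u v : ℤ) (e : ℕ × ℕ × ℤ → ℤ)
    (hS : ∀ q ∈ S, IsA M Y q.1 q.2.1 q.2.2 ∧ TupP m P q.1 q.2.1 q.2.2 g c u v (e q) ∧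
      24 * m ^ 8 / P ^ 2 ≤ |(u : ℝ)| * c) :
    (S.card : ℝ) ≤ 3 * (1 + √(2 * (4 * (24 * m ^ 8 / P ^ 2) / |(u : ℝ)| + 1) *
      (m ^ 4 / |(v : ℝ)|) * (2 * m ^ 4 * T / (|(v : ℝ)| * c) + 1))) := by
  classical
  rcases S.eq_empty_or_nonempty with rfl | ⟨q0, hq0⟩
  · rw [Finset.card_empty, Nat.cast_zero]
    positivity
  obtain ⟨hA0, hT0, hK⟩ := hS q0 hq0
  obtain ⟨hM, hY, hm1, hP1, hPm, hYm⟩ := par M Y _ _ _ hA0 m P hm hm4 hP hPY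
  obtain ⟨hg, hc, hu, hv, huc, hvc, hgc, -⟩ := hT0
  have hinj : Set.InjOn (fun q : ℕ × ℕ × ℤ => (q.1, e q)) (S : Set (ℕ × ℕ × ℤ)) := by
    intro q hq q' hq' h
    obtain ⟨-, ht, -⟩ := hS q hq
    obtain ⟨-, ht', -⟩ := hS q' hq'
    obtain ⟨-, -, -, -, -, -, -, -, -, -, -, -, h1, h2⟩ := ht
    obtain ⟨-, -, -, -, -, -, -, -, -, -, -, -, h1', h2'⟩ := ht'
    have h' : (q.1, e q) = (q'.1, e q') := h
    have hN : q.1 = q'.1 := (Prod.ext_iff.1 h').1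
    have he : e q = e q' := (Prod.ext_iff.1 h').2
    rw [← hN] at h1' h2'
    rw [← he] at h2'
    have hw : (q.2.1 : ℤ) = q'.2.1 := by
      have : v * (q.2.1 : ℤ) = v * q'.2.1 := by rw [← h1, ← h1']
      exact mul_left_cancel₀ hv this
    rw [← hw] at h2'
    have ht : q.2.2 = q'.2.2 := by
      have h3 : (g : ℤ) ^ 2 * (c : ℤ) ^ 2 * (q.2.2 * u * c - (q.1 : ℤ) ^ 2 * (u ^ 2 + q.1 * (c : ℤ) ^ 2))
          = (g : ℤ) ^ 2 * (c : ℤ) ^ 2 * (q'.2.2 * u * c - (q.1 : ℤ) ^ 2 * (u ^ 2 + q.1 * (c : ℤ) ^ 2)) := by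
        rw [← h2, ← h2']
      have hg0 : (g : ℤ) ≠ 0 := by positivity
      have hc0 : (c : ℤ) ≠ 0 := by positivity
      have h4 := mul_left_cancel₀ (mul_ne_zero (pow_ne_zero 2 hg0) (pow_ne_zero 2 hc0)) h3
      have h5 : q.2.2 * (u * c) = q'.2.2 * (u * c) := by linarith
      exact mul_right_cancel₀ (mul_ne_zero hu hc0) h5
    exact Prod.ext hN (Prod.ext (by exact_mod_cast hw) ht)
  have hcard : (S.image (fun q : ℕ × ℕ × ℤ => (q.1, e q))).card = S.card :=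
    Finset.card_image_of_injOn hinj
  have hF := fbd M c u v hc hu hv huc hvc (24 * m ^ 8 / P ^ 2) (by positivity) hK
    (S.image (fun q : ℕ × ℕ × ℤ => (q.1, e q))) (by
      intro x hx
      rw [Finset.mem_image] at hx
      obtain ⟨q, hq, rfl⟩ := hx
      obtain ⟨hA, ht, -⟩ := hS q hq
      obtain ⟨-, -, -, -, -, -, -, -, -, k1, k2, k3, -, -⟩ := ht
      exact ⟨hA.1, hA.2.1, k1, k2, k3⟩)
  rw [hcard, ← hm4] at hF
  have hg1 : (1 : ℝ) ≤ g := by exact_mod_cast hg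
  have hc1 : (1 : ℝ) ≤ c := by exact_mod_cast hc
  have hcP : (c : ℝ) ≤ P := by nlinarith
  have hP3 : P ≤ 3 * m ^ 2 := by
    have : P ^ 2 ≤ (3 * m ^ 2) ^ 2 := by nlinarith [pow_pos hm 4]
    exact le_of_sq_le_sq this (by positivity)
  have hcM : (c : ℝ) ≤ 3 * M := by
    rw [← hm4]
    have : m ^ 2 ≤ m ^ 4 := pow_le_pow_right₀ hm1 (by norm_num)
    linarith
  have hcM' : c ≤ 3 * M := by exact_mod_cast hcM
  have hcM'' : c ≤ (16 * M) ^ 20 := by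
    have : 16 * M ≤ (16 * M) ^ 20 := Nat.le_self_pow (by norm_num) _
    omega
  have hτ := hT c hc hcM''
  refine hF.trans ?_
  have hv0 : 0 < |(v : ℝ)| := abs_pos.2 (by exact_mod_cast hv)
  have hu0 : 0 < |(u : ℝ)| := abs_pos.2 (by exact_mod_cast hu)
  gcongr

/-- fixed `(g, c, |u|, |v|)` -/
private theorem fix_abs_le (M Y : ℕ) (m P T : ℝ) (hm : 0 < m) (hm4 : m ^ 4 = (M : ℝ)) (hP : 0 < P)
    (hPY : P ^ 2 * m ^ 2 = (Y : ℝ)) (hT1 : 1 ≤ T)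
    (hT : ∀ n : ℕ, 1 ≤ n → n ≤ (16 * M) ^ 20 → (n.divisors.card : ℝ) ≤ T)
    (S : Finset (ℕ × ℕ × ℤ)) (G : ℕ × ℕ × ℤ → ℕ × ℕ × ℤ × ℤ × ℤ) (g c a b : ℕ)
    (hS : ∀ q ∈ S, IsA M Y q.1 q.2.1 q.2.2 ∧ TupP m P q.1 q.2.1 q.2.2 (G q).1 (G q).2.1
      (G q).2.2.1 (G q).2.2.2.1 (G q).2.2.2.2 ∧ 24 * m ^ 8 / P ^ 2 ≤ |((G q).2.2.1 : ℝ)| * (G q).2.1)
    (h1 : ∀ q ∈ S, (G q).1 = g ∧ (G q).2.1 = c ∧ (G q).2.2.1.natAbs = a ∧
      (G q).2.2.2.1.natAbs = b) :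
    (S.card : ℝ) ≤ 12 * (1 + √(2 * (4 * (24 * m ^ 8 / P ^ 2) / (a : ℝ) + 1) *
      (m ^ 4 / (b : ℝ)) * (2 * m ^ 4 * T / ((b : ℝ) * (c : ℝ)) + 1))) := by
  classical
  have hfib := fib_const S (fun q => ((G q).2.2.1, (G q).2.2.2.1))
    (({(a : ℤ), -(a : ℤ)} : Finset ℤ) ×ˢ ({(b : ℤ), -(b : ℤ)} : Finset ℤ)) (by
      intro q hq
      obtain ⟨-, -, h3, h4⟩ := h1 q hq
      rw [Finset.mem_product, Finset.mem_insert, Finset.mem_singleton,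
        Finset.mem_insert, Finset.mem_singleton]
      exact ⟨Int.natAbs_eq_iff.1 h3, Int.natAbs_eq_iff.1 h4⟩)
    (3 * (1 + √(2 * (4 * (24 * m ^ 8 / P ^ 2) / (a : ℝ) + 1) *
      (m ^ 4 / (b : ℝ)) * (2 * m ^ 4 * T / ((b : ℝ) * (c : ℝ)) + 1)))) (by
      rintro ⟨u, v⟩ hy
      rw [Finset.mem_product, Finset.mem_insert, Finset.mem_singleton,
        Finset.mem_insert, Finset.mem_singleton] at hy
      have hu : |(u : ℝ)| = a := by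
        rw [← cast_natAbs', Int.natAbs_eq_iff.2 hy.1]
      have hv : |(v : ℝ)| = b := by
        rw [← cast_natAbs', Int.natAbs_eq_iff.2 hy.2]
      rw [← hu, ← hv]
      apply fix_le M Y m P T hm hm4 hP hPY hT1 hT _ g c u v (fun q => (G q).2.2.2.2)
      intro q hq
      rw [Finset.mem_filter] at hq
      obtain ⟨hq, hq2⟩ := hq
      obtain ⟨k1, k2, k3⟩ := hS q hq
      obtain ⟨j1, j2, -, -⟩ := h1 q hq
      have e1 : (G q).2.2.1 = u := congrArg Prod.fst hq2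
      have e2 : (G q).2.2.2.1 = v := congrArg Prod.snd hq2
      rw [j1, j2, e1, e2] at k2
      rw [j2, e1] at k3
      exact ⟨k1, k2, k3⟩)
  have hc4 : (((({(a : ℤ), -(a : ℤ)} : Finset ℤ) ×ˢ ({(b : ℤ), -(b : ℤ)} : Finset ℤ)).card : ℕ) : ℝ)
      ≤ 4 := by
    rw [Finset.card_product]
    have h2 : ({(a : ℤ), -(a : ℤ)} : Finset ℤ).card ≤ 2 := Finset.card_le_two
    have h3 : ({(b : ℤ), -(b : ℤ)} : Finset ℤ).card ≤ 2 := Finset.card_le_two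
    have h4 := Nat.mul_le_mul h2 h3
    exact_mod_cast h4
  refine hfib.trans ?_
  have h5 : 0 ≤ 3 * (1 + √(2 * (4 * (24 * m ^ 8 / P ^ 2) / (a : ℝ) + 1) *
      (m ^ 4 / (b : ℝ)) * (2 * m ^ 4 * T / ((b : ℝ) * (c : ℝ)) + 1))) := by positivity
  nlinarith

theorem ltwo (M Y : ℕ) (m P T Λ : ℝ) (hm : 0 < m) (hm4 : m ^ 4 = (M : ℝ)) (hP : 0 < P)
    (hPY : P ^ 2 * m ^ 2 = (Y : ℝ)) (hT1 : 1 ≤ T)
    (hT : ∀ n : ℕ, 1 ≤ n → n ≤ (16 * M) ^ 20 → (n.divisors.card : ℝ) ≤ T)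
    (hΛ1 : 1 ≤ Λ) (hΛ : 1 + Real.log (3 * m ^ 2) ≤ Λ)
    (S : Finset (ℕ × ℕ × ℤ))
    (hS : ∀ q ∈ S, IsA M Y q.1 q.2.1 q.2.2 ∧ ∃ (g c : ℕ) (u v e : ℤ),
      TupP m P q.1 q.2.1 q.2.2 g c u v e ∧ 24 * m ^ 8 / P ^ 2 ≤ |(u : ℝ)| * c) :
    (S.card : ℝ) ≤ 12000 * T * Λ ^ 2 * m ^ 9 := by
  classical
  rcases S.eq_empty_or_nonempty with rfl | ⟨q0, hq0⟩
  · rw [Finset.card_empty, Nat.cast_zero]
    positivity
  obtain ⟨hM, hY, hm1, hP1, hPm, hYm⟩ := par M Y _ _ _ (hS q0 hq0).1 m P hm hm4 hP hPY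
  have h0 : ∀ q ∈ S, ∃ x : ℕ × ℕ × ℤ × ℤ × ℤ, IsA M Y q.1 q.2.1 q.2.2 ∧
      TupP m P q.1 q.2.1 q.2.2 x.1 x.2.1 x.2.2.1 x.2.2.2.1 x.2.2.2.2 ∧
      24 * m ^ 8 / P ^ 2 ≤ |(x.2.2.1 : ℝ)| * x.2.1 := by
    intro q hq
    obtain ⟨h1, g, c, u, v, e, h2, h3⟩ := hS q hq
    exact ⟨(g, c, u, v, e), h1, h2, h3⟩
  choose! G hG using h0
  have hsum := sumA m P T Λ hm1 hP1 hPm hT1 hΛ
  have hmain : (S.card : ℝ) ≤ ∑ g ∈ Finset.Icc 1 ⌊P⌋₊, ∑ c ∈ Finset.Icc 1 ⌊P / g⌋₊,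
      ∑ a ∈ Finset.Icc 1 ⌊2 * P * m ^ 2 / g⌋₊, ∑ b ∈ Finset.Icc 1 ⌊2 * m ^ 2 / (g : ℝ)⌋₊,
        12 * (1 + √(2 * (4 * (24 * m ^ 8 / P ^ 2) / (a : ℝ) + 1) * (m ^ 4 / (b : ℝ)) *
          (2 * m ^ 4 * T / ((b : ℝ) * (c : ℝ)) + 1))) := by
    apply fib S (fun q => (G q).1)
    · intro q hq
      obtain ⟨-, ⟨hg, hc, -, -, -, -, hgc, -⟩, -⟩ := hG q hq
      have hg1 : (1 : ℝ) ≤ (G q).1 := by exact_mod_cast hg
      have hc1 : (1 : ℝ) ≤ (G q).2.1 := by exact_mod_cast hc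
      rw [Finset.mem_Icc]
      exact ⟨hg, Nat.le_floor (by nlinarith)⟩
    intro g hg
    rw [Finset.mem_Icc] at hg
    have hg0 : (0 : ℝ) < g := by exact_mod_cast hg.1
    apply fib _ (fun q => (G q).2.1)
    · intro q hq
      rw [Finset.mem_filter] at hq
      obtain ⟨hq, e1⟩ := hq
      obtain ⟨-, ⟨hg', hc, -, -, -, -, hgc, -⟩, -⟩ := hG q hq
      rw [e1] at hgc
      rw [Finset.mem_Icc]
      refine ⟨hc, Nat.le_floor ?_⟩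
      rw [le_div_iff₀ hg0, mul_comm]
      exact hgc
    intro c hc
    apply fib _ (fun q => (G q).2.2.1.natAbs)
    · intro q hq
      rw [Finset.mem_filter, Finset.mem_filter] at hq
      obtain ⟨⟨hq, e1⟩, e2⟩ := hq
      obtain ⟨-, ⟨hg', hc, hu, hv, -, -, hgc, hgu, -⟩, -⟩ := hG q hq
      rw [e1] at hgu
      rw [Finset.mem_Icc]
      refine ⟨Int.natAbs_pos.2 hu, Nat.le_floor ?_⟩
      rw [cast_natAbs', le_div_iff₀ hg0, mul_comm]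
      exact hgu
    intro a ha
    apply fib _ (fun q => (G q).2.2.2.1.natAbs)
    · intro q hq
      rw [Finset.mem_filter, Finset.mem_filter, Finset.mem_filter] at hq
      obtain ⟨⟨⟨hq, e1⟩, e2⟩, e3⟩ := hq
      obtain ⟨-, ⟨hg', hc, hu, hv, -, -, hgc, hgu, hgv, -⟩, -⟩ := hG q hq
      rw [e1] at hgv
      rw [Finset.mem_Icc]
      refine ⟨Int.natAbs_pos.2 hv, Nat.le_floor ?_⟩
      rw [cast_natAbs', le_div_iff₀ hg0, mul_comm]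
      exact hgv
    intro b hb
    apply fix_abs_le M Y m P T hm hm4 hP hPY hT1 hT _ G g c a b
    · intro q hq
      simp only [Finset.mem_filter] at hq
      exact hG q hq.1.1.1.1
    · intro q hq
      simp only [Finset.mem_filter] at hq
      exact ⟨hq.1.1.1.2, hq.1.1.2, hq.1.2, hq.2⟩
  refine hmain.trans ?_
  simp only [← Finset.mul_sum]
  calc _ ≤ 12 * (1000 * T * Λ ^ 2 * m ^ 9) := mul_le_mul_of_nonneg_left hsum (by norm_num)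
    _ = _ := by ring


end Pool.Agent.FTA
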