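import Pool.Agent.FTA.Tup
import Pool.Agent.FTA.LSq
import Pool.Agent.FTA.LOne
import Pool.Agent.FTA.LTwo

/-! # FTA/Large: the number of triples `(N, w, t)` -/

set_option autoImplicit false

namespace Pool.Agent.FTA

theorem large (M Y : ℕ) (m P T Λ : ℝ) (hm : 0 < m) (hm4 : m ^ 4 = (M : ℝ)) (hP : 0 < P)
    (hPY : P ^ 2 * m ^ 2 = (Y : ℝ)) (hT1 : 1 ≤ T)
    (hT : ∀ n : ℕ, 1 ≤ n → n ≤ (16 * M) ^ 20 → (n.divisors.card : ℝ) ≤ T)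
    (hΛ1 : 1 ≤ Λ) (hΛ : 1 + Real.log (3 * m ^ 2) ≤ Λ)
    (S : Finset (ℕ × ℕ × ℤ)) (hS : ∀ q ∈ S, IsA M Y q.1 q.2.1 q.2.2) :
    (S.card : ℝ) ≤ 14000 * T ^ 3 * Λ ^ 2 * m ^ 9 := by
  classical
  rcases S.eq_empty_or_nonempty with rfl | ⟨q0, hq0⟩
  · simp
    positivity
  obtain ⟨hM1, hY1, hm1, hP1, hPm, hYm⟩ := par M Y _ _ _ (hS q0 hq0) m P hm hm4 hP hPY
  set S1 := S.filter (fun q => IsSquare q.1) with hS1
  set S2 := S.filter (fun q => ¬ IsSquare q.1) with hS2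
  have hsplit : S.card = S1.card + S2.card := by
    rw [hS1, hS2]
    exact (Finset.card_filter_add_card_filter_not (s := S) (fun q => IsSquare q.1)).symm
  set R : ℕ × ℕ × ℤ → Prop := fun q => ∃ (g c : ℕ) (u v e : ℤ),
      TupP m P q.1 q.2.1 q.2.2 g c u v e ∧ |(u : ℝ)| * c < 24 * m ^ 8 / P ^ 2 with hR
  set S3 := S2.filter R with hS3
  set S4 := S2.filter (fun q => ¬ R q) with hS4
  have hsplit2 : S2.card = S3.card + S4.card := by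
    rw [hS3, hS4]
    exact (Finset.card_filter_add_card_filter_not (s := S2) R).symm
  have b1 : (S1.card : ℝ) ≤ 600 * T ^ 2 * m ^ 8 := by
    apply lsq M Y m P T hm hm4 hP hPY hT S1
    intro q hq
    rw [hS1, Finset.mem_filter] at hq
    exact ⟨hS q hq.1, hq.2⟩
  have b3 : (S3.card : ℝ) ≤ 1400 * T ^ 3 * Λ ^ 2 * m ^ 9 := by
    apply lone M Y m P T Λ hm hm4 hP hPY hT1 hT hΛ1 hΛ S3
    intro q hq
    rw [hS3, Finset.mem_filter, hS2, Finset.mem_filter] at hq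
    exact ⟨hS q hq.1.1, hq.2⟩
  have b4 : (S4.card : ℝ) ≤ 12000 * T * Λ ^ 2 * m ^ 9 := by
    apply ltwo M Y m P T Λ hm hm4 hP hPY hT1 hT hΛ1 hΛ S4
    intro q hq
    rw [hS4, Finset.mem_filter, hS2, Finset.mem_filter] at hq
    refine ⟨hS q hq.1.1, ?_⟩
    obtain ⟨g, c, u, v, e, h⟩ := tup M Y q.1 q.2.1 q.2.2 (hS q hq.1.1) hq.1.2 m P hm hm4 hP hPY
    refine ⟨g, c, u, v, e, h, ?_⟩
    by_contra hcon
    push Not at hcon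
    exact hq.2 ⟨g, c, u, v, e, h, hcon⟩
  rw [hsplit, hsplit2]
  push_cast
  have hT2 : T ^ 2 ≤ T ^ 3 := pow_le_pow_right₀ hT1 (by norm_num)
  have hT3 : T ≤ T ^ 3 := by
    calc T = T ^ 1 := (pow_one T).symm
      _ ≤ T ^ 3 := pow_le_pow_right₀ hT1 (by norm_num)
  have hm8 : m ^ 8 ≤ m ^ 9 := pow_le_pow_right₀ hm1 (by norm_num)
  have hΛ2 : 1 ≤ Λ ^ 2 := one_le_pow₀ hΛ1
  have hm9 : 0 < m ^ 9 := by positivity
  have c1 : 600 * T ^ 2 * m ^ 8 ≤ 600 * T ^ 3 * Λ ^ 2 * m ^ 9 := by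
    calc 600 * T ^ 2 * m ^ 8 ≤ 600 * T ^ 3 * m ^ 9 := by gcongr
      _ = 600 * T ^ 3 * 1 * m ^ 9 := by ring
      _ ≤ 600 * T ^ 3 * Λ ^ 2 * m ^ 9 := by gcongr
  have c4 : 12000 * T * Λ ^ 2 * m ^ 9 ≤ 12000 * T ^ 3 * Λ ^ 2 * m ^ 9 := by gcongr
  linarith

end Pool.Agent.FTA
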