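import Mathlib

/-!
# FTA/Sur: surjections onto a group of prime order and the `p`-torsion

PROOF of `sur`.  Let `P = closure {g | ∃ n, g ^ (p ^ n) = 1}`, a finite abelian group.  The
surjective homomorphisms `P →* H` are among all homomorphisms `P →* H`.  The number of
homomorphisms from a finite abelian group `P` to a cyclic group `H` of order `p` is the number of
`x ∈ P` with `x ^ p = 1`, which is at most the number of `c ∈ G` with `c ^ p = 1`.
For the count of homomorphisms: choose an embedding of `H` in `ℂˣ` (roots of unity), so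
`P →* H` injects into the characters `χ : P →* ℂˣ` with `χ ^ p = 1`; and the dual group
`P →* ℂˣ` is isomorphic to `P` (`CommGroup.monoidHom_mulEquiv_of_hasEnoughRootsOfUnity`, a
noncanonical isomorphism for finite abelian groups), so the number of `χ` with `χ ^ p = 1` is the
number of `x ∈ P` with `x ^ p = 1`.  (Alternative: `P →* H` factors through `P / P ^ p`, an
`F_p`-vector space `V`, homomorphisms `= Module.Dual`, of the same cardinality as `V`;
and `|P / P ^ p| = |P[p]|` from the exact sequence of `x ↦ x ^ p`.)
-/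

set_option autoImplicit false

namespace Pool.Agent.FTA

private theorem sur_gen (p : ℕ) (hp : p.Prime) (P : Type*) [CommGroup P] [Finite P]
    (H : Type*) [CommGroup H] (hH : Nat.card H = p) :
    ∃ F : (P →* H) → {x : P // x ^ p = 1}, Function.Injective F := by
  have : Fact p.Prime := ⟨hp⟩
  have hne : NeZero p := ⟨hp.ne_zero⟩
  have hc : Nat.card (rootsOfUnity p ℂ) = p := Complex.card_rootsOfUnity p
  let e : H ≃* rootsOfUnity p ℂ := mulEquivOfPrimeCardEq hH hc
  let ι : H →* ℂˣ := (rootsOfUnity p ℂ).subtype.comp e.toMonoidHom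
  have hι : Function.Injective ι := by
    intro a b hab
    exact e.injective (Subtype.ext hab)
  obtain ⟨E⟩ := CommGroup.monoidHom_mulEquiv_of_hasEnoughRootsOfUnity P ℂ
  refine ⟨fun f => ⟨E (ι.comp f), ?_⟩, fun f g hfg => ?_⟩
  · rw [← map_pow]
    have : (ι.comp f) ^ p = 1 := by
      ext x
      have h1 : (f x) ^ p = 1 := by rw [← hH]; exact pow_card_eq_one'
      have h2 : (ι (f x)) ^ p = 1 := by rw [← map_pow, h1, map_one]
      rw [MonoidHom.pow_apply, MonoidHom.comp_apply, h2]
      rfl
    rw [this, map_one]
  · have h1 : ι.comp f = ι.comp g := E.injective (congrArg Subtype.val hfg)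
    ext x
    exact hι (DFunLike.congr_fun h1 x)

theorem sur (p : ℕ) (hp : p.Prime) (G : Type*) [CommGroup G] [Finite G]
    (H : Type*) [CommGroup H] (hH : Nat.card H = p) :
    Nat.card {f : ↥(Subgroup.closure {g : G | ∃ n : ℕ, g ^ (p ^ n) = 1}) →* H //
      Function.Surjective f} ≤ Nat.card {c : G // c ^ p = 1} := by
  obtain ⟨F, hF⟩ := sur_gen p hp ↥(Subgroup.closure {g : G | ∃ n : ℕ, g ^ (p ^ n) = 1}) H hH
  refine Nat.card_le_card_of_injective (fun f => ⟨((F f.1).1 : G), ?_⟩) ?_
  · have := (F f.1).2
    exact_mod_cast congrArg Subtype.val this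
  · intro f g hfg
    have h0 := congrArg (fun c : {c : G // c ^ p = 1} => c.1) hfg
    have h1 : ((F f.1).1 : G) = ((F g.1).1 : G) := h0
    apply Subtype.ext
    apply hF
    exact Subtype.ext (Subtype.ext h1)

end Pool.Agent.FTA
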