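import Pool.Agent.FTA.IntMain
import Pool.Agent.FTA.Fam
import Pool.Agent.FTA.Sur

/-! # FTA/Main: the average of the 5-torsion -/

set_option autoImplicit false

namespace Pool.Agent.FTA

open NumberField

theorem mem_IQ_iff (K : IntermediateField ℚ ℂ) (X : ℝ) (hX : 0 ≤ X) :
    (∃ hK : NumberField K, Module.finrank ℚ K = 2 ∧ (∃ x : K, (x : ℂ).im ≠ 0) ∧
      |((NumberField.discr K : ℤ) : ℝ)| ≤ X) ↔ K ∈ IQ ⌊X⌋₊ := by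
  have key : ∀ z : ℤ, |((z : ℤ) : ℝ)| = (z.natAbs : ℝ) := by
    intro z
    rw [← Int.cast_abs, Int.abs_eq_natAbs, Int.cast_natCast]
  constructor
  · rintro ⟨hK, h1, h2, h3⟩
    refine ⟨hK, h1, h2, ?_⟩
    rw [aD_eq K]
    rw [key] at h3
    exact Nat.le_floor h3
  · rintro ⟨hK, h1, h2, h3⟩
    refine ⟨hK, h1, h2, ?_⟩
    rw [aD_eq K] at h3
    rw [key]
    exact (Nat.cast_le.mpr h3).trans (Nat.floor_le hX)

theorem set_eq (X : ℝ) (hX : 0 ≤ X) :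
    {K : IntermediateField ℚ ℂ | ∃ hK : NumberField K, Module.finrank ℚ K = 2 ∧
      (∃ x : K, (x : ℂ).im ≠ 0) ∧ |((NumberField.discr K : ℤ) : ℝ)| ≤ X} = IQ ⌊X⌋₊ := by
  ext K
  exact mem_IQ_iff K X hX

/-- the sum of `|Cl(K)[5]|` -/
theorem main5 (ε : ℝ) (hε : 0 < ε) : ∃ C : ℝ, ∀ X : ℝ, 1 ≤ X →
    ∑ᶠ K ∈ IQ ⌊X⌋₊, (Nat.card {c : ClassGroup (𝓞 K) // c ^ 5 = 1} : ℝ) ≤
      C * X ^ (9 / 8 + ε) := by
  obtain ⟨C, hC, h⟩ := intMain ε hε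
  refine ⟨1 + C, ?_⟩
  intro X hX
  have hf : 1 ≤ ⌊X⌋₊ := Nat.le_floor (by simpa using hX)
  have h1 := famSum 5 (by decide) ⌊X⌋₊ (C * (⌊X⌋₊ : ℝ) ^ (9 / 8 + ε)) (by
    intro S hS
    exact h ⌊X⌋₊ hf S hS)
  have hle : ((⌊X⌋₊ : ℕ) : ℝ) ≤ X := Nat.floor_le (by linarith)
  have h2 : (⌊X⌋₊ : ℝ) ^ (9 / 8 + ε) ≤ X ^ (9 / 8 + ε) :=
    Real.rpow_le_rpow (by positivity) hle (by linarith)
  have h3 : X ≤ X ^ (9 / 8 + ε) := by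
    calc X = X ^ (1 : ℝ) := (Real.rpow_one X).symm
      _ ≤ X ^ (9 / 8 + ε) := Real.rpow_le_rpow_of_exponent_le hX (by linarith)
  calc _ ≤ (⌊X⌋₊ : ℝ) + C * (⌊X⌋₊ : ℝ) ^ (9 / 8 + ε) := h1
    _ ≤ X ^ (9 / 8 + ε) + C * X ^ (9 / 8 + ε) :=
      add_le_add (hle.trans h3) (mul_le_mul_of_nonneg_left h2 hC.le)
    _ = (1 + C) * X ^ (9 / 8 + ε) := by ring

/-- the number of surjections onto a group of order 5 -/
theorem surBound (X : ℝ) (H : Type) [CommGroup H] (hH : Nat.card H = 5) :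
    ∑ᶠ K ∈ IQ ⌊X⌋₊, (Nat.card {f : ↥(Subgroup.closure
      {g : ClassGroup (𝓞 K) | ∃ n : ℕ, g ^ (5 ^ n) = 1}) →* H // Function.Surjective f} : ℝ) ≤
    ∑ᶠ K ∈ IQ ⌊X⌋₊, (Nat.card {c : ClassGroup (𝓞 K) // c ^ 5 = 1} : ℝ) := by
  rw [finsum_mem_eq_finite_toFinset_sum _ (famFin _), finsum_mem_eq_finite_toFinset_sum _
    (famFin _)]
  apply Finset.sum_le_sum
  intro K hK
  rw [Set.Finite.mem_toFinset] at hK
  obtain ⟨hn, -⟩ := id hK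
  have hfin : Finite (ClassGroup (𝓞 K)) := inferInstance
  exact_mod_cast sur 5 (by norm_num) (ClassGroup (𝓞 K)) H hH

end Pool.Agent.FTA
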