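import Pool.Agent.FTA.Cnt
import Pool.Agent.FTA.Defs

/-!
# FTA/Pair: a difference of two values of `N` is attained only few times

PROOF of `pair`.  Let `S' = S.filter _`.  For `N ∈ S'` let `N' = N + v d ∈ S` and
`δ(N) = e N' - e N`.
(1) `|δ u - v ^ 3 d| ≤ 2 K c ^ 2` (difference of the two bounds, `v ^ 2 (N' - N) = v ^ 3 d`).
(2) Subtracting the two divisibilities:
`c ^ 3 ∣ δ u ^ 3 - v ^ 3 d (u ^ 2 - c ^ 2 (2 N + v d))`   (★)
(use `N' (u ^ 2 - c ^ 2 N') - N (u ^ 2 - c ^ 2 N) = v d (u ^ 2 - c ^ 2 (2 N + v d))`).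
(3) Values of `δ`: mod `c ^ 2` (★) gives `u ^ 3 δ = v ^ 3 d u ^ 2`, so for two values `δ, δ'`:
`c ^ 2 ∣ u ^ 3 (δ - δ')`, so `c ^ 2 ∣ δ - δ'`; and `|δ - δ'| |u| ≤ 4 K c ^ 2`.  By `cnt` (with
`m = c ^ 2`, `L = 4 K c ^ 2 / |u|`) the image of `δ` has at most `4 K / |u| + 1` elements.
(4) Fibre over `δ`: for `N, N₁` in the fibre, subtracting (★):
`c ^ 3 ∣ 2 c ^ 2 v ^ 3 d (N - N₁)`, so `c ∣ 2 d (N - N₁)` (`c ≥ 1`, `v` coprime to `c`), so
`c / gcd (c, 2 d) ∣ N - N₁`; and `v ∣ c ^ 2 (N - N₁)` so `v ∣ N - N₁`.  As `|v|` and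
`c / gcd (c, 2 d)` are coprime, `|v| c / gcd (c, 2 d) ∣ N - N₁`; `|N - N₁| < M`.  By `cnt`
(image of the fibre under the cast `ℕ → ℤ`) the fibre has at most
`M gcd (c, 2 d) / (|v| c) + 1` elements.
So `card S' ≤ (4 K / |u| + 1) (M gcd (c, 2 d) / (|v| c) + 1)`
(`Finset.card_eq_sum_card_fiberwise` or `Finset.card_le_mul_card_image`; the real bound for the
number of fibres times the real bound for each fibre).
-/

set_option autoImplicit false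

namespace Pool.Agent.FTA

theorem pair (M c : ℕ) (u v : ℤ) (hc : 1 ≤ c) (hu : u ≠ 0) (hv : v ≠ 0)
    (huc : IsCoprime u (c : ℤ)) (hvc : IsCoprime v (c : ℤ)) (K : ℝ) (hK : 0 ≤ K)
    (S : Finset ℕ) (e : ℕ → ℤ) (hS : ∀ N ∈ S, IsF M c u v K N (e N)) (d : ℤ) (hd : d ≠ 0) :
    ((S.filter (fun N : ℕ => ∃ N' : ℕ, N' ∈ S ∧ (N' : ℤ) = (N : ℤ) + v * d)).card : ℝ) ≤
      (4 * K / |(u : ℝ)| + 1) * (M * (Int.gcd c (2 * d) : ℝ) / (|(v : ℝ)| * c) + 1) := by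
  classical
  set S' := S.filter (fun N : ℕ => ∃ N' : ℕ, N' ∈ S ∧ (N' : ℤ) = (N : ℤ) + v * d) with hS'
  let nx : ℕ → ℕ := fun N => ((N : ℤ) + v * d).toNat
  have hnx : ∀ N ∈ S', nx N ∈ S ∧ ((nx N : ℕ) : ℤ) = N + v * d := by
    intro N hN
    rw [hS', Finset.mem_filter] at hN
    obtain ⟨-, N', hN'S, hN'⟩ := hN
    have h1 : nx N = N' := by
      show ((N : ℤ) + v * d).toNat = N'
      rw [← hN', Int.toNat_natCast]
    rw [h1]
    exact ⟨hN'S, hN'⟩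
  have hSS : ∀ N ∈ S', N ∈ S := fun N hN => (Finset.mem_filter.1 hN).1
  let δ : ℕ → ℤ := fun N => e (nx N) - e N
  have hδ : ∀ N, δ N = e (nx N) - e N := fun N => rfl
  have hcr : (0 : ℝ) < c := by exact_mod_cast hc
  have hcz : (c : ℤ) ≠ 0 := by exact_mod_cast (by omega : c ≠ 0)
  have hur : 0 < |(u : ℝ)| := abs_pos.2 (by exact_mod_cast hu)
  have hvr : 0 < |(v : ℝ)| := abs_pos.2 (by exact_mod_cast hv)
  have h1 : ∀ N ∈ S', |((δ N * u - v ^ 3 * d : ℤ) : ℝ)| ≤ 2 * K * (c : ℝ) ^ 2 := by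
    intro N hN
    obtain ⟨hS1, hS2⟩ := hnx N hN
    have a1 := (hS N (hSS N hN)).2.2.2.1
    have a2 := (hS (nx N) hS1).2.2.2.1
    have a3 : (δ N * u - v ^ 3 * d : ℤ) = (e (nx N) * u - v ^ 2 * (nx N : ℤ)) -
        (e N * u - v ^ 2 * (N : ℤ)) := by
      rw [hδ, hS2]
      ring
    rw [a3, Int.cast_sub]
    refine (abs_sub _ _).trans ?_
    linarith
  have h2 : ∀ N ∈ S', (c : ℤ) ^ 3 ∣ δ N * u ^ 3 -
      v ^ 3 * d * (u ^ 2 - (c : ℤ) ^ 2 * (2 * N + v * d)) := by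
    intro N hN
    obtain ⟨hS1, hS2⟩ := hnx N hN
    have a1 := (hS N (hSS N hN)).2.2.2.2
    have a2 := (hS (nx N) hS1).2.2.2.2
    rw [hS2] at a2
    have a3 := dvd_sub a2 a1
    have a4 : e (nx N) * u ^ 3 - v ^ 2 * (N + v * d) * (u ^ 2 - (c : ℤ) ^ 2 * (N + v * d)) -
        (e N * u ^ 3 - v ^ 2 * N * (u ^ 2 - (c : ℤ) ^ 2 * N)) =
        δ N * u ^ 3 - v ^ 3 * d * (u ^ 2 - (c : ℤ) ^ 2 * (2 * N + v * d)) := by
      rw [hδ]
      ring
    rwa [a4] at a3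
  -- the difference of two relations
  have h2' : ∀ N₁ ∈ S', ∀ N₂ ∈ S', (c : ℤ) ^ 3 ∣ (δ N₁ - δ N₂) * u ^ 3 +
      (c : ℤ) ^ 2 * (2 * v ^ 3 * d * ((N₁ : ℤ) - N₂)) := by
    intro N₁ hN₁ N₂ hN₂
    have a1 := dvd_sub (h2 N₁ hN₁) (h2 N₂ hN₂)
    have a2 : δ N₁ * u ^ 3 - v ^ 3 * d * (u ^ 2 - (c : ℤ) ^ 2 * (2 * N₁ + v * d)) -
        (δ N₂ * u ^ 3 - v ^ 3 * d * (u ^ 2 - (c : ℤ) ^ 2 * (2 * N₂ + v * d))) =
        (δ N₁ - δ N₂) * u ^ 3 + (c : ℤ) ^ 2 * (2 * v ^ 3 * d * ((N₁ : ℤ) - N₂)) := by ring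
    rwa [a2] at a1
  have h3 : ((S'.image δ).card : ℝ) ≤ 4 * K / |(u : ℝ)| + 1 := by
    have b1 := cnt (S'.image δ) (c ^ 2) (Nat.one_le_pow _ _ hc) (4 * K * (c : ℝ) ^ 2 / |(u : ℝ)|)
      (by positivity) (by
        intro x hx y hy
        obtain ⟨N₁, hN₁, rfl⟩ := Finset.mem_image.1 hx
        obtain ⟨N₂, hN₂, rfl⟩ := Finset.mem_image.1 hy
        have a1 : (c : ℤ) ^ 2 ∣ (δ N₁ - δ N₂) * u ^ 3 := by
          have a2 := (pow_dvd_pow (c : ℤ) (by norm_num : 2 ≤ 3)).trans (h2' N₁ hN₁ N₂ hN₂)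
          exact (dvd_add_left (dvd_mul_right _ _)).1 a2
        push_cast
        exact (huc.symm.pow).dvd_of_dvd_mul_right a1) (by
        intro x hx y hy
        obtain ⟨N₁, hN₁, rfl⟩ := Finset.mem_image.1 hx
        obtain ⟨N₂, hN₂, rfl⟩ := Finset.mem_image.1 hy
        rw [le_div_iff₀ hur]
        have a1 := h1 N₁ hN₁
        have a2 := h1 N₂ hN₂
        have a3 : ((δ N₁ - δ N₂ : ℤ) : ℝ) * (u : ℝ) =
            ((δ N₁ * u - v ^ 3 * d : ℤ) : ℝ) - ((δ N₂ * u - v ^ 3 * d : ℤ) : ℝ) := by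
          push_cast
          ring
        calc ((δ N₁ - δ N₂ : ℤ) : ℝ) * |(u : ℝ)| ≤ |((δ N₁ - δ N₂ : ℤ) : ℝ)| * |(u : ℝ)| :=
              mul_le_mul_of_nonneg_right (le_abs_self _) hur.le
          _ = |((δ N₁ - δ N₂ : ℤ) : ℝ) * (u : ℝ)| := (abs_mul _ _).symm
          _ ≤ 4 * K * (c : ℝ) ^ 2 := by
              rw [a3]
              refine (abs_sub _ _).trans ?_
              linarith)
    refine b1.trans (le_of_eq ?_)
    congr 1
    push_cast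
    field_simp
  -- the fibres
  have hg0 : 0 < Int.gcd c (2 * d) := Int.gcd_pos_of_ne_zero_left _ hcz
  obtain ⟨c1, hc1⟩ : Int.gcd c (2 * d) ∣ c := by
    have := Int.gcd_dvd_left (c : ℤ) (2 * d)
    exact_mod_cast this
  have hgr : (0 : ℝ) < Int.gcd c (2 * d) := by exact_mod_cast hg0
  have hc10 : 0 < c1 := by
    rcases Nat.eq_zero_or_pos c1 with h | h
    · rw [h, mul_zero] at hc1
      omega
    · exact h
  have hc1r : (0 : ℝ) < c1 := by exact_mod_cast hc10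
  have hc1z : (c : ℤ) = (Int.gcd c (2 * d) : ℤ) * c1 := by exact_mod_cast hc1
  have hcc : (c : ℝ) = (Int.gcd c (2 * d) : ℝ) * c1 := by exact_mod_cast hc1
  have hm1 : 1 ≤ (v * (c1 : ℤ)).natAbs := by
    rw [Nat.one_le_iff_ne_zero, Int.natAbs_ne_zero]
    exact mul_ne_zero hv (by exact_mod_cast hc10.ne')
  have h4 : ∀ b ∈ S'.image δ, ((S'.filter (fun N => δ N = b)).card : ℝ) ≤
      M * (Int.gcd c (2 * d) : ℝ) / (|(v : ℝ)| * c) + 1 := by
    intro b _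
    have b1 := cnt ((S'.filter (fun N => δ N = b)).image (fun N : ℕ => (N : ℤ)))
      (v * (c1 : ℤ)).natAbs hm1 M (Nat.cast_nonneg M) (by
        intro x hx y hy
        obtain ⟨N₁, hN₁, rfl⟩ := Finset.mem_image.1 hx
        obtain ⟨N₂, hN₂, rfl⟩ := Finset.mem_image.1 hy
        rw [Finset.mem_filter] at hN₁ hN₂
        rw [Int.natAbs_dvd]
        have a1 := h2' N₁ hN₁.1 N₂ hN₂.1
        rw [hN₁.2, hN₂.2, sub_self, zero_mul, zero_add, pow_succ (c : ℤ) 2] at a1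
        have a2 : (c : ℤ) ∣ 2 * v ^ 3 * d * ((N₁ : ℤ) - N₂) :=
          (mul_dvd_mul_iff_left (pow_ne_zero 2 hcz)).1 a1
        have a3 : (c : ℤ) ∣ 2 * d * ((N₁ : ℤ) - N₂) := by
          have a4 : 2 * v ^ 3 * d * ((N₁ : ℤ) - N₂) = 2 * d * ((N₁ : ℤ) - N₂) * v ^ 3 := by ring
          rw [a4] at a2
          exact (hvc.symm.pow_right).dvd_of_dvd_mul_right a2
        have a5 : (c1 : ℤ) ∣ (N₁ : ℤ) - N₂ := by
          have a6 := Int.gcd_eq_gcd_ab (c : ℤ) (2 * d)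
          have a7 : (c : ℤ) ∣ (Int.gcd c (2 * d) : ℤ) * ((N₁ : ℤ) - N₂) := by
            rw [a6, add_mul]
            refine dvd_add ?_ ?_
            · rw [mul_assoc]
              exact dvd_mul_right _ _
            · have a8 : 2 * d * Int.gcdB (c : ℤ) (2 * d) * ((N₁ : ℤ) - N₂) =
                  2 * d * ((N₁ : ℤ) - N₂) * Int.gcdB (c : ℤ) (2 * d) := by ring
              rw [a8]
              exact Dvd.dvd.mul_right a3 _
          have a9 : (Int.gcd c (2 * d) : ℤ) * c1 ∣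
              (Int.gcd c (2 * d) : ℤ) * ((N₁ : ℤ) - N₂) := by
            rw [← hc1z]
            exact a7
          exact (mul_dvd_mul_iff_left (by exact_mod_cast hg0.ne')).1 a9
        have a10 : v ∣ (N₁ : ℤ) - N₂ := by
          have a11 := dvd_sub (hS N₂ (hSS N₂ hN₂.1)).2.2.1 (hS N₁ (hSS N₁ hN₁.1)).2.2.1
          have a12 : u ^ 2 - (c : ℤ) ^ 2 * N₂ - (u ^ 2 - (c : ℤ) ^ 2 * N₁) =
              ((N₁ : ℤ) - N₂) * (c : ℤ) ^ 2 := by ring
          rw [a12] at a11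
          exact (hvc.pow_right).dvd_of_dvd_mul_right a11
        have a13 : IsCoprime v (c1 : ℤ) := by
          refine hvc.of_isCoprime_of_dvd_right ?_
          rw [hc1z]
          exact dvd_mul_left _ _
        exact a13.mul_dvd a10 a5) (by
        intro x hx y hy
        obtain ⟨N₁, hN₁, rfl⟩ := Finset.mem_image.1 hx
        obtain ⟨N₂, hN₂, rfl⟩ := Finset.mem_image.1 hy
        rw [Finset.mem_filter] at hN₁ hN₂
        have a1 := (hS N₁ (hSS N₁ hN₁.1)).2.1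
        have a2 := (hS N₂ (hSS N₂ hN₂.1)).1
        have a3 : (N₁ : ℤ) - N₂ ≤ (M : ℤ) := by omega
        exact_mod_cast a3)
    rw [Finset.card_image_of_injective _ Nat.cast_injective] at b1
    refine b1.trans (le_of_eq ?_)
    congr 1
    have a1 : (((v * (c1 : ℤ)).natAbs : ℕ) : ℝ) = |(v : ℝ)| * c1 := by
      rw [Nat.cast_natAbs, Int.cast_abs, Int.cast_mul, abs_mul, Int.cast_natCast,
        abs_of_pos hc1r]
    rw [a1]
    conv_rhs => rw [hcc]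
    field_simp
  have h5 : (S'.card : ℝ) = ∑ b ∈ S'.image δ, ((S'.filter (fun N => δ N = b)).card : ℝ) := by
    rw [Finset.card_eq_sum_card_image δ S', Nat.cast_sum]
  rw [h5]
  refine (Finset.sum_le_card_nsmul _ _ _ h4).trans ?_
  rw [nsmul_eq_mul]
  exact mul_le_mul_of_nonneg_right h3 (by positivity)

end Pool.Agent.FTA
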