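import Mathlib

/-!
# FTA/Prim: a short primitive vector

PROOF of `prim`.  Dirichlet (`Real.exists_int_int_abs_mul_sub_le (r / w) C0`): integers `j`, `k`
with `0 < k ≤ C0` and `|k (r / w) - j| ≤ 1 / (C0 + 1)`.  Put `u₀ = r k - j w`, so
`|u₀| (C0 + 1) ≤ w` and `w ∣ u₀ - r k`.  `u₀ ≠ 0`: otherwise `w ∣ r k`, so `w ∣ k` (`r` is coprime
to `w`), but `0 < k ≤ C0 < w`.  Let `G = gcd (u₀, k) ≥ 1`, `u₀ = G u`, `k = G c` (`u`, `c` coprime),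
`g = gcd (G, w)`, `w = g * w1`, `G = g * G'` with `gcd (G', w1) = 1`.  From
`g w1 ∣ g G' (u - r c)` we get `w1 ∣ u - r c`.  Finally `g c ≤ G c = k ≤ C0` and
`g |u| (C0 + 1) ≤ |u₀| (C0 + 1) ≤ w`.
-/

set_option autoImplicit false

namespace Pool.Agent.FTA

theorem prim (w : ℕ) (r : ℤ) (hr : IsCoprime r (w : ℤ)) (C0 : ℕ) (h1 : 1 ≤ C0) (h2 : C0 < w) :
    ∃ (g w1 c : ℕ) (u : ℤ), w = g * w1 ∧ 1 ≤ g ∧ 1 ≤ c ∧ g * c ≤ C0 ∧
      g * u.natAbs * (C0 + 1) ≤ w ∧ u ≠ 0 ∧ IsCoprime u (c : ℤ) ∧ (w1 : ℤ) ∣ u - r * c := by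
  obtain ⟨j, k, hk0, hkC, hjk⟩ := Real.exists_int_int_abs_mul_sub_le ((r : ℝ) / w) (n := C0) h1
  have hw : (0 : ℝ) < w := by exact_mod_cast (by omega : 0 < w)
  obtain ⟨u0, hu0⟩ : ∃ u0 : ℤ, u0 = r * k - j * w := ⟨_, rfl⟩
  have hC : (0 : ℝ) < (C0 : ℝ) + 1 := by positivity
  have hbR : |(u0 : ℝ)| * ((C0 : ℝ) + 1) ≤ w := by
    have e : (u0 : ℝ) = (k * ((r : ℝ) / w) - j) * w := by
      rw [hu0]; push_cast; field_simp
    rw [e, abs_mul, abs_of_pos hw]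
    have := mul_le_mul_of_nonneg_right hjk hw.le
    calc |(k : ℝ) * ((r : ℝ) / w) - j| * w * ((C0 : ℝ) + 1)
        ≤ 1 / ((C0 : ℝ) + 1) * w * ((C0 : ℝ) + 1) :=
          mul_le_mul_of_nonneg_right this hC.le
      _ = w := by field_simp
  have hb : u0.natAbs * (C0 + 1) ≤ w := by
    have : ((u0.natAbs * (C0 + 1) : ℕ) : ℝ) ≤ (w : ℝ) := by
      push_cast
      rw [Nat.cast_natAbs, Int.cast_abs]
      exact hbR
    exact_mod_cast this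
  have hu0ne : u0 ≠ 0 := by
    intro h0
    have h3 : (w : ℤ) ∣ r * k := ⟨j, by linarith⟩
    have h4 : (w : ℤ) ∣ k := hr.symm.dvd_of_dvd_mul_left h3
    have h5 := Int.le_of_dvd hk0 h4
    omega
  obtain ⟨c, rfl⟩ : ∃ c : ℕ, k = (c : ℤ) := ⟨k.toNat, by omega⟩
  have hc0 : 0 < c := by exact_mod_cast hk0
  have hcC : c ≤ C0 := by exact_mod_cast hkC
  -- the gcd
  obtain ⟨G, hG⟩ : ∃ G : ℕ, G = Nat.gcd u0.natAbs c := ⟨_, rfl⟩
  have hG0 : 0 < G := hG ▸ Nat.gcd_pos_of_pos_right _ hc0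
  obtain ⟨c', hc'⟩ : G ∣ c := hG ▸ Nat.gcd_dvd_right _ _
  obtain ⟨u, hu⟩ : (G : ℤ) ∣ u0 := Int.natCast_dvd.2 (hG ▸ Nat.gcd_dvd_left _ _)
  have hcop : Nat.Coprime u.natAbs c' := by
    have h3 : u0.natAbs = G * u.natAbs := by rw [hu, Int.natAbs_mul, Int.natAbs_natCast]
    have h4 : G = G * Nat.gcd u.natAbs c' := by
      rw [← Nat.gcd_mul_left, ← h3, ← hc']; exact hG
    exact Nat.eq_of_mul_eq_mul_left hG0 (by rw [mul_one]; exact h4.symm)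
  have hc'0 : 0 < c' := Nat.pos_of_ne_zero fun h => by rw [h, mul_zero] at hc'; omega
  obtain ⟨g, hg⟩ : ∃ g : ℕ, g = Nat.gcd G w := ⟨_, rfl⟩
  have hg0 : 0 < g := hg ▸ Nat.gcd_pos_of_pos_left _ hG0
  obtain ⟨G', hG'⟩ : g ∣ G := hg ▸ Nat.gcd_dvd_left _ _
  obtain ⟨w1, hw1⟩ : g ∣ w := hg ▸ Nat.gcd_dvd_right _ _
  have hcop' : Nat.Coprime G' w1 := by
    have h4 : g = g * Nat.gcd G' w1 := by
      rw [← Nat.gcd_mul_left, ← hG', ← hw1]; exact hg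
    exact Nat.eq_of_mul_eq_mul_left hg0 (by rw [mul_one]; exact h4.symm)
  have hgG : g ≤ G := Nat.le_of_dvd hG0 ⟨G', hG'⟩
  refine ⟨g, w1, c', u, hw1, hg0, hc'0, ?_, ?_, ?_, ?_, ?_⟩
  · calc g * c' ≤ G * c' := Nat.mul_le_mul_right _ hgG
      _ = c := hc'.symm
      _ ≤ C0 := hcC
  · refine le_trans (Nat.mul_le_mul_right _ ?_) hb
    rw [hu, Int.natAbs_mul, Int.natAbs_natCast]
    exact Nat.mul_le_mul_right _ hgG
  · rintro rfl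
    exact hu0ne (by rw [hu, mul_zero])
  · rw [Int.isCoprime_iff_gcd_eq_one]
    simpa [Int.gcd] using hcop
  · have h3 : (w : ℤ) ∣ G * (u - r * c') := by
      refine ⟨-j, ?_⟩
      have h6 : (c : ℤ) = G * c' := by exact_mod_cast hc'
      rw [h6, hu] at hu0
      linarith
    have h4 : (g : ℤ) * w1 ∣ g * (G' * (u - r * c')) := by
      have e1 : (w : ℤ) = g * w1 := by exact_mod_cast hw1
      have e2 : (G : ℤ) = g * G' := by exact_mod_cast hG'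
      rw [e1, e2] at h3
      rwa [← mul_assoc]
    have h5 : (w1 : ℤ) ∣ G' * (u - r * c') :=
      (mul_dvd_mul_iff_left (by exact_mod_cast hg0.ne')).1 h4
    exact (Nat.isCoprime_iff_coprime.2 hcop').symm.dvd_of_dvd_mul_left h5

end Pool.Agent.FTA
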