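import Pool.Agent.FTA.Defs

/-!
# FTA/SolA: a solution with large odd part gives a triple

PROOF of `solA`.  Let `g = Int.gcd t y ≥ 1` (`y ≥ 1`), `y = g y₁`, `y₁ = y1 t y ≥ 1`, `w = oddPart
y₁` (`y₁ / 2 ^ (factorization y₁ 2)`, the `ordCompl`), so `w ∣ y₁ ∣ y`, `w ≥ 1`, `w` is odd
(`Nat.not_dvd_ordCompl`).  `w ^ 2 ∣ y ^ 2 ∣ D y ^ 2 = 4 N ^ 5 - t ^ 2`.  `w` is coprime to `N`: a
common prime `l` is odd and divides `y / g`, against the last part of `Sol`.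
`t ^ 2 ≤ 4 N ^ 5` clear.  `w ^ 2 ≤ y ^ 2` and `N ^ 2 y ^ 2 ≤ D y ^ 2 ≤ 4 N ^ 5` give
`w ^ 2 ≤ 4 N ^ 3`.
-/

set_option autoImplicit false

namespace Pool.Agent.FTA

theorem solA (M Y D N : ℕ) (t y : ℤ) (h : Sol D N t y) (hM : M ≤ N) (hM2 : N < 2 * M)
    (hY : Y ≤ oddPart (y1 t y)) (hY2 : oddPart (y1 t y) < 2 * Y)
    (hl : M ^ 5 ≤ (oddPart (y1 t y)) ^ 4) : IsA M Y N (oddPart (y1 t y)) t := by
  obtain ⟨hN, hD, hy, heq, hlast⟩ := h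
  have hg : 0 < Int.gcd t y := Int.gcd_pos_of_ne_zero_right _ (by omega)
  have hgZ : (0 : ℤ) < (Int.gcd t y : ℤ) := by exact_mod_cast hg
  have e1 : (Int.gcd t y : ℤ) * (y / (Int.gcd t y : ℤ)) = y :=
    Int.mul_ediv_cancel' (Int.gcd_dvd_right ..)
  have hpos : 0 < y / (Int.gcd t y : ℤ) := by
    by_contra hcon
    push Not at hcon
    have := mul_nonpos_of_nonneg_of_nonpos hgZ.le hcon
    omega
  have hyZ : (y1 t y : ℤ) = y / (Int.gcd t y : ℤ) := by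
    unfold y1
    rw [Int.natCast_natAbs, abs_of_pos hpos]
  have hy1pos : 0 < y1 t y := by
    have : (0 : ℤ) < (y1 t y : ℤ) := by rw [hyZ]; exact hpos
    exact_mod_cast this
  set w := oddPart (y1 t y) with hw
  have hwd : w ∣ y1 t y := by
    rw [hw]
    unfold oddPart
    exact Nat.ordCompl_dvd _ _
  have hwpos : 0 < w := Nat.pos_of_dvd_of_pos hwd hy1pos
  have hwodd : Odd w := by
    rw [← Nat.not_even_iff_odd, even_iff_two_dvd, hw]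
    unfold oddPart
    exact Nat.not_dvd_ordCompl Nat.prime_two hy1pos.ne'
  have hwy : (w : ℤ) ∣ y := by
    have h1 : (w : ℤ) ∣ (y1 t y : ℤ) := Int.natCast_dvd_natCast.2 hwd
    rw [hyZ] at h1
    exact h1.trans ⟨(Int.gcd t y : ℤ), by rw [mul_comm]; exact e1.symm⟩
  have hwle : (w : ℤ) ≤ y := Int.le_of_dvd (by omega) hwy
  have hDsq : (D : ℤ) * y ^ 2 = 4 * (N : ℤ) ^ 5 - t ^ 2 := by linarith
  refine ⟨hM, hM2, hY, hY2, hwodd, ?_, ?_, ?_, ?_, hl⟩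
  · by_contra hne
    obtain ⟨l, hlp, hld⟩ := Nat.exists_prime_and_dvd hne
    have hlw : l ∣ w := hld.trans (Nat.gcd_dvd_left _ _)
    have hlN : l ∣ N := hld.trans (Nat.gcd_dvd_right _ _)
    have hl2 : l ≠ 2 := by
      rintro rfl
      exact (Nat.not_even_iff_odd.2 hwodd) (even_iff_two_dvd.2 hlw)
    apply hlast l hlp hl2 _ hlN
    rw [← hyZ]
    exact Int.natCast_dvd_natCast.2 (hlw.trans hwd)
  · rw [← hDsq]
    exact (pow_dvd_pow_of_dvd hwy 2).mul_left _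
  · have h1 : (0 : ℤ) ≤ (D : ℤ) * y ^ 2 := by positivity
    linarith
  · have h2 : (N : ℤ) ^ 2 * y ^ 2 ≤ 4 * (N : ℤ) ^ 5 := by
      have h3 : (N : ℤ) ^ 2 ≤ (D : ℤ) := by exact_mod_cast hD
      have h4 : (N : ℤ) ^ 2 * y ^ 2 ≤ (D : ℤ) * y ^ 2 :=
        mul_le_mul_of_nonneg_right h3 (sq_nonneg _)
      have := sq_nonneg t
      linarith
    have hNZ : (0 : ℤ) < (N : ℤ) ^ 2 := by
      have : (0 : ℤ) < (N : ℤ) := by omega
      positivity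
    have h5 : y ^ 2 ≤ 4 * (N : ℤ) ^ 3 := by
      have h6 : (N : ℤ) ^ 2 * y ^ 2 ≤ (N : ℤ) ^ 2 * (4 * (N : ℤ) ^ 3) := by
        calc (N : ℤ) ^ 2 * y ^ 2 ≤ 4 * (N : ℤ) ^ 5 := h2
          _ = _ := by ring
      exact le_of_mul_le_mul_left h6 hNZ
    have h7 : (w : ℤ) ^ 2 ≤ y ^ 2 := pow_le_pow_left₀ (by positivity) hwle 2
    have h8 : (w : ℤ) ^ 2 ≤ 4 * (N : ℤ) ^ 3 := h7.trans h5
    exact_mod_cast h8

end Pool.Agent.FTA
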