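import Pool.Agent.FTA.Large
import Pool.Agent.FTA.SolA

/-!
# FTA/SolL: the solutions with large odd part, in a dyadic box

PROOF of `solL`.  If `S` is empty this is clear; otherwise `Y ≥ 1` (`oddPart < 2 Y`).  Let
`P = √(Y / m ^ 2) > 0`, `P ^ 2 m ^ 2 = Y`.  Map `(D, N, t, y) ↦ (N, oddPart (y1 t y), t)`; the
image satisfies the hypothesis of `large` (by `solA`), so it has at most
`14000 T ^ 3 Λ ^ 2 m ^ 9` elements.  Every fibre has at most `T` elements: `N`, `t` are fixed,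
`z = 4 N ^ 5 - t ^ 2 = D y ^ 2 ≥ 1` (`D ≥ N ^ 2 ≥ 4`, `y ≥ 1`), `z ≤ 4 N ^ 5 ≤ 128 M ^ 5 ≤
(16 M) ^ 20`; `y` is a positive divisor of `z` and determines `D`.  (`fib_const`.)
-/

set_option autoImplicit false

namespace Pool.Agent.FTA

theorem solL (M Y : ℕ) (m T Λ : ℝ) (hm : 0 < m) (hm4 : m ^ 4 = (M : ℝ)) (hT1 : 1 ≤ T)
    (hT : ∀ n : ℕ, 1 ≤ n → n ≤ (16 * M) ^ 20 → (n.divisors.card : ℝ) ≤ T)
    (hΛ1 : 1 ≤ Λ) (hΛ : 1 + Real.log (3 * m ^ 2) ≤ Λ)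
    (S : Finset (ℕ × ℕ × ℤ × ℤ))
    (hS : ∀ q ∈ S, Sol q.1 q.2.1 q.2.2.1 q.2.2.2 ∧ M ≤ q.2.1 ∧ q.2.1 < 2 * M ∧
      Y ≤ oddPart (y1 q.2.2.1 q.2.2.2) ∧ oddPart (y1 q.2.2.1 q.2.2.2) < 2 * Y ∧
      M ^ 5 ≤ (oddPart (y1 q.2.2.1 q.2.2.2)) ^ 4) :
    (S.card : ℝ) ≤ 14000 * T ^ 4 * Λ ^ 2 * m ^ 9 := by
  classical
  rcases S.eq_empty_or_nonempty with hS0 | ⟨q₀, hq₀⟩
  · subst hS0
    simp only [Finset.card_empty, Nat.cast_zero]
    positivity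
  have hY1 : 1 ≤ Y := by
    have := (hS q₀ hq₀).2.2.2.2.1
    omega
  have hYR : (0 : ℝ) < (Y : ℝ) := by exact_mod_cast hY1
  set P : ℝ := √((Y : ℝ) / m ^ 2) with hPdef
  have hP : 0 < P := Real.sqrt_pos.2 (by positivity)
  have hPY : P ^ 2 * m ^ 2 = (Y : ℝ) := by
    rw [hPdef, Real.sq_sqrt (by positivity)]
    field_simp
  set f : ℕ × ℕ × ℤ × ℤ → ℕ × ℕ × ℤ :=
    fun q => (q.2.1, oddPart (y1 q.2.2.1 q.2.2.2), q.2.2.1) with hf
  have himg : ((S.image f).card : ℝ) ≤ 14000 * T ^ 3 * Λ ^ 2 * m ^ 9 := by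
    apply large M Y m P T Λ hm hm4 hP hPY hT1 hT hΛ1 hΛ
    intro r hr
    rw [Finset.mem_image] at hr
    obtain ⟨q, hq, rfl⟩ := hr
    obtain ⟨hsol, hMN, hN2, hYa, hYb, h5⟩ := hS q hq
    exact solA M Y q.1 q.2.1 q.2.2.1 q.2.2.2 hsol hMN hN2 hYa hYb h5
  have hcnt := fib_const S f (S.image f) (fun a ha => Finset.mem_image_of_mem f ha) T (by
    intro y hy
    rw [Finset.mem_image] at hy
    obtain ⟨q₁, hq₁, hfq₁⟩ := hy
    obtain ⟨hsol₁, hMN₁, hN2₁, -, -, -⟩ := hS q₁ hq₁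
    obtain ⟨hN2', hD₁, hy₁, heq₁, -⟩ := hsol₁
    set z : ℕ := q₁.1 * (q₁.2.2.2.natAbs) ^ 2 with hz
    have hyabs : ((q₁.2.2.2.natAbs : ℕ) : ℤ) = q₁.2.2.2 := by
      rw [Int.natCast_natAbs, abs_of_nonneg (by omega)]
    have hzeq : (z : ℤ) = 4 * (q₁.2.1 : ℤ) ^ 5 - q₁.2.2.1 ^ 2 := by
      rw [hz]
      push_cast
      rw [sq_abs]
      linarith
    have hD0 : 1 ≤ q₁.1 := by
      have : 0 < q₁.2.1 ^ 2 := by positivity
      omega
    have hz1 : 1 ≤ z := by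
      rw [hz]
      have : 1 ≤ q₁.2.2.2.natAbs := by omega
      exact Nat.one_le_iff_ne_zero.2 (by positivity)
    have hz2 : z ≤ (16 * M) ^ 20 := by
      have h1 : (z : ℤ) ≤ 4 * (q₁.2.1 : ℤ) ^ 5 := by
        have := sq_nonneg q₁.2.2.1
        linarith
      have h2 : z ≤ 4 * q₁.2.1 ^ 5 := by exact_mod_cast h1
      have h3 : q₁.2.1 ^ 5 ≤ (2 * M) ^ 5 := Nat.pow_le_pow_left hN2₁.le 5
      have h4 : (16 * M) ^ 5 = 32768 * (2 * M) ^ 5 := by ring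
      have h5 : z ≤ (16 * M) ^ 5 := by
        have h0 : 0 ≤ (2 * M) ^ 5 := Nat.zero_le _
        omega
      exact h5.trans (Nat.pow_le_pow_right (by omega) (by norm_num))
    refine le_trans ?_ (hT z hz1 hz2)
    have hinj : Set.InjOn (fun q : ℕ × ℕ × ℤ × ℤ => q.2.2.2.natAbs)
        (↑(S.filter (fun q => f q = y)) : Set (ℕ × ℕ × ℤ × ℤ)) := by
      intro q hq q' hq' heq
      rw [Finset.mem_coe, Finset.mem_filter] at hq hq'
      have h1 : f q = f q' := hq.2.trans hq'.2.symm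
      rw [hf] at h1
      simp only [Prod.mk.injEq] at h1
      obtain ⟨hsol, -⟩ := hS q hq.1
      obtain ⟨hsol', -⟩ := hS q' hq'.1
      obtain ⟨-, -, hyq, heq', -⟩ := hsol
      obtain ⟨-, -, hyq', heq'', -⟩ := hsol'
      have hy' : q.2.2.2 = q'.2.2.2 := by
        have : q.2.2.2.natAbs = q'.2.2.2.natAbs := heq
        omega
      have hD' : (q.1 : ℤ) = q'.1 := by
        have h5 : (q.1 : ℤ) * q'.2.2.2 ^ 2 = (q'.1 : ℤ) * q'.2.2.2 ^ 2 := by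
          have e1 := heq'
          rw [hy', h1.1, h1.2.2] at e1
          linarith
        exact mul_right_cancel₀ (pow_ne_zero 2 (by omega)) h5
      exact Prod.ext (by exact_mod_cast hD') (Prod.ext h1.1 (Prod.ext h1.2.2 hy'))
    rw [← Finset.card_image_of_injOn hinj]
    norm_cast
    apply Finset.card_le_card
    intro d hd
    rw [Finset.mem_image] at hd
    obtain ⟨q, hq, rfl⟩ := hd
    rw [Finset.mem_filter] at hq
    have h1 : f q = f q₁ := hq.2.trans hfq₁.symm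
    rw [hf] at h1
    simp only [Prod.mk.injEq] at h1
    obtain ⟨hsol, -⟩ := hS q hq.1
    obtain ⟨-, -, hyq, heq', -⟩ := hsol
    rw [Nat.mem_divisors]
    refine ⟨?_, by omega⟩
    have hyabs' : ((q.2.2.2.natAbs : ℕ) : ℤ) = q.2.2.2 := by
      rw [Int.natCast_natAbs, abs_of_nonneg (by omega)]
    rw [← Int.natCast_dvd_natCast, hyabs', hzeq, ← h1.1, ← h1.2.2]
    exact ⟨q.1 * q.2.2.2, by linarith⟩)
  refine hcnt.trans ?_
  calc ((S.image f).card : ℝ) * T ≤ (14000 * T ^ 3 * Λ ^ 2 * m ^ 9) * T :=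
        mul_le_mul_of_nonneg_right himg (by linarith)
    _ = 14000 * T ^ 4 * Λ ^ 2 * m ^ 9 := by ring

end Pool.Agent.FTA
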