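import Pool.Agent.FTA.Defs
import Pool.Agent.FTA.Prim
import Pool.Agent.FTA.Alg

/-!
# FTA/Tup: from `(N, w, t)` to the tuple `(g, c, u, v, e)`

PROOF of `tup`.
(0) Facts.  `N` is not a square, so `N ≥ 2`, so `M ≥ 2`, `m > 1`.  `w ≥ 2` since `w ^ 4 ≥ M ^ 5`.
`Y ≥ M ^ (1/2)`, i.e. `M ≤ Y ^ 2`: from `M ^ 5 ≤ w ^ 4 < 16 Y ^ 4` we get `Y ^ 4 > M ^ 5 / 16`,
and `M ^ 5 / 16 ≥ M ^ 2` for `M ≥ 3`; for `M = 2` it is `Y ^ 4 > 2`, so `Y ≥ 2`, `Y ^ 2 ≥ 4 > M`.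
Hence `P ^ 2 = Y / m ^ 2 ≥ 1` and `P ≥ 1`.  Also `P ^ 2 ≤ Y` (as `m ≥ 1`) so
`P ≤ Y` ... precisely `⌊P⌋₊ < w`: `P ^ 2 < Y` (as `m > 1`), `Y ≤ w`, so `P < w` (if `P ≥ w ≥ 1`
then `P ^ 2 ≥ w ≥ Y`).  Let `C0 = ⌊P⌋₊`, `1 ≤ C0 < w`, `C0 ≤ P < C0 + 1`.
(1) The root.  `IsCoprime (2 N ^ 2) (w ^ 2)` (`w` odd, coprime to `N`), so there is `r` with
`w ^ 2 ∣ t - 2 N ^ 2 r`.  Then `4 N ^ 4 r ^ 2 = t ^ 2 = 4 N ^ 5 mod w ^ 2`, so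
`w ^ 2 ∣ r ^ 2 - N` (cancel `4 N ^ 4`, coprime to `w ^ 2`).  `IsCoprime r w` since
`r ^ 2 = N mod w` and `N` is coprime to `w`.
(2) `prim w r _ C0` gives `g, w1, c, u`; `w1 ^ 2 ∣ w ^ 2`; `alg N t r u c w1` gives `v, k, e` with
`v w1 = u ^ 2 - c ^ 2 N`, `k w1 ^ 2 = t u c - N ^ 2 (u ^ 2 + N c ^ 2)`, `e u = k c ^ 2 + v ^ 2 N`
and the divisibility by `c ^ 3`.
(3) `v ≠ 0`: otherwise `u ^ 2 = c ^ 2 N`, so `c ∣ u` (`c ^ 2 ∣ u ^ 2`), `N = (u / c) ^ 2` is a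
square.  `v ∣ u ^ 2 - c ^ 2 N` clear.  `IsCoprime v c`: a common prime divisor divides `u ^ 2`.
`g (u ^ 2 - c ^ 2 N) = g v w1 = v w`.  `(e u - v ^ 2 N) w ^ 2 = k c ^ 2 g ^ 2 w1 ^ 2`: the last
identity.
(4) Sizes (real numbers; `w = g w1`, `|u| g (C0 + 1) ≤ w`, `g c ≤ C0 ≤ P`, `P < C0 + 1`,
`m ^ 4 = M ≤ N < 2 m ^ 4`, `P ^ 2 m ^ 2 = Y ≤ w < 2 P ^ 2 m ^ 2`):
`g |u| ≤ w / (C0 + 1) ≤ 2 P ^ 2 m ^ 2 / P = 2 P m ^ 2`.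
`g |v|`: `|v| w1 = |u ^ 2 - c ^ 2 N| ≤ max (u ^ 2, c ^ 2 N)`, so `g |v| w = g ^ 2 |v| w1 ≤
max ((g |u|) ^ 2, (g c) ^ 2 N)`, `(g |u|) ^ 2 ≤ (w / P) ^ 2`, i.e. `g |v| ≤ w / P ^ 2 ≤ 2 m ^ 2`
or `g |v| ≤ P ^ 2 * 2 m ^ 4 / w ≤ 2 m ^ 2`.
`|e u - v ^ 2 N| = |k| c ^ 2`, and `|k| w ^ 2 = g ^ 2 |k| w1 ^ 2 ≤ |t| (g |u|) (g c) + N ^ 2
(g |u|) ^ 2 + N ^ 3 (g c) ^ 2`.  `t ^ 2 ≤ 4 N ^ 5 ≤ 128 m ^ 20`, so `|t| ≤ 11.32 m ^ 10`.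
With `g |u| ≤ w / P`, `g c ≤ P`: `|k| ≤ 11.32 m ^ 10 / w + 4 m ^ 8 / P ^ 2 + 8 m ^ 12 P ^ 2 / w ^ 2
≤ (11.32 + 4 + 8) m ^ 8 / P ^ 2 ≤ 24 m ^ 8 / P ^ 2` by `w ≥ P ^ 2 m ^ 2`.
-/

set_option autoImplicit false

namespace Pool.Agent.FTA

private lemma tup_size1 (m P W U : ℝ) (hP : 0 < P) (hUP : U * P ≤ W) (hW : W ≤ 2 * P ^ 2 * m ^ 2) :
    U ≤ 2 * P * m ^ 2 := by
  refine le_of_mul_le_mul_right ?_ hP
  calc U * P ≤ W := hUP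
    _ ≤ 2 * P ^ 2 * m ^ 2 := hW
    _ = 2 * P * m ^ 2 * P := by ring

private lemma tup_size2 (m P W U C V n : ℝ) (hm : 0 < m) (hP : 0 < P) (hU : 0 ≤ U) (hC : 0 ≤ C) (hn : 0 ≤ n)
    (hUP : U * P ≤ W) (hW : W ≤ 2 * P ^ 2 * m ^ 2) (hW' : P ^ 2 * m ^ 2 ≤ W) (hCP : C ≤ P)
    (hnm : n ≤ 2 * m ^ 4) (h : V * W ≤ max (U ^ 2) (C ^ 2 * n)) : V ≤ 2 * m ^ 2 := by
  have hWpos : 0 < W := lt_of_lt_of_le (by positivity) hW'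
  rcases le_max_iff.mp h with h1 | h1
  · -- V * W ≤ U ^ 2
    have h2 : V * W * P ^ 2 ≤ W ^ 2 := by
      calc V * W * P ^ 2 ≤ U ^ 2 * P ^ 2 := mul_le_mul_of_nonneg_right h1 (by positivity)
        _ = (U * P) ^ 2 := by ring
        _ ≤ W ^ 2 := pow_le_pow_left₀ (by positivity) hUP 2
    have h3 : V * P ^ 2 ≤ W := by
      refine le_of_mul_le_mul_right ?_ hWpos
      calc V * P ^ 2 * W = V * W * P ^ 2 := by ring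
        _ ≤ W ^ 2 := h2
        _ = W * W := by ring
    refine le_of_mul_le_mul_right ?_ (by positivity : 0 < P ^ 2)
    calc V * P ^ 2 ≤ W := h3
      _ ≤ 2 * P ^ 2 * m ^ 2 := hW
      _ = 2 * m ^ 2 * P ^ 2 := by ring
  · have h2 : C ^ 2 * n ≤ P ^ 2 * (2 * m ^ 4) :=
      mul_le_mul (pow_le_pow_left₀ hC hCP 2) hnm hn (by positivity)
    refine le_of_mul_le_mul_right ?_ hWpos
    calc V * W ≤ C ^ 2 * n := h1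
      _ ≤ P ^ 2 * (2 * m ^ 4) := h2
      _ = 2 * m ^ 2 * (P ^ 2 * m ^ 2) := by ring
      _ ≤ 2 * m ^ 2 * W := mul_le_mul_of_nonneg_left hW' (by positivity)

private lemma tup_size3 (m P W U C K T n : ℝ) (hm : 0 < m) (hP : 0 < P) (hU : 0 ≤ U) (hC : 0 ≤ C) (hn : 0 ≤ n)
    (hT : 0 ≤ T) (hUP : U * P ≤ W) (hW' : P ^ 2 * m ^ 2 ≤ W) (hCP : C ≤ P)
    (hnm : n ≤ 2 * m ^ 4) (hTn : T ^ 2 ≤ 4 * n ^ 5)
    (h : K * W ^ 2 ≤ T * U * C + n ^ 2 * U ^ 2 + n ^ 3 * C ^ 2) : K ≤ 24 * m ^ 8 / P ^ 2 := by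
  have hWpos : 0 < W := lt_of_lt_of_le (by positivity) hW'
  have hT1 : T ≤ 12 * m ^ 10 := by
    have h1 : T ^ 2 ≤ (12 * m ^ 10) ^ 2 := by
      calc T ^ 2 ≤ 4 * n ^ 5 := hTn
        _ ≤ 4 * (2 * m ^ 4) ^ 5 := by gcongr
        _ = 128 * m ^ 20 := by ring
        _ ≤ 144 * m ^ 20 := by
          have : 0 ≤ m ^ 20 := by positivity
          linarith
        _ = (12 * m ^ 10) ^ 2 := by ring
    exact le_of_sq_le_sq h1 (by positivity)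
  -- multiply by P^2
  have hUC : U * C ≤ W := by
    calc U * C ≤ U * P := mul_le_mul_of_nonneg_left hCP hU
      _ ≤ W := hUP
  have h1 : T * U * C * P ^ 2 ≤ 12 * m ^ 8 * W ^ 2 := by
    calc T * U * C * P ^ 2 = T * (U * C) * P ^ 2 := by ring
      _ ≤ (12 * m ^ 10) * W * P ^ 2 := by gcongr
      _ = 12 * m ^ 8 * (W * (P ^ 2 * m ^ 2)) := by ring
      _ ≤ 12 * m ^ 8 * (W * W) := by gcongr
      _ = 12 * m ^ 8 * W ^ 2 := by ring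
  have h2 : n ^ 2 * U ^ 2 * P ^ 2 ≤ 4 * m ^ 8 * W ^ 2 := by
    calc n ^ 2 * U ^ 2 * P ^ 2 = n ^ 2 * (U * P) ^ 2 := by ring
      _ ≤ (2 * m ^ 4) ^ 2 * W ^ 2 := by gcongr
      _ = 4 * m ^ 8 * W ^ 2 := by ring
  have h3 : n ^ 3 * C ^ 2 * P ^ 2 ≤ 8 * m ^ 8 * W ^ 2 := by
    calc n ^ 3 * C ^ 2 * P ^ 2 ≤ (2 * m ^ 4) ^ 3 * P ^ 2 * P ^ 2 := by gcongr
      _ = 8 * m ^ 8 * (P ^ 2 * m ^ 2) ^ 2 := by ring
      _ ≤ 8 * m ^ 8 * W ^ 2 := by gcongr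
  rw [le_div_iff₀ (by positivity)]
  refine le_of_mul_le_mul_right ?_ (by positivity : 0 < W ^ 2)
  calc K * P ^ 2 * W ^ 2 = K * W ^ 2 * P ^ 2 := by ring
    _ ≤ (T * U * C + n ^ 2 * U ^ 2 + n ^ 3 * C ^ 2) * P ^ 2 := mul_le_mul_of_nonneg_right h (by positivity)
    _ = T * U * C * P ^ 2 + n ^ 2 * U ^ 2 * P ^ 2 + n ^ 3 * C ^ 2 * P ^ 2 := by ring
    _ ≤ 12 * m ^ 8 * W ^ 2 + 4 * m ^ 8 * W ^ 2 + 8 * m ^ 8 * W ^ 2 := by linarith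
    _ = 24 * m ^ 8 * W ^ 2 := by ring

theorem tup (M Y N w : ℕ) (t : ℤ) (h : IsA M Y N w t) (hns : ¬ IsSquare N) (m P : ℝ)
    (hm : 0 < m) (hm4 : m ^ 4 = (M : ℝ)) (hP : 0 < P) (hPY : P ^ 2 * m ^ 2 = (Y : ℝ)) :
    ∃ (g c : ℕ) (u v e : ℤ), TupP m P N w t g c u v e := by
  obtain ⟨hMN, hN2M, hYw, hw2Y, hodd, hcop, hdvd, htN, hwN, hMw⟩ := h
  have hN2 : 2 ≤ N := by
    rcases Nat.lt_or_ge N 2 with h1 | h1
    · exfalso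
      apply hns
      interval_cases N
      · exact ⟨0, rfl⟩
      · exact ⟨1, rfl⟩
    · exact h1
  have hM2 : 2 ≤ M := by omega
  have hMR : (2 : ℝ) ≤ M := by exact_mod_cast hM2
  have hm1 : 1 < m := by
    by_contra hcon
    have h1 : m ≤ 1 := not_lt.mp hcon
    have h2 : m ^ 4 ≤ 1 := pow_le_one₀ hm.le h1
    linarith
  -- M ≤ Y ^ 2
  have hMY : M ≤ Y ^ 2 := by
    by_contra hcon
    have h1 : Y ^ 2 + 1 ≤ M := by omega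
    have h2 : w ^ 4 ≤ (2 * Y) ^ 4 := Nat.pow_le_pow_left hw2Y.le 4
    have h3 : M ^ 5 ≤ 16 * (Y ^ 2) ^ 2 := by
      calc M ^ 5 ≤ w ^ 4 := hMw
        _ ≤ (2 * Y) ^ 4 := h2
        _ = 16 * (Y ^ 2) ^ 2 := by ring
    have h4 : 16 * (Y ^ 2) ^ 2 ≤ 16 * (M - 1) ^ 2 := by
      have : Y ^ 2 ≤ M - 1 := by omega
      gcongr
    obtain ⟨k, rfl⟩ : ∃ k, M = k + 2 := ⟨M - 2, by omega⟩
    have h5 : (k + 2) ^ 5 ≤ 16 * (k + 1) ^ 2 := by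
      have : k + 2 - 1 = k + 1 := by omega
      rw [this] at h4
      exact h3.trans h4
    have h6 : 16 * (k + 1) ^ 2 < (k + 2) ^ 5 := by
      have h7 : (k + 2) ^ 5 = k ^ 5 + 10 * k ^ 4 + 40 * k ^ 3 + 80 * k ^ 2 + 80 * k + 32 := by ring
      have h8 : 16 * (k + 1) ^ 2 = 16 * k ^ 2 + 32 * k + 16 := by ring
      rw [h7, h8]
      nlinarith [Nat.zero_le (k ^ 5), Nat.zero_le (k ^ 4), Nat.zero_le (k ^ 3), Nat.zero_le (k ^ 2)]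
    omega
  have hP1 : 1 ≤ P := by
    by_contra hcon
    have h1 : P < 1 := not_le.mp hcon
    have h2 : P ^ 4 < 1 := pow_lt_one₀ hP.le h1 (by norm_num)
    have h3 : P ^ 4 * (M : ℝ) = (Y : ℝ) ^ 2 := by
      rw [← hm4, ← hPY]; ring
    have h4 : (M : ℝ) ≤ (Y : ℝ) ^ 2 := by exact_mod_cast hMY
    nlinarith
  have hPsqY : P ^ 2 < Y := by
    rw [← hPY]
    have h1 : 1 < m ^ 2 := one_lt_pow₀ hm1 (by norm_num)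
    have h2 : 0 < P ^ 2 := by positivity
    nlinarith
  have hYR : (Y : ℝ) ≤ w := by exact_mod_cast hYw
  have hPw : P < w := by nlinarith
  have hwR : (w : ℝ) ≤ 2 * P ^ 2 * m ^ 2 := by
    have : (w : ℝ) < 2 * Y := by exact_mod_cast hw2Y
    rw [← hPY] at this
    linarith
  have hwR' : P ^ 2 * m ^ 2 ≤ (w : ℝ) := by rw [hPY]; exact hYR
  set C0 := ⌊P⌋₊ with hC0
  have hC1 : 1 ≤ C0 := by
    rw [hC0, Nat.one_le_floor_iff]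
    exact hP1
  have hC0P : (C0 : ℝ) ≤ P := Nat.floor_le hP.le
  have hPC0 : P < C0 + 1 := Nat.lt_floor_add_one P
  have hC0w : C0 < w := by
    have : (C0 : ℝ) < w := lt_of_le_of_lt hC0P hPw
    exact_mod_cast this
  -- (1) the root
  have hcop2 : IsCoprime (2 * (N : ℤ) ^ 2) ((w : ℤ) ^ 2) := by
    apply IsCoprime.pow_right
    apply IsCoprime.mul_left
    · have h1 : Nat.Coprime 2 w := by
        rw [Nat.coprime_two_left]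
        exact hodd
      exact_mod_cast Nat.isCoprime_iff_coprime.mpr h1
    · exact IsCoprime.pow_left (Nat.isCoprime_iff_coprime.mpr hcop.symm)
  obtain ⟨a, b, hab⟩ := hcop2
  set r : ℤ := a * t with hr
  have hr1 : (w : ℤ) ^ 2 ∣ t - 2 * (N : ℤ) ^ 2 * r := by
    refine ⟨t * b, ?_⟩
    rw [hr]
    linear_combination (-t) * hab
  have hr2 : (w : ℤ) ^ 2 ∣ r ^ 2 - N := by
    have h1 : IsCoprime ((w : ℤ) ^ 2) ((2 * (N : ℤ) ^ 2) ^ 2) :=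
      IsCoprime.pow_right (IsCoprime.symm ⟨a, b, hab⟩)
    refine h1.dvd_of_dvd_mul_left ?_
    have h2 : (2 * (N : ℤ) ^ 2) ^ 2 * (r ^ 2 - N) =
        -(4 * (N : ℤ) ^ 5 - t ^ 2) - (t - 2 * (N : ℤ) ^ 2 * r) * (t + 2 * (N : ℤ) ^ 2 * r) := by ring
    rw [h2]
    exact dvd_sub (dvd_neg.mpr hdvd) (Dvd.dvd.mul_right hr1 _)
  have hrw : IsCoprime r (w : ℤ) := by
    obtain ⟨s, hs⟩ := hr2
    have h1 : IsCoprime (N : ℤ) (w : ℤ) := Nat.isCoprime_iff_coprime.mpr hcop.symm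
    have h2 : IsCoprime (r ^ 2) (w : ℤ) := by
      have h3 : r ^ 2 = (N : ℤ) + (w : ℤ) * ((w : ℤ) * s) := by linear_combination hs
      rw [h3]
      exact IsCoprime.add_mul_left_left h1 _
    exact (IsCoprime.pow_left_iff (by norm_num)).mp h2
  -- (2)
  obtain ⟨g, w1, c, u, hw, hg, hc, hgc, hgu, hu0, huc, hw1⟩ := prim w r hrw C0 hC1 hC0w
  have hw1w : (w1 : ℤ) ^ 2 ∣ (w : ℤ) ^ 2 := by
    rw [hw]; push_cast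
    exact ⟨(g : ℤ) ^ 2, by ring⟩
  obtain ⟨v, k, e, hv, hk, he, hce⟩ := alg (N : ℤ) t r u c w1 (hw1w.trans hr2) (hw1w.trans hr1) hw1
  have hwg : (w : ℤ) = g * w1 := by rw [hw]; push_cast; ring
  have hv0 : v ≠ 0 := by
    intro h0
    rw [h0, zero_mul] at hv
    have h1 : u ^ 2 = (c : ℤ) * (c * N) := by linear_combination -hv
    have h2 : IsCoprime (u ^ 2) (c : ℤ) := IsCoprime.pow_left huc
    have h3 : (c : ℤ) ∣ u ^ 2 := ⟨_, h1⟩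
    have h4 : IsUnit (c : ℤ) := h2.symm.isUnit_of_dvd h3
    have h5 : c = 1 := by
      have := Int.isUnit_iff.mp h4
      omega
    subst h5
    apply hns
    refine ⟨u.natAbs, ?_⟩
    zify
    rw [abs_mul_abs_self]
    linear_combination -h1
  have hvc : IsCoprime v (c : ℤ) := by
    have h1 : IsCoprime (v * w1) (c : ℤ) := by
      rw [hv]
      have h2 : u ^ 2 - (c : ℤ) ^ 2 * N = u ^ 2 + (c : ℤ) * (-(c * N)) := by ring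
      rw [h2]
      exact IsCoprime.add_mul_left_left (IsCoprime.pow_left huc) _
    exact h1.of_mul_left_left
  -- real quantities
  have hgR : (0 : ℝ) ≤ g := Nat.cast_nonneg _
  have hcR : (0 : ℝ) ≤ c := Nat.cast_nonneg _
  have hU0 : 0 ≤ (g : ℝ) * |(u : ℝ)| := by positivity
  have hC00 : 0 ≤ (g : ℝ) * c := by positivity
  have hCP : (g : ℝ) * c ≤ P := by
    refine le_trans ?_ hC0P
    exact_mod_cast hgc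
  have hUP : (g : ℝ) * |(u : ℝ)| * P ≤ w := by
    have h1 : (g : ℝ) * |(u : ℝ)| * (C0 + 1) ≤ w := by
      have h2 : ((g * u.natAbs * (C0 + 1) : ℕ) : ℝ) ≤ (w : ℝ) := by exact_mod_cast hgu
      push_cast at h2
      rw [Nat.cast_natAbs, Int.cast_abs] at h2
      exact h2
    exact (mul_le_mul_of_nonneg_left hPC0.le hU0).trans h1
  have hnm : (N : ℝ) ≤ 2 * m ^ 4 := by
    rw [hm4]
    exact_mod_cast hN2M.le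
  have hn0 : (0 : ℝ) ≤ N := Nat.cast_nonneg _
  have hwgR : (w : ℝ) = g * w1 := by rw [hw]; push_cast; ring
  have hvR : (v : ℝ) * w1 = (u : ℝ) ^ 2 - (c : ℝ) ^ 2 * N := by exact_mod_cast hv
  have hkR : (k : ℝ) * (w1 : ℝ) ^ 2 =
      (t : ℝ) * u * c - (N : ℝ) ^ 2 * ((u : ℝ) ^ 2 + N * (c : ℝ) ^ 2) := by exact_mod_cast hk
  have hw10 : (0 : ℝ) ≤ w1 := Nat.cast_nonneg _
  have hVW : (g : ℝ) * |(v : ℝ)| * w ≤
      max (((g : ℝ) * |(u : ℝ)|) ^ 2) (((g : ℝ) * c) ^ 2 * N) := by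
    have h1 : (g : ℝ) * |(v : ℝ)| * w = (g : ℝ) ^ 2 * |(u : ℝ) ^ 2 - (c : ℝ) ^ 2 * N| := by
      rw [← hvR, abs_mul, abs_of_nonneg hw10, hwgR]; ring
    have h2 : |(u : ℝ) ^ 2 - (c : ℝ) ^ 2 * N| ≤ max ((u : ℝ) ^ 2) ((c : ℝ) ^ 2 * N) := by
      have h3 : (0 : ℝ) ≤ (u : ℝ) ^ 2 := by positivity
      have h4 : (0 : ℝ) ≤ (c : ℝ) ^ 2 * N := by positivity
      rw [abs_le]
      constructor
      · have := le_max_right ((u : ℝ) ^ 2) ((c : ℝ) ^ 2 * N)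
        linarith
      · have := le_max_left ((u : ℝ) ^ 2) ((c : ℝ) ^ 2 * N)
        linarith
    rw [h1]
    calc (g : ℝ) ^ 2 * |(u : ℝ) ^ 2 - (c : ℝ) ^ 2 * N| ≤
        (g : ℝ) ^ 2 * max ((u : ℝ) ^ 2) ((c : ℝ) ^ 2 * N) :=
          mul_le_mul_of_nonneg_left h2 (by positivity)
      _ = max ((g : ℝ) ^ 2 * (u : ℝ) ^ 2) ((g : ℝ) ^ 2 * ((c : ℝ) ^ 2 * N)) :=
          mul_max_of_nonneg _ _ (by positivity)
      _ = max (((g : ℝ) * |(u : ℝ)|) ^ 2) (((g : ℝ) * c) ^ 2 * N) := by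
          congr 1
          · rw [mul_pow, sq_abs]
          · ring
  have hKW : |(k : ℝ)| * (w : ℝ) ^ 2 ≤ |(t : ℝ)| * ((g : ℝ) * |(u : ℝ)|) * ((g : ℝ) * c) +
      (N : ℝ) ^ 2 * ((g : ℝ) * |(u : ℝ)|) ^ 2 + (N : ℝ) ^ 3 * ((g : ℝ) * c) ^ 2 := by
    have h1 : |(k : ℝ)| * (w : ℝ) ^ 2 =
        (g : ℝ) ^ 2 * |(t : ℝ) * u * c - (N : ℝ) ^ 2 * ((u : ℝ) ^ 2 + N * (c : ℝ) ^ 2)| := by
      rw [← hkR, abs_mul, abs_of_nonneg (by positivity : (0 : ℝ) ≤ (w1 : ℝ) ^ 2), hwgR]; ring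
    have h2 : |(t : ℝ) * u * c - (N : ℝ) ^ 2 * ((u : ℝ) ^ 2 + N * (c : ℝ) ^ 2)| ≤
        |(t : ℝ)| * |(u : ℝ)| * c + (N : ℝ) ^ 2 * ((u : ℝ) ^ 2 + N * (c : ℝ) ^ 2) := by
      refine (abs_sub _ _).trans (le_of_eq ?_)
      rw [abs_mul, abs_mul, abs_of_nonneg hcR,
        abs_of_nonneg (by positivity : (0 : ℝ) ≤ (N : ℝ) ^ 2 * ((u : ℝ) ^ 2 + N * (c : ℝ) ^ 2))]
    rw [h1]
    refine (mul_le_mul_of_nonneg_left h2 (by positivity)).trans (le_of_eq ?_)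
    rw [mul_pow, sq_abs]
    ring
  have htT : |(t : ℝ)| ^ 2 ≤ 4 * (N : ℝ) ^ 5 := by
    rw [sq_abs]
    exact_mod_cast htN
  have hKb := tup_size3 m P w _ _ |(k : ℝ)| |(t : ℝ)| N hm hP hU0 hC00 hn0 (abs_nonneg _) hUP hwR' hCP
    hnm htT hKW
  refine ⟨g, c, u, v, e, hg, hc, hu0, hv0, huc, hvc, hCP,
    tup_size1 m P w _ hP hUP hwR,
    tup_size2 m P w _ _ _ N hm hP hU0 hC00 hn0 hUP hwR hwR' hCP hnm hVW, ⟨w1, hv.symm⟩, ?_, hce, ?_, ?_⟩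
  · have h1 : ((e * u - v ^ 2 * N : ℤ) : ℝ) = (k : ℝ) * (c : ℝ) ^ 2 := by
      have : e * u - v ^ 2 * N = k * (c : ℤ) ^ 2 := by linear_combination he
      rw [this]; push_cast; ring
    rw [h1, abs_mul, abs_of_nonneg (by positivity : (0 : ℝ) ≤ (c : ℝ) ^ 2)]
    exact mul_le_mul_of_nonneg_right hKb (by positivity)
  · rw [hwg]
    linear_combination (-(g : ℤ)) * hv
  · rw [hwg]
    linear_combination ((g : ℤ) ^ 2 * (w1 : ℤ) ^ 2) * he + ((g : ℤ) ^ 2 * (c : ℤ) ^ 2) * hk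

end Pool.Agent.FTA
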